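import Pool.Agent.Lib.MP_008583_gt.Lev

/-!
The operator `D` which cuts off the top of an element, and its orbits.
-/

universe u

open Cardinal Set

namespace Pool.Agent.Resolv

section

variable {G L : Type u} [Group G] [LinearOrder L] [OrderBot L]

/-- A representative of the top part of `x`. -/
noncomputable def rep (lev : G → L) (x : G) : G :=
  Classical.epsilon (fun z => lev (x * z⁻¹) < lev x)

open Classical in
/-- The operator `D` which cuts off the top of `x`. -/
noncomputable def Dop (lev : G → L) (x : G) : G :=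
  if x = 1 then 1 else x * (rep lev x)⁻¹

variable {lev : G → L}

omit [OrderBot L] in
lemma Dop_one : Dop lev 1 = 1 := by
  simp [Dop]

omit [OrderBot L] in
lemma Dop_iter_one (i : ℕ) : (Dop lev)^[i] 1 = 1 :=
  Function.iterate_fixed Dop_one i

lemma Dop_lt (h : IsLev lev) {x : G} (hx : x ≠ 1) : lev (Dop lev x) < lev x := by
  have h1 : ∃ z, lev (x * z⁻¹) < lev x := by
    refine ⟨x, ?_⟩
    rw [mul_inv_cancel, h.one]
    exact bot_lt_iff_ne_bot.2 (fun h0 => hx ((h.eq_bot x).1 h0))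
  have h2 : lev (x * (rep lev x)⁻¹) < lev x := Classical.epsilon_spec h1
  simpa [Dop, hx] using h2

lemma rep_mul (h : IsLev lev) {P x : G} (hlt : lev P < lev x) :
    rep lev (P * x) = rep lev x := by
  have h1 : (fun z => lev (P * x * z⁻¹) < lev (P * x)) = (fun z => lev (x * z⁻¹) < lev x) := by
    funext z
    rw [h.mul_of_lt hlt]
    apply propext
    constructor
    · intro hz
      have : x * z⁻¹ = P⁻¹ * (P * x * z⁻¹) := by group
      rw [this]
      refine (h.mul _ _).trans_lt (max_lt ?_ hz)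
      rwa [h.inv]
    · intro hz
      rw [mul_assoc]
      exact (h.mul _ _).trans_lt (max_lt hlt hz)
  unfold rep
  rw [h1]

lemma Dop_mul (h : IsLev lev) {P x : G} (hlt : lev P < lev x) :
    Dop lev (P * x) = P * Dop lev x := by
  have hx : x ≠ 1 := h.ne_one_of_lt hlt
  have hPx : P * x ≠ 1 := by
    intro h0
    have h1 := h.mul_of_lt hlt
    rw [h0, h.one] at h1
    exact hx ((h.eq_bot x).1 h1.symm)
  simp only [Dop, hx, hPx, if_false, rep_mul h hlt, mul_assoc]

lemma Dop_iter_mul (h : IsLev lev) {P w : G} {n : ℕ}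
    (hlt : ∀ i < n, lev P < lev ((Dop lev)^[i] w)) :
    ∀ i ≤ n, (Dop lev)^[i] (P * w) = P * (Dop lev)^[i] w := by
  intro i
  induction i with
  | zero => intro _; rfl
  | succ i ih =>
    intro hi
    rw [Function.iterate_succ_apply', ih (by omega), Dop_mul h (hlt i (by omega)),
      Function.iterate_succ_apply']

lemma exists_Dop_iter_eq_one [WellFoundedLT L] (h : IsLev lev) (x : G) :
    ∃ n, (Dop lev)^[n] x = 1 := by
  have key : ∀ a : L, ∀ x : G, lev x = a → ∃ n, (Dop lev)^[n] x = 1 := by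
    intro a
    induction a using WellFoundedLT.induction with
    | ind a ih =>
      intro x hx
      by_cases h1 : x = 1
      · exact ⟨0, h1⟩
      · have h2 := Dop_lt h h1
        rw [hx] at h2
        obtain ⟨n, hn⟩ := ih _ h2 (Dop lev x) rfl
        exact ⟨n + 1, by rw [Function.iterate_succ_apply]; exact hn⟩
  exact key _ x rfl

/-- The nontrivial elements of the orbit of `x` under `D`. -/
def orb (lev : G → L) (x : G) : Set G := {z | z ≠ 1 ∧ ∃ i, (Dop lev)^[i] x = z}

lemma orb_finite [WellFoundedLT L] (h : IsLev lev) (x : G) : (orb lev x).Finite := by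
  obtain ⟨n, hn⟩ := exists_Dop_iter_eq_one h x
  refine ((Set.finite_Iio n).image (fun i => (Dop lev)^[i] x)).subset ?_
  rintro z ⟨hz, i, hi⟩
  refine ⟨i, ?_, hi⟩
  rw [mem_Iio]
  by_contra hcon
  rw [not_lt] at hcon
  apply hz
  obtain ⟨j, rfl⟩ := Nat.exists_eq_add_of_le hcon
  rw [← hi, add_comm, Function.iterate_add_apply, hn, Dop_iter_one]

end

section

variable {Ξ : Type u} [LinearOrder Ξ]

/-- `ξ` is the first place where `a` and `f` differ. -/
def FD (a f : Ξ → Bool) (ξ : Ξ) : Prop := (∀ η < ξ, a η = f η) ∧ a ξ ≠ f ξ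

lemma FD.unique {a f : Ξ → Bool} {ξ ξ' : Ξ} (h : FD a f ξ) (h' : FD a f ξ') : ξ = ξ' := by
  rcases lt_trichotomy ξ ξ' with h1 | h1 | h1
  · exact absurd (h'.1 ξ h1) h.2
  · exact h1
  · exact absurd (h.1 ξ' h1) h'.2

lemma exists_FD [WellFoundedLT Ξ] {a f : Ξ → Bool} (h : a ≠ f) : ∃ ξ, FD a f ξ := by
  have h1 : ∃ ξ, a ξ ≠ f ξ := Function.ne_iff.1 h
  let wf : WellFounded ((· < ·) : Ξ → Ξ → Prop) := wellFounded_lt
  refine ⟨wf.min {ξ | a ξ ≠ f ξ} h1, ?_, wf.min_mem {ξ | a ξ ≠ f ξ} h1⟩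
  intro η hη
  by_contra hcon
  exact wf.not_lt_min {ξ | a ξ ≠ f ξ} hcon hη

lemma FD.not_self {a : Ξ → Bool} {ξ : Ξ} : ¬ FD a a ξ := fun h => h.2 rfl

lemma FD.symm {a f : Ξ → Bool} {ξ : Ξ} (h : FD a f ξ) : FD f a ξ :=
  ⟨fun η hη => (h.1 η hη).symm, h.2.symm⟩

/-- If `a, f` first differ at `δ`, `c, a` first differ before `δ`, then `c, f` first differ where
`c, a` do. -/
lemma FD.trans_lt {a c f : Ξ → Bool} {ξ δ : Ξ} (h : FD a f δ) (hc : FD c a ξ) (hlt : ξ < δ) :
    FD c f ξ :=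
  ⟨fun η hη => (hc.1 η hη).trans (h.1 η (hη.trans hlt)), fun h0 => hc.2 (h0.trans (h.1 ξ hlt).symm)⟩

/-- If `a, f` first differ at `δ`, `c, a` first differ after `δ`, then `c, f` first differ
at `δ`. -/
lemma FD.trans_gt {a c f : Ξ → Bool} {ξ δ : Ξ} (h : FD a f δ) (hc : FD c a ξ) (hlt : δ < ξ) :
    FD c f δ :=
  ⟨fun η hη => (hc.1 η (hη.trans hlt)).trans (h.1 η hη),
    fun h0 => h.2 ((hc.1 δ hlt).symm.trans h0)⟩

end

section

variable {G L Ξ : Type u} [Group G] [LinearOrder L] [OrderBot L] [LinearOrder Ξ]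

/-- The first differences of `f` with the sequences of the elements of the orbit of `w`. -/
def Dv (lev : G → L) (R : G → Ξ → Bool) (w : G) (f : Ξ → Bool) : Set Ξ :=
  {ξ | ∃ z ∈ orb lev w, FD (R z) f ξ}

/-- The first differences of `f` with the sequences of the first `n` elements of the orbit
of `w`. -/
def DvB (lev : G → L) (R : G → Ξ → Bool) (w : G) (n : ℕ) (f : Ξ → Bool) : Set Ξ :=
  {ξ | ∃ i < n, FD (R ((Dop lev)^[i] w)) f ξ}

variable {lev : G → L} {R : G → Ξ → Bool}

lemma Dv_finite [WellFoundedLT L] (h : IsLev lev) (w : G) (f : Ξ → Bool) :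
    (Dv lev R w f).Finite := by
  have h1 : Dv lev R w f = ⋃ z ∈ orb lev w, {ξ | FD (R z) f ξ} := by
    ext ξ
    simp [Dv]
  rw [h1]
  apply (orb_finite h w).biUnion
  intro z _
  apply Set.Subsingleton.finite
  intro a ha b hb
  exact FD.unique ha hb

omit [OrderBot L] in
lemma DvB_finite (w : G) (n : ℕ) (f : Ξ → Bool) :
    (DvB lev R w n f).Finite := by
  have h1 : DvB lev R w n f = ⋃ i ∈ Iio n, {ξ | FD (R ((Dop lev)^[i] w)) f ξ} := by
    ext ξ
    simp [DvB]
  rw [h1]
  apply (Set.finite_Iio n).biUnion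
  intro z _
  apply Set.Subsingleton.finite
  intro a ha b hb
  exact FD.unique ha hb

lemma Dv_mul (h : IsLev lev) (hR : ∀ x y, lev x = lev y → R x = R y) {P w l : G} {n : ℕ}
    (hlt : ∀ i < n, lev P < lev ((Dop lev)^[i] w)) (hn : (Dop lev)^[n] w = l)
    (f : Ξ → Bool) :
    Dv lev R (P * w) f = DvB lev R w n f ∪ Dv lev R (P * l) f := by
  have hit := Dop_iter_mul h hlt
  ext ξ
  constructor
  · rintro ⟨z, ⟨hz1, i, hi⟩, hFD⟩
    by_cases hin : i < n
    · left
      refine ⟨i, hin, ?_⟩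
      have h1 : R z = R ((Dop lev)^[i] w) := by
        apply hR
        rw [← hi, hit i hin.le]
        exact h.mul_of_lt (hlt i hin)
      rw [← h1]
      exact hFD
    · right
      rw [not_lt] at hin
      obtain ⟨j, rfl⟩ := Nat.exists_eq_add_of_le hin
      refine ⟨z, ⟨hz1, j, ?_⟩, hFD⟩
      rw [← hi, add_comm, Function.iterate_add_apply, hit n le_rfl, hn]
  · rintro (⟨i, hin, hFD⟩ | ⟨z, ⟨hz1, i, hi⟩, hFD⟩)
    · have h2 : lev ((Dop lev)^[i] (P * w)) = lev ((Dop lev)^[i] w) := by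
        rw [hit i hin.le]
        exact h.mul_of_lt (hlt i hin)
      refine ⟨(Dop lev)^[i] (P * w), ⟨?_, i, rfl⟩, ?_⟩
      · apply h.ne_one_of_lt (x := P)
        rw [h2]
        exact hlt i hin
      · rw [hR _ _ h2]
        exact hFD
    · refine ⟨z, ⟨hz1, i + n, ?_⟩, hFD⟩
      rw [Function.iterate_add_apply, hit n le_rfl, hn, hi]

end

end Pool.Agent.Resolv
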