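import Mathlib

open Topology Filter Set

universe u

namespace Pool.Agent.Irr008583

/-- A space is 2-resolvable if it has a dense subset with dense complement. -/
def Res (X : Type*) [TopologicalSpace X] : Prop := ∃ A : Set X, Dense A ∧ Dense Aᶜ

/-- `ρ` is a rank function: `{ρ < j}` and `{ρ ≤ j}` are subgroups (when nonempty). -/
structure IsRank {G : Type*} [Group G] {J : Type*} [LinearOrder J] (ρ : G → J) : Prop where
  mul_le : ∀ g h, ρ (g * h) ≤ max (ρ g) (ρ h)
  inv_le : ∀ g, ρ g⁻¹ ≤ ρ g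

namespace IsRank

variable {G : Type*} [Group G] {J : Type*} [LinearOrder J] {ρ : G → J}

theorem inv_eq (h : IsRank ρ) (g : G) : ρ g⁻¹ = ρ g :=
  le_antisymm (h.inv_le g) (by simpa using h.inv_le g⁻¹)

theorem one_le (h : IsRank ρ) (g : G) : ρ 1 ≤ ρ g := by
  have := h.mul_le g g⁻¹
  rw [mul_inv_cancel, h.inv_eq, max_self] at this
  exact this

theorem mul_lt (h : IsRank ρ) {g k : G} {j : J} (hg : ρ g < j) (hk : ρ k < j) : ρ (g * k) < j :=
  lt_of_le_of_lt (h.mul_le g k) (max_lt hg hk)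

theorem mul_le' (h : IsRank ρ) {g k : G} {j : J} (hg : ρ g ≤ j) (hk : ρ k ≤ j) : ρ (g * k) ≤ j :=
  le_trans (h.mul_le g k) (max_le hg hk)

theorem mul_left_lt (h : IsRank ρ) {g k : G} (hg : ρ g < ρ k) : ρ (g * k) = ρ k := by
  refine le_antisymm (le_trans (h.mul_le g k) (max_le hg.le le_rfl)) ?_
  by_contra hc
  push Not at hc
  have h1 : ρ (g⁻¹ * (g * k)) < ρ k := h.mul_lt (by rw [h.inv_eq]; exact hg) hc
  rw [inv_mul_cancel_left] at h1
  exact lt_irrefl _ h1

theorem mul_right_lt (h : IsRank ρ) {g k : G} (hk : ρ k < ρ g) : ρ (g * k) = ρ g := by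
  refine le_antisymm (le_trans (h.mul_le g k) (max_le le_rfl hk.le)) ?_
  by_contra hc
  push Not at hc
  have h1 : ρ ((g * k) * k⁻¹) < ρ g := h.mul_lt hc (by rw [h.inv_eq]; exact hk)
  rw [mul_inv_cancel_right] at h1
  exact lt_irrefl _ h1

end IsRank

section
variable {G : Type u} [Group G] [TopologicalSpace G] [IsTopologicalGroup G]

/-- T0a -/
theorem res_of_pair (A B : Set G) (hd : Disjoint A B) (hne : (A ∪ B).Nonempty)
    (hA : A ⊆ closure B) (hB : B ⊆ closure A) : Res G := by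
  classical
  let S : Set (Set G × Set G) :=
    {p | Disjoint p.1 p.2 ∧ p.1 ⊆ closure p.2 ∧ p.2 ⊆ closure p.1}
  have hS : (A, B) ∈ S := ⟨hd, hA, hB⟩
  obtain ⟨⟨M, N⟩, hle, hmax⟩ := zorn_le_nonempty₀ S (by
    intro c hcS hc y hy
    refine ⟨(⋃ p ∈ c, p.1, ⋃ p ∈ c, p.2), ⟨?_, ?_, ?_⟩, ?_⟩
    · rw [Set.disjoint_left]
      intro a ha hb
      simp only [mem_iUnion] at ha hb
      obtain ⟨p, hp, hap⟩ := ha
      obtain ⟨q, hq, haq⟩ := hb
      rcases hc.total hp hq with h | h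
      · exact Set.disjoint_left.1 (hcS hq).1 (h.1 hap) haq
      · exact Set.disjoint_left.1 (hcS hp).1 hap (h.2 haq)
    · intro a ha
      simp only [mem_iUnion] at ha
      obtain ⟨p, hp, hap⟩ := ha
      exact closure_mono (subset_biUnion_of_mem (u := fun p : Set G × Set G => p.2) hp)
        ((hcS hp).2.1 hap)
    · intro a ha
      simp only [mem_iUnion] at ha
      obtain ⟨p, hp, hap⟩ := ha
      exact closure_mono (subset_biUnion_of_mem (u := fun p : Set G × Set G => p.1) hp)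
        ((hcS hp).2.2 hap)
    · intro p hp
      exact ⟨subset_biUnion_of_mem (u := fun p : Set G × Set G => p.1) hp,
        subset_biUnion_of_mem (u := fun p : Set G × Set G => p.2) hp⟩) (A, B) hS
  obtain ⟨⟨hMN, hMc, hNc⟩, hmax⟩ := hmax
  have hcl : closure M = closure N :=
    Subset.antisymm (closure_minimal hMc isClosed_closure) (closure_minimal hNc isClosed_closure)
  have huniv : closure M = univ := by
    by_contra hcon
    obtain ⟨g, hg⟩ : ∃ g, g ∉ closure M := by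
      by_contra h
      push Not at h
      exact hcon (eq_univ_of_forall h)
    obtain ⟨y0, hy0⟩ := hne
    let t : G ≃ₜ G := Homeomorph.mulLeft (g * y0⁻¹)
    have hcomm : ∀ X : Set G, closure (t '' X) = t '' closure X := fun X =>
      (t.image_closure X).symm
    let W : Set G := (closure M)ᶜ
    have hWo : IsOpen W := isClosed_closure.isOpen_compl
    have key : ∀ X Y : Set G, X ⊆ closure Y → t '' X ∩ W ⊆ closure (t '' Y ∩ W) := by
      intro X Y hXY a ha
      obtain ⟨haX, haW⟩ := ha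
      have h1 : a ∈ closure (t '' Y) := by
        rw [hcomm]
        exact image_mono hXY haX
      rw [mem_closure_iff] at h1 ⊢
      intro o ho hao
      obtain ⟨b, hb1, hb2⟩ := h1 (o ∩ W) (ho.inter hWo) ⟨hao, haW⟩
      exact ⟨b, hb1.1, hb2, hb1.2⟩
    have hWM : Disjoint W M := by
      rw [Set.disjoint_left]
      intro a ha hb
      exact ha (subset_closure hb)
    have hWN : Disjoint W N := by
      rw [Set.disjoint_left]
      intro a ha hb
      exact ha (by rw [hcl]; exact subset_closure hb)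
    have hnew : (M ∪ (t '' A ∩ W), N ∪ (t '' B ∩ W)) ∈ S := by
      refine ⟨?_, ?_, ?_⟩
      · rw [Set.disjoint_left]
        rintro a (ha | ha) (hb | hb)
        · exact Set.disjoint_left.1 hMN ha hb
        · exact Set.disjoint_left.1 hWM hb.2 ha
        · exact Set.disjoint_left.1 hWN ha.2 hb
        · obtain ⟨a1, ha1, rfl⟩ := ha.1
          obtain ⟨b1, hb1, hb2⟩ := hb.1
          have := t.injective hb2
          subst this
          exact Set.disjoint_left.1 hd ha1 hb1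
      · rintro a (ha | ha)
        · exact closure_mono subset_union_left (hMc ha)
        · exact closure_mono subset_union_right (key A B hA ha)
      · rintro a (ha | ha)
        · exact closure_mono subset_union_left (hNc ha)
        · exact closure_mono subset_union_right (key B A hB ha)
    have hle2 := hmax hnew ⟨subset_union_left, subset_union_left⟩
    have hgW : g ∈ W := hg
    have htg : t y0 = g := by
      change g * y0⁻¹ * y0 = g
      simp
    rcases hy0 with h | h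
    · have : g ∈ M := hle2.1 (Or.inr ⟨⟨y0, h, htg⟩, hgW⟩)
      exact Set.disjoint_left.1 hWM hgW this
    · have : g ∈ N := hle2.2 (Or.inr ⟨⟨y0, h, htg⟩, hgW⟩)
      exact Set.disjoint_left.1 hWN hgW this
  refine ⟨M, ?_, ?_⟩
  · exact fun x => by rw [huniv]; trivial
  · intro x
    have : x ∈ closure N := by rw [← hcl, huniv]; trivial
    refine closure_mono ?_ this
    intro a ha hb
    exact Set.disjoint_left.1 hMN hb ha

/-- T0b -/
theorem res_of_subgroup (H : Subgroup G) (h : Res H) : Res G := by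
  obtain ⟨A, hA, hB⟩ := h
  refine res_of_pair ((↑) '' A : Set G) ((↑) '' Aᶜ : Set G) ?_ ?_ ?_ ?_
  · rw [Set.disjoint_left]
    rintro a ⟨x, hx, rfl⟩ ⟨y, hy, hxy⟩
    have : y = x := Subtype.ext hxy
    subst this
    exact hy hx
  · by_cases h1 : (1 : H) ∈ A
    · exact ⟨1, Or.inl ⟨1, h1, rfl⟩⟩
    · exact ⟨1, Or.inr ⟨1, h1, rfl⟩⟩
  · rintro a ⟨x, _, rfl⟩
    have := hB x
    rw [closure_subtype] at this
    exact this
  · rintro a ⟨x, _, rfl⟩
    have := hA x
    rw [closure_subtype] at this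
    exact this

theorem t0_exists_open_const (hG : ¬ Res G) {α : Type*} (c : G → α) (s : Set α) (hs : s.Finite) :
    ∀ U : Set G, IsOpen U → U.Nonempty → (∀ x ∈ U, c x ∈ s) →
    ∃ W : Set G, W ⊆ U ∧ IsOpen W ∧ W.Nonempty ∧ ∀ x ∈ W, ∀ y ∈ W, c x = c y := by
  induction s, hs using Set.Finite.induction_on with
  | empty =>
    intro U _ ⟨x, hx⟩ h
    exact absurd (h x hx) (by simp)
  | @insert a s _ _ ih =>
    intro U hU hUne h
    by_cases h1 : ∃ U' : Set G, U' ⊆ U ∧ IsOpen U' ∧ U'.Nonempty ∧ ∀ x ∈ U', c x ≠ a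
    · obtain ⟨U', hsub, ho, hne, hca⟩ := h1
      obtain ⟨W, hW, hW2⟩ := ih U' ho hne (by
        intro x hx
        rcases h x (hsub hx) with h2 | h2
        · exact absurd h2 (hca x hx)
        · exact h2)
      exact ⟨W, hW.trans hsub, hW2⟩
    by_cases h2 : ∃ U' : Set G, U' ⊆ U ∧ IsOpen U' ∧ U'.Nonempty ∧ ∀ x ∈ U', c x = a
    · obtain ⟨U', hsub, ho, hne, hca⟩ := h2
      exact ⟨U', hsub, ho, hne, fun x hx y hy => by rw [hca x hx, hca y hy]⟩
    exfalso
    push Not at h1 h2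
    apply hG
    refine res_of_pair (U ∩ {x | c x = a}) (U ∩ {x | c x ≠ a}) ?_ ?_ ?_ ?_
    · rw [Set.disjoint_left]
      rintro x ⟨_, hx⟩ ⟨_, hx'⟩
      exact hx' hx
    · obtain ⟨x, hx⟩ := hUne
      by_cases hxa : c x = a
      · exact ⟨x, Or.inl ⟨hx, hxa⟩⟩
      · exact ⟨x, Or.inr ⟨hx, hxa⟩⟩
    · rintro x ⟨hx, _⟩
      rw [mem_closure_iff]
      intro o ho hxo
      obtain ⟨y, hy, hya⟩ := h2 (o ∩ U) inter_subset_right (ho.inter hU) ⟨x, hxo, hx⟩
      exact ⟨y, hy.1, hy.2, hya⟩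
    · rintro x ⟨hx, _⟩
      rw [mem_closure_iff]
      intro o ho hxo
      obtain ⟨y, hy, hya⟩ := h1 (o ∩ U) inter_subset_right (ho.inter hU) ⟨x, hxo, hx⟩
      exact ⟨y, hy.1, hy.2, hya⟩

/-- T0c -/
theorem exists_open_const (hG : ¬ Res G) {α : Type*} [Finite α] (c : G → α) :
    ∃ U : Set G, IsOpen U ∧ U.Nonempty ∧ ∀ x ∈ U, ∀ y ∈ U, c x = c y := by
  obtain ⟨W, _, h1, h2, h3⟩ := t0_exists_open_const hG c univ Set.finite_univ univ isOpen_univ
    ⟨1, trivial⟩ (fun _ _ => trivial)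
  exact ⟨W, h1, h2, h3⟩

/-- T0d -/
theorem ker_nhds (hG : ¬ Res G) (B : Subgroup G) (φ : G → ZMod 2)
    (h : ∀ a ∈ B, ∀ b ∈ B, φ (a * b) = φ a + φ b) :
    ∀ᶠ w in 𝓝 (1 : G), w ∈ B → φ w = 0 := by
  have hB : ¬ Res B := fun hr => hG (res_of_subgroup B hr)
  obtain ⟨U, hU, ⟨x, hx⟩, hc⟩ := exists_open_const hB (fun b : B => φ b)
  obtain ⟨O, hO, rfl⟩ := isOpen_induced_iff.1 hU
  have h1 : ∀ᶠ w in 𝓝 (1 : G), (x : G) * w ∈ O := by
    have hcont : ContinuousAt (fun w : G => (x : G) * w) 1 := by fun_prop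
    exact hcont.preimage_mem_nhds (by simpa using hO.mem_nhds hx)
  filter_upwards [h1] with w hw hwB
  have h2 := hc (x * ⟨w, hwB⟩) hw x hx
  have h3 : φ ((x : G) * w) = φ x := h2
  rw [h x x.2 w hwB] at h3
  simpa using h3

/-- T0e -/
theorem finiteIndex_open (hG : ¬ Res G) (H : Subgroup G) (hH : H.FiniteIndex) :
    IsOpen (H : Set G) := by
  obtain ⟨U, hU, ⟨x, hx⟩, hc⟩ := exists_open_const hG (fun g : G => (g : G ⧸ H))
  refine H.isOpen_of_mem_nhds (g := 1) ?_
  have h1 : ∀ᶠ w in 𝓝 (1 : G), (x : G) * w ∈ U := by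
    have hcont : ContinuousAt (fun w : G => (x : G) * w) 1 := by fun_prop
    exact hcont.preimage_mem_nhds (by simpa using hU.mem_nhds hx)
  filter_upwards [h1] with w hw
  have h2 := hc x hx _ hw
  rw [QuotientGroup.eq] at h2
  simpa using h2

end

theorem t1_three {Q : Type*} (f : Q → Q) (hf : Function.Injective f) :
    ∃ χ : Q → Fin 3, ∀ q, f q ≠ q → χ (f q) ≠ χ q := by
  classical
  let S : Set (Set Q) := {A | (∀ a ∈ A, f a ≠ a) ∧ ∀ a ∈ A, f a ∉ A}
  obtain ⟨A, hA⟩ := zorn_subset S (by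
    intro c hcS hc
    refine ⟨⋃₀ c, ⟨?_, ?_⟩, fun s hs => subset_sUnion_of_mem hs⟩
    · rintro a ⟨s, hs, has⟩
      exact (hcS hs).1 a has
    · rintro a ⟨s, hs, has⟩ ⟨t, ht, hat⟩
      rcases hc.total hs ht with h | h
      · exact (hcS ht).2 a (h has) hat
      · exact (hcS hs).2 a has (h hat))
  obtain ⟨⟨hA1, hA2⟩, hmax⟩ := hA
  have hkey : ∀ q, f q ≠ q → q ∉ A → q ∉ f '' A → f q ∈ A := by
    intro q hq hqA hqfA
    by_contra hcon
    have hnew : insert q A ∈ S := by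
      refine ⟨?_, ?_⟩
      · rintro a (rfl | ha)
        · exact hq
        · exact hA1 a ha
      · rintro a (rfl | ha) hb
        · rcases hb with hb | hb
          · exact hq hb
          · exact hcon hb
        · rcases hb with hb | hb
          · exact hqfA ⟨a, ha, hb⟩
          · exact hA2 a ha hb
    exact hqA (hmax hnew (subset_insert q A) (mem_insert q A))
  refine ⟨fun q => if q ∈ A then 0 else if q ∈ f '' A then 1 else 2, ?_⟩
  intro q hq
  by_cases h1 : q ∈ A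
  · have h2 : f q ∉ A := hA2 q h1
    have h3 : f q ∈ f '' A := ⟨q, h1, rfl⟩
    simp only [h1, h2, h3, if_true, if_false]
    decide
  · by_cases h2 : q ∈ f '' A
    · have h3 : f q ∉ f '' A := by
        rintro ⟨a, ha, hfa⟩
        rw [hf hfa] at ha
        exact h1 ha
      by_cases h4 : f q ∈ A
      · simp only [h1, h2, h4, if_true, if_false]
        decide
      · simp only [h1, h2, h3, h4, if_true, if_false]
        decide
    · have h3 := hkey q hq h1 h2
      simp only [h1, h2, h3, if_true, if_false]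
      decide

section
variable {G : Type u} [Group G] [TopologicalSpace G] [IsTopologicalGroup G]

/-- T1 (CCP / CAP) -/
theorem cap (hG : ¬ Res G) {J : Type*} [LinearOrder J] {ρ : G → J} (hρ : IsRank ρ)
    (T : G ≃* G) (hT : Continuous T) (j0 : J)
    (hTρ : ∀ j, j0 < j → ∀ z, (ρ z < j ↔ ρ (T z) < j)) :
    ∃ j, ∀ᶠ w in 𝓝 (1 : G), ρ (T w * w⁻¹) ≤ j := by
  classical
  by_contra hcon
  push Not at hcon
  have hTeq : ∀ u, j0 < ρ u → ρ (T u) = ρ u := by
    intro u hu
    rcases lt_trichotomy (ρ (T u)) (ρ u) with h | h | h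
    · exact absurd ((hTρ (ρ u) hu u).2 h) (lt_irrefl _)
    · exact h
    · exact absurd ((hTρ (ρ (T u)) (hu.trans h) u).1 h) (lt_irrefl _)
  let F : J × Set G → J × Set G := fun p => (p.1, T '' p.2)
  have hF : Function.Injective F := by
    rintro ⟨a, A⟩ ⟨b, B⟩ hab
    have h1 : a = b := congrArg Prod.fst hab
    have h2 : T '' A = T '' B := congrArg Prod.snd hab
    rw [h1, T.injective.image_injective h2]
  obtain ⟨χ, hχ⟩ := t1_three F hF
  let τ : G → J := fun z => ρ (T z * z⁻¹)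
  let cs : J → G → Set G := fun j z => {y | ρ (y * z⁻¹) < j}
  let key : G → J × Set G := fun z => (τ z, cs (τ z) z)
  obtain ⟨U, hU, ⟨x, hx⟩, hc⟩ := exists_open_const hG (fun z => χ (key z))
  have hn1 : ∀ᶠ w in 𝓝 (1 : G), x * w ∈ U := by
    have hcont : ContinuousAt (fun w : G => x * w) 1 := by fun_prop
    exact hcont.preimage_mem_nhds (by simpa using hU.mem_nhds hx)
  have hn2 : ∀ᶠ w in 𝓝 (1 : G), x * T w ∈ U := by
    have hcont : ContinuousAt (fun w : G => x * T w) 1 := by fun_prop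
    exact hcont.preimage_mem_nhds (by simpa using hU.mem_nhds hx)
  have hfr := (hcon (max j0 (ρ x)))

  obtain ⟨w, hw, hw1, hw2⟩ := (hfr.and_eventually (hn1.and hn2)).exists

  have hj0 : j0 < τ w := lt_of_le_of_lt (le_max_left _ _) hw
  have hxj : ρ x < τ w := lt_of_le_of_lt (le_max_right _ _) hw
  have hTx : ρ (T x) < τ w := (hTρ _ hj0 x).1 hxj
  have hxi : ρ x⁻¹ < τ w := by rw [hρ.inv_eq]; exact hxj
  -- levels
  have hτ1 : τ (x * w) = τ w := by
    change ρ (T (x * w) * (x * w)⁻¹) = ρ (T w * w⁻¹)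
    have e : T (x * w) * (x * w)⁻¹ = T x * ((T w * w⁻¹) * x⁻¹) := by
      rw [map_mul, mul_inv_rev]; group
    rw [e]
    have h1 : ρ ((T w * w⁻¹) * x⁻¹) = ρ (T w * w⁻¹) := hρ.mul_right_lt hxi
    rw [hρ.mul_left_lt (by rw [h1]; exact hTx), h1]
  have hτT : τ (T w) = τ w := by
    change ρ (T (T w) * (T w)⁻¹) = ρ (T w * w⁻¹)
    have e : T (T w) * (T w)⁻¹ = T (T w * w⁻¹) := by rw [map_mul, map_inv]
    rw [e]
    exact hTeq _ hj0
  have hτ2 : τ (x * T w) = τ w := by
    rw [← hτT]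
    change ρ (T (x * T w) * (x * T w)⁻¹) = ρ (T (T w) * (T w)⁻¹)
    have e : T (x * T w) * (x * T w)⁻¹ = T x * ((T (T w) * (T w)⁻¹) * x⁻¹) := by
      rw [map_mul, mul_inv_rev]; group
    have h0 : ρ (T (T w) * (T w)⁻¹) = τ w := hτT
    rw [e]
    have h1 : ρ ((T (T w) * (T w)⁻¹) * x⁻¹) = ρ (T (T w) * (T w)⁻¹) :=
      hρ.mul_right_lt (by rw [h0]; exact hxi)
    rw [hρ.mul_left_lt (by rw [h1, h0]; exact hTx), h1]
  -- cosets
  have hcs : ∀ z, cs (τ w) (x * z) = cs (τ w) z := by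
    intro z
    ext y
    change ρ (y * (x * z)⁻¹) < τ w ↔ ρ (y * z⁻¹) < τ w
    have e : y * (x * z)⁻¹ = (y * z⁻¹) * x⁻¹ := by group
    rw [e]
    constructor
    · intro h
      have h2 := hρ.mul_lt h hxj
      rwa [inv_mul_cancel_right] at h2
    · intro h
      exact hρ.mul_lt h hxi
  have hk1 : key (x * w) = (τ w, cs (τ w) w) := by
    change (τ (x * w), cs (τ (x * w)) (x * w)) = _
    rw [hτ1, hcs]
  have hk2 : key (x * T w) = F (τ w, cs (τ w) w) := by
    change (τ (x * T w), cs (τ (x * T w)) (x * T w)) = (τ w, T '' cs (τ w) w)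
    rw [hτ2, hcs]
    congr 1
    ext y
    constructor
    · intro hy
      refine ⟨T.symm y, ?_, by simp⟩
      change ρ (T.symm y * w⁻¹) < τ w
      rw [hTρ _ hj0, map_mul, map_inv, MulEquiv.apply_symm_apply]
      exact hy
    · rintro ⟨v, hv, rfl⟩
      change ρ (T v * (T w)⁻¹) < τ w
      rw [← map_inv, ← map_mul, ← hTρ _ hj0]
      exact hv
  have hmoved : F (τ w, cs (τ w) w) ≠ (τ w, cs (τ w) w) := by
    intro h
    have h2 : T '' cs (τ w) w = cs (τ w) w := congrArg Prod.snd h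
    have h3 : T w ∈ T '' cs (τ w) w := by
      refine ⟨w, ?_, rfl⟩
      change ρ (w * w⁻¹) < τ w
      rw [mul_inv_cancel]
      exact lt_of_le_of_lt (hρ.one_le x) hxj
    rw [h2] at h3
    exact lt_irrefl _ (show ρ (T w * w⁻¹) < ρ (T w * w⁻¹) from h3)
  have hcol := hc _ hw1 _ hw2
  change χ (key (x * w)) = χ (key (x * T w)) at hcol
  rw [hk1, hk2] at hcol
  exact hχ _ hmoved hcol.symm

/-- T2 (inversion colouring) -/
theorem inv_bdd (hG : ¬ Res G) {J : Type*} [LinearOrder J] {ρ : G → J} (hρ : IsRank ρ)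
    (hOC : ∀ k : G, ∀ᶠ w in 𝓝 (1 : G), w * k = k * w) :
    ∃ j, ∀ᶠ w in 𝓝 (1 : G), ρ (w * w) ≤ j := by
  classical
  by_contra hcon
  push Not at hcon
  obtain ⟨r, hr⟩ : ∃ r : Set G → Set G → Prop, IsWellOrder (Set G) r := ⟨_, WellOrderingRel.isWellOrder⟩
  let cs : J → G → Set G := fun j z => {y | ρ (y * z⁻¹) < j}
  let σ : G → J := fun z => ρ (z * z)
  let c : G → Prop := fun z => r (cs (σ z) z) (cs (σ z) z⁻¹)
  obtain ⟨U, hU, ⟨x, hx⟩, hc⟩ := exists_open_const hG (fun z => decide (c z))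
  have hn1 : ∀ᶠ w in 𝓝 (1 : G), x * w ∈ U := by
    have hcont : ContinuousAt (fun w : G => x * w) 1 := by fun_prop
    exact hcont.preimage_mem_nhds (by simpa using hU.mem_nhds hx)
  have hn2 : ∀ᶠ w in 𝓝 (1 : G), x * w⁻¹ ∈ U := by
    have hcont : ContinuousAt (fun w : G => x * w⁻¹) 1 := by fun_prop
    exact hcont.preimage_mem_nhds (by simpa using hU.mem_nhds hx)
  have hfr := hcon (ρ x)

  obtain ⟨w, hw, ⟨hw1, hw2⟩, hwx⟩ := (hfr.and_eventually ((hn1.and hn2).and (hOC x))).exists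

  have hxj : ρ x < σ w := hw
  have hxi : ρ x⁻¹ < σ w := by rw [hρ.inv_eq]; exact hxj
  have hwx' : w⁻¹ * x = x * w⁻¹ := by
    rw [inv_mul_eq_iff_eq_mul, ← mul_assoc, hwx, mul_inv_cancel_right]
  have hxx : ρ (x * x) < σ w := hρ.mul_lt hxj hxj
  have hσi : σ w⁻¹ = σ w := by
    change ρ (w⁻¹ * w⁻¹) = ρ (w * w)
    rw [← mul_inv_rev, hρ.inv_eq]
  have hσ1 : ∀ z, z * x = x * z → σ z = σ w → σ (x * z) = σ w := by
    intro z hz hzw
    change ρ (x * z * (x * z)) = _
    have e : x * z * (x * z) = x * x * (z * z) := by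
      rw [mul_assoc, ← mul_assoc z x z, hz]; group
    rw [e, hρ.mul_left_lt]
    · exact hzw
    · change ρ (x * x) < σ z
      rw [hzw]; exact hxx
  have hcs : ∀ z, cs (σ w) (x * z) = cs (σ w) z := by
    intro z
    ext y
    change ρ (y * (x * z)⁻¹) < σ w ↔ ρ (y * z⁻¹) < σ w
    have e : y * (x * z)⁻¹ = (y * z⁻¹) * x⁻¹ := by group
    rw [e]
    constructor
    · intro h
      have h2 := hρ.mul_lt h hxj
      rwa [inv_mul_cancel_right] at h2
    · intro h
      exact hρ.mul_lt h hxi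
  have hcs' : ∀ z, cs (σ w) (x⁻¹ * z) = cs (σ w) z := by
    intro z
    have := hcs (x⁻¹ * z)
    rw [mul_inv_cancel_left] at this
    exact this.symm
  have hc1 : c (x * w) ↔ r (cs (σ w) w) (cs (σ w) w⁻¹) := by
    change r (cs (σ (x * w)) (x * w)) (cs (σ (x * w)) (x * w)⁻¹) ↔ _
    rw [hσ1 w hwx rfl, hcs]
    have e : (x * w)⁻¹ = x⁻¹ * w⁻¹ := by rw [← hwx, mul_inv_rev]
    rw [e, hcs']
  have hc2 : c (x * w⁻¹) ↔ r (cs (σ w) w⁻¹) (cs (σ w) w) := by
    change r (cs (σ (x * w⁻¹)) (x * w⁻¹)) (cs (σ (x * w⁻¹)) (x * w⁻¹)⁻¹) ↔ _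
    rw [hσ1 w⁻¹ hwx' hσi, hcs]
    have e : (x * w⁻¹)⁻¹ = x⁻¹ * w := by rw [← hwx', mul_inv_rev, inv_inv]
    rw [e, hcs']
  have hne : cs (σ w) w ≠ cs (σ w) w⁻¹ := by
    intro h
    have h1 : w ∈ cs (σ w) w := by
      change ρ (w * w⁻¹) < σ w
      rw [mul_inv_cancel]
      exact lt_of_le_of_lt (hρ.one_le x) hxj
    rw [h] at h1
    have h2 : ρ (w * w⁻¹⁻¹) < ρ (w * w) := h1
    rw [inv_inv] at h2
    exact lt_irrefl _ h2
  have hcol := hc _ hw1 _ hw2
  have hcol2 : c (x * w) ↔ c (x * w⁻¹) := by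
    have := hcol
    simpa using this
  rw [hc1, hc2] at hcol2
  have hn1 : ¬ r (cs (σ w) w) (cs (σ w) w⁻¹) := fun h => asymm_of r h (hcol2.1 h)
  have hn2 : ¬ r (cs (σ w) w⁻¹) (cs (σ w) w) := fun h => asymm_of r h (hcol2.2 h)
  exact hne (hr.trichotomous _ _ hn1 hn2)

end

end Pool.Agent.Irr008583
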