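import Pool.Agent.Lib.MP_008583_gt.Irr0

open Topology Filter Set

universe u

namespace Pool.Agent.Irr008583

section
variable {G : Type u} [Group G] [TopologicalSpace G] [IsTopologicalGroup G]

omit [TopologicalSpace G] [IsTopologicalGroup G] in
/-- T3 (coordinates) -/
theorem coords (B : Subgroup G) (hc : (B : Set G).Countable) (h2 : ∀ b ∈ B, b * b = 1) :
    ∃ φ : ℕ → G → ZMod 2, (∀ n, ∀ a ∈ B, ∀ b ∈ B, φ n (a * b) = φ n a + φ n b) ∧
      (∀ b ∈ B, {n | φ n b ≠ 0}.Finite) ∧ (∀ b ∈ B, b ≠ 1 → ∃ n, φ n b ≠ 0) := by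
  classical
  have : Countable B := hc
  have hsq : ∀ b : B, b * b = 1 := fun b => Subtype.ext (h2 b b.2)
  have hinv : ∀ b : B, b⁻¹ = b := fun b => inv_eq_of_mul_eq_one_right (hsq b)
  let _ : CommGroup B :=
    { (inferInstance : Group B) with
      mul_comm := fun a b => by
        have h := hinv (a * b)
        rw [mul_inv_rev, hinv, hinv] at h
        exact h.symm }
  let _ : Module (ZMod 2) (Additive B) := AddCommGroup.zmodModule (n := 2) (fun x => by
    rw [two_nsmul]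
    exact hsq x.toMul)
  let bs := Module.Basis.ofVectorSpace (ZMod 2) (Additive B)
  have : Countable (Additive B) := inferInstanceAs (Countable B)
  have : Countable (Module.Basis.ofVectorSpaceIndex (ZMod 2) (Additive B)) := bs.injective.countable
  obtain ⟨e, he⟩ := exists_injective_nat (Module.Basis.ofVectorSpaceIndex (ZMod 2) (Additive B))
  refine ⟨fun n g => if hg : g ∈ B then
    (Finsupp.mapDomain e (bs.repr (Additive.ofMul (⟨g, hg⟩ : B)))) n else 0, ?_, ?_, ?_⟩
  · intro n a ha b hb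
    have hab : a * b ∈ B := B.mul_mem ha hb
    beta_reduce
    rw [dif_pos ha, dif_pos hb, dif_pos hab]
    have e1 : (Additive.ofMul (⟨a * b, hab⟩ : B)) = Additive.ofMul (⟨a, ha⟩ : B) + Additive.ofMul (⟨b, hb⟩ : B) := rfl
    rw [e1, map_add, Finsupp.mapDomain_add, Finsupp.add_apply]
  · intro b hb
    refine (Finsupp.mapDomain e (bs.repr (Additive.ofMul (⟨b, hb⟩ : B)))).hasFiniteSupport.subset ?_
    intro n hn
    simpa [hb] using hn
  · intro b hb hb1
    by_contra hcon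
    push Not at hcon
    have h0 : Finsupp.mapDomain e (bs.repr (Additive.ofMul (⟨b, hb⟩ : B))) = Finsupp.mapDomain e 0 := by
      ext n
      have := hcon n
      rw [dif_pos hb] at this
      rw [this, Finsupp.mapDomain_zero]; rfl
    have h1 := Finsupp.mapDomain_injective he h0
    have h3 : (Additive.ofMul (⟨b, hb⟩ : B)) = 0 := by
      have := bs.repr.injective (a₁ := Additive.ofMul (⟨b, hb⟩ : B)) (a₂ := 0)
      exact this (by rw [h1, map_zero])
    apply hb1
    have h4 : (⟨b, hb⟩ : B) = 1 := h3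
    exact congrArg Subtype.val h4

end

section
variable {G : Type u} [Group G] [TopologicalSpace G] [IsTopologicalGroup G]

/-- T4 (basis trick) -/
theorem basis_trick (hG : ¬ Res G) {J : Type*} (B : J → Subgroup G)
    (hBc : ∀ j, (B j : Set G).Countable) (hB2 : ∀ j, ∀ b ∈ B j, b * b = 1)
    (lam : G → J) (Ψ : G → G)
    (h : ∀ U : Set G, IsOpen U → U.Nonempty → ∃ x ∈ U, ∀ N ∈ 𝓝 (1 : G),
      ∃ z ∈ U, ∃ β ∈ B (lam x), β ≠ 1 ∧ β ∈ N ∧ z * β ∈ U ∧ lam z = lam x ∧
        lam (z * β) = lam x ∧ Ψ z = Ψ x * β ∧ Ψ (z * β) = Ψ x * β) : False := by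
  classical
  choose φ hadd hfin hne using fun j => coords (B j) (hBc j) (hB2 j)
  let b : J → G → G := fun j z => (Quotient.out (QuotientGroup.mk (s := B j) z))⁻¹ * z
  have hb : ∀ j z, b j z ∈ B j := by
    intro j z
    exact QuotientGroup.eq.mp (QuotientGroup.out_eq' (QuotientGroup.mk (s := B j) z))
  have hbmul : ∀ j z β, β ∈ B j → b j (z * β) = b j z * β := by
    intro j z β hβ
    have e : (QuotientGroup.mk (s := B j) (z * β)) = QuotientGroup.mk (s := B j) z :=
      QuotientGroup.mk_mul_of_mem z hβ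
    simp only [b, e, mul_assoc]
  let mx : J → G → ℕ := fun j g => sSup {n | φ j n g ≠ 0}
  let c : G → ZMod 2 := fun z => φ (lam z) (mx (lam z) (b (lam z) (Ψ z))) (b (lam z) z)
  obtain ⟨U, hU, hUne, hc⟩ := exists_open_const hG c
  obtain ⟨x, hx, hN⟩ := h U hU hUne
  set j := lam x with hj
  have hf : {n | φ j n (b j (Ψ x)) ≠ 0}.Finite := hfin j _ (hb j _)
  obtain ⟨M, hM⟩ := hf.bddAbove
  have hnear : ∀ᶠ w in 𝓝 (1 : G), ∀ n ∈ Finset.range (M + 1), w ∈ B j → φ j n w = 0 := by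
    rw [Filter.eventually_all_finset]
    intro n _
    exact ker_nhds hG (B j) (φ j n) (hadd j n)
  obtain ⟨z, hz, β, hβB, hβ1, hβN, hzβ, hlz, hlzβ, hΨz, hΨzβ⟩ := hN _ hnear
  obtain ⟨n, hn⟩ := hne j β hβB hβ1
  have hsmall : ∀ n, n ≤ M → φ j n β = 0 := fun n hn => hβN n (by simp; omega) hβB
  have hlarge : ∀ n, M < n → φ j n (b j (Ψ x)) = 0 := by
    intro n hn
    by_contra hne
    exact absurd (hM hne) (by omega)
  set g := b j (Ψ x) * β with hg
  have hφg : ∀ n, φ j n g = φ j n (b j (Ψ x)) + φ j n β := fun n => hadd j n _ (hb j _) _ hβB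
  have hgB : g ∈ B j := (B j).mul_mem (hb j _) hβB
  have hnM : M < n := by
    by_contra hle
    exact hn (hsmall n (by omega))
  have hmem : n ∈ {n | φ j n g ≠ 0} := by
    show φ j n g ≠ 0
    rw [hφg, hlarge n hnM, zero_add]
    exact hn
  have hbdd : BddAbove {n | φ j n g ≠ 0} := (hfin j g hgB).bddAbove
  have hm : mx j g ∈ {n | φ j n g ≠ 0} := Nat.sSup_mem ⟨n, hmem⟩ hbdd
  have hnm : n ≤ mx j g := le_csSup hbdd hmem
  have hφβ : φ j (mx j g) β ≠ 0 := by
    have h1 : φ j (mx j g) g ≠ 0 := hm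
    rw [hφg, hlarge _ (by omega), zero_add] at h1
    exact h1
  have e1 : c z = φ j (mx j g) (b j z) := by
    simp only [c, hlz, hΨz]
    rw [hbmul j _ _ hβB]
  have e2 : c (z * β) = φ j (mx j g) (b j z) + φ j (mx j g) β := by
    simp only [c, hlzβ, hΨzβ]
    rw [hbmul j _ _ hβB, hbmul j _ _ hβB, hadd j _ _ (hb j _) _ hβB]
  have e3 := hc z hz _ hzβ
  rw [e1, e2] at e3
  exact hφβ (by simpa using e3)


end

section
variable {G : Type u} [Group G] [TopologicalSpace G] [IsTopologicalGroup G]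


theorem t5_countable_closure {S : Set G} (hS : S.Countable) :
    ((Subgroup.closure S : Subgroup G) : Set G).Countable := by
  have hS' : (S ∪ S⁻¹).Countable := by
    refine hS.union ?_
    rw [← Set.image_inv_eq_inv]
    exact hS.image _
  have : Countable ↥(S ∪ S⁻¹) := hS'.to_subtype
  refine (countable_range (fun l : List ↥(S ∪ S⁻¹) => (l.map Subtype.val).prod)).mono ?_
  intro x hx
  have hx' : x ∈ Submonoid.closure (S ∪ S⁻¹) := by
    rw [← Subgroup.closure_toSubmonoid]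
    exact hx
  obtain ⟨l, hl, rfl⟩ := Submonoid.exists_list_of_mem_closure hx'
  refine ⟨l.attach.map (fun y => ⟨y.1, hl y.1 y.2⟩), ?_⟩
  simp [List.map_map, Function.comp_def]

/-- near `1`, the elements of rank at most `j` lie in a countable subgroup of exponent 2. -/
theorem t5_bool {J : Type*} [LinearOrder J] {ρ : G → J}
    (hρ : IsRank ρ) (j : J)
    (h2 : ∀ᶠ w in 𝓝 (1 : G), ρ w ≤ j → w * w = 1)
    (hc : ∃ V ∈ 𝓝 (1 : G), {w | w ∈ V ∧ ρ w ≤ j}.Countable) :
    ∃ B : Subgroup G, (B : Set G).Countable ∧ (∀ b ∈ B, b * b = 1) ∧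
      ∀ᶠ w in 𝓝 (1 : G), ρ w ≤ j → w ∈ B := by
  obtain ⟨V, hV, hVc⟩ := hc
  have hW : {w | ρ w ≤ j → w * w = 1} ∩ V ∈ 𝓝 (1 : G) := inter_mem h2 hV
  obtain ⟨V', hV', hVV⟩ := exists_nhds_one_split hW
  have h1V' : (1 : G) ∈ V' := mem_of_mem_nhds hV'
  let S : Set G := {w | w ∈ V' ∧ ρ w ≤ j}
  have hSS : ∀ a ∈ S, ∀ b ∈ S, (a * b) * (a * b) = 1 := by
    intro a ha b hb
    exact (hVV a ha.1 b hb.1).1 (hρ.mul_le' ha.2 hb.2)
  have hS1 : ∀ a ∈ S, a * a = 1 := by
    intro a ha
    have := (hVV a ha.1 1 h1V').1 (by simpa using ha.2)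
    simpa using this
  have hcomm : ∀ a ∈ S, ∀ b ∈ S, a * b = b * a := by
    intro a ha b hb
    have h1 := hSS a ha b hb
    have ha1 := hS1 a ha
    have hb1 := hS1 b hb
    have ha' : a⁻¹ = a := inv_eq_of_mul_eq_one_left ha1
    have hb' : b⁻¹ = b := inv_eq_of_mul_eq_one_left hb1
    calc a * b = (a * b)⁻¹ := (inv_eq_of_mul_eq_one_left h1).symm
      _ = b * a := by rw [mul_inv_rev, ha', hb']
  refine ⟨Subgroup.closure S, t5_countable_closure (hVc.mono ?_), ?_, ?_⟩
  · intro w hw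
    have := (hVV w hw.1 1 h1V').2
    exact ⟨by simpa using this, hw.2⟩
  · intro b hb
    -- everything in the closure commutes with everything
    have hcl : ∀ x ∈ Subgroup.closure S, ∀ y ∈ Subgroup.closure S, x * y = y * x := by
      intro x hx y hy
      exact Subgroup.closure_induction₂ (p := fun x y _ _ => x * y = y * x)
        (fun x y hx hy => hcomm x hx y hy) (by intros; simp) (by intros; simp)
        (by
          intro x y z _ _ _ h1 h2
          show x * y * z = z * (x * y)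
          rw [mul_assoc, h2, ← mul_assoc, h1, mul_assoc])
        (by
          intro y z x _ _ _ h1 h2
          show x * (y * z) = y * z * x
          rw [← mul_assoc, h1, mul_assoc, h2, mul_assoc])
        (by
          intro x y _ _ h
          show x⁻¹ * y = y * x⁻¹
          rw [inv_mul_eq_iff_eq_mul, ← mul_assoc, h, mul_inv_cancel_right])
        (by
          intro x y _ _ h
          show x * y⁻¹ = y⁻¹ * x
          rw [eq_inv_mul_iff_mul_eq, ← mul_assoc, ← h, mul_inv_cancel_right]) hx hy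
    refine Subgroup.closure_induction (p := fun x _ => x * x = 1) ?_ ?_ ?_ ?_ hb
    · intro x hx
      exact hS1 x hx
    · simp
    · intro x y hx hy h1 h2
      have hxy := hcl x hx y hy
      calc x * y * (x * y) = x * (y * x) * y := by group
        _ = x * (x * y) * y := by rw [hxy]
        _ = (x * x) * (y * y) := by group
        _ = 1 := by rw [h1, h2, mul_one]
    · intro x hx h1
      rw [← mul_inv_rev, h1, inv_one]
  · filter_upwards [hV'] with w hw hj
    exact Subgroup.subset_closure ⟨hw, hj⟩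

/-- T5 (induction step) -/
theorem step (hG : ¬ Res G) {J : Type*} [LinearOrder J] [WellFoundedLT J] {ρ : G → J}
    (hρ : IsRank ρ)
    (h2 : ∀ j, ∀ᶠ w in 𝓝 (1 : G), ρ w ≤ j → w * w = 1)
    (hc : ∀ j, ∃ V ∈ 𝓝 (1 : G), {w | w ∈ V ∧ ρ w ≤ j}.Countable)
    (hOC : ∀ j k, ρ k ≤ j → ∀ᶠ w in 𝓝 (1 : G), ρ w ≤ j → w * k = k * w) :
    (∀ k : G, ∀ᶠ w in 𝓝 (1 : G), w * k = k * w) ∧ ∀ᶠ w in 𝓝 (1 : G), w * w = 1 := by
  choose B hBc hB2 hBn using fun j => t5_bool hρ j (h2 j) (hc j)
  have hcont : ∀ {f : G → G} {a : G}, Continuous f → f 1 = a → ∀ {p : G → Prop},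
      (∀ᶠ z in 𝓝 a, p z) → ∀ᶠ w in 𝓝 (1 : G), p (f w) := by
    intro f a hf hfa p hp
    have : Tendsto f (𝓝 1) (𝓝 a) := by
      rw [← hfa]; exact hf.continuousAt
    exact this.eventually hp
  have hOCall : ∀ k : G, ∀ᶠ w in 𝓝 (1 : G), w * k = k * w := by
    intro k
    by_contra hk
    let Ψ : G → G := fun z => z⁻¹ * k * z
    -- local bounds
    have hP : ∀ x, ∃ j, ∀ᶠ z in 𝓝 x, ρ (Ψ z) ≤ j := by
      intro x
      let y := x⁻¹ * k * x
      obtain ⟨j, hj⟩ := cap hG hρ (MulAut.conj y) (by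
          show Continuous fun z => y * z * y⁻¹
          fun_prop) (ρ y) (by
          intro j hj z
          rw [MulAut.conj_apply]
          constructor
          · intro hz
            exact hρ.mul_lt (hρ.mul_lt hj hz) (by rw [hρ.inv_eq]; exact hj)
          · intro hz
            have h1 : z = y⁻¹ * (y * z * y⁻¹) * y := by group
            rw [h1]
            exact hρ.mul_lt (hρ.mul_lt (by rw [hρ.inv_eq]; exact hj) hz) hj)
      refine ⟨max j (ρ y), ?_⟩
      -- z = x * w, w = x⁻¹ * z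
      have h1 : ∀ᶠ w in 𝓝 (1 : G), ρ (Ψ (x * w)) ≤ max j (ρ y) := by
        have h2 := hcont (f := fun w : G => w⁻¹) (a := 1) continuous_inv inv_one hj
        filter_upwards [h2] with w hw
        rw [MulAut.conj_apply, inv_inv] at hw
        have h3 : Ψ (x * w) = (y * w⁻¹ * y⁻¹ * w)⁻¹ * y := by
          simp only [Ψ, y]; group
        rw [h3]
        exact hρ.mul_le' (by rw [hρ.inv_eq]; exact le_max_of_le_left hw) (le_max_right _ _)
      have h2 : Tendsto (fun z => x⁻¹ * z) (𝓝 x) (𝓝 1) := by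
        have : Continuous fun z : G => x⁻¹ * z := by fun_prop
        have h3 := this.tendsto x
        simpa using h3
      filter_upwards [h2.eventually h1] with z hz
      simpa using hz
    let wfJ : WellFounded ((· < ·) : J → J → Prop) := wellFounded_lt
    let lam : G → J := fun x => wfJ.min {j | ∀ᶠ z in 𝓝 x, ρ (Ψ z) ≤ j} (hP x)
    have hlam : ∀ x, ∀ᶠ z in 𝓝 x, ρ (Ψ z) ≤ lam x := fun x => wfJ.min_mem _ (hP x)
    have hlam_le : ∀ x j, (∀ᶠ z in 𝓝 x, ρ (Ψ z) ≤ j) → lam x ≤ j := by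
      intro x j hj
      exact wfJ.min_le hj
    have husc : ∀ x, ∀ᶠ z in 𝓝 x, lam z ≤ lam x := by
      intro x
      filter_upwards [(hlam x).eventually_nhds] with z hz
      exact hlam_le z _ hz
    refine basis_trick hG B hBc hB2 lam Ψ ?_
    intro U hU hUne
    obtain ⟨x, hxU, hxmin⟩ : ∃ x ∈ U, ∀ z ∈ U, lam x ≤ lam z := by
      have hne : (lam '' U).Nonempty := hUne.image _
      obtain ⟨x, hx, hx'⟩ := wfJ.min_mem (lam '' U) hne
      refine ⟨x, hx, fun z hz => ?_⟩
      rw [hx']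
      exact wfJ.min_le (mem_image_of_mem _ hz)
    refine ⟨x, hxU, ?_⟩
    intro N hN
    let y := Ψ x
    have hy : ρ y ≤ lam x := (hlam x).self_of_nhds
    -- elements near one not commuting with y
    have hy' : ∃ᶠ w in 𝓝 (1 : G), w * y ≠ y * w := by
      intro hcon
      apply hk
      have h3 := hcont (f := fun w : G => x⁻¹ * w * x) (a := 1) (by fun_prop) (by simp) hcon
      filter_upwards [h3] with w hw
      simp only [not_not, ne_eq] at hw
      have h4 : x⁻¹ * w * x * y = x⁻¹ * (w * k) * x := by simp only [y, Ψ]; group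
      have h5 : y * (x⁻¹ * w * x) = x⁻¹ * (k * w) * x := by simp only [y, Ψ]; group
      rw [h4, h5] at hw
      exact mul_left_cancel (mul_right_cancel hw)
    have e1 : ∀ᶠ w in 𝓝 (1 : G), x * w ∈ U :=
      hcont (f := fun w : G => x * w) (a := x) (by fun_prop) (by simp) (hU.mem_nhds hxU)
    have e2 : ∀ᶠ w in 𝓝 (1 : G), x * y⁻¹ * w * y ∈ U :=
      hcont (f := fun w : G => x * y⁻¹ * w * y) (a := x) (by fun_prop) (by simp)
        (hU.mem_nhds hxU)
    have e3 : ∀ᶠ w in 𝓝 (1 : G), lam (x * w) ≤ lam x :=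
      hcont (f := fun w : G => x * w) (a := x) (by fun_prop) (by simp) (husc x)
    have e4 : ∀ᶠ w in 𝓝 (1 : G), lam (x * y⁻¹ * w * y) ≤ lam x :=
      hcont (f := fun w : G => x * y⁻¹ * w * y) (a := x) (by fun_prop) (by simp) (husc x)
    have e5 : ∀ᶠ w in 𝓝 (1 : G), ρ (Ψ (x * w)) ≤ lam x :=
      hcont (f := fun w : G => x * w) (a := x) (by fun_prop) (by simp) (hlam x)
    have e6 : ∀ᶠ w in 𝓝 (1 : G), w⁻¹ * y⁻¹ * w * y ∈ N ∧
        (ρ (w⁻¹ * y⁻¹ * w * y) ≤ lam x → w⁻¹ * y⁻¹ * w * y ∈ B (lam x)) ∧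
        (ρ (w⁻¹ * y⁻¹ * w * y) ≤ lam x →
          (w⁻¹ * y⁻¹ * w * y) * y = y * (w⁻¹ * y⁻¹ * w * y)) := by
      refine hcont (f := fun w : G => w⁻¹ * y⁻¹ * w * y) (a := 1) (by fun_prop) (by simp)
        (p := fun β => β ∈ N ∧ (ρ β ≤ lam x → β ∈ B (lam x)) ∧ (ρ β ≤ lam x → β * y = y * β)) ?_
      filter_upwards [hN, hBn (lam x), hOC (lam x) y hy] with β h1 h2 h3
      exact ⟨h1, h2, h3⟩
    obtain ⟨w, hwne, hw1, hw2, hw3, hw4, hw5, hw6⟩ :=
      (hy'.and_eventually (e1.and (e2.and (e3.and (e4.and (e5.and e6)))))).exists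
    set β := w⁻¹ * y⁻¹ * w * y with hβ
    have hΨxw : Ψ (x * w) = w⁻¹ * y * w := by simp only [y, Ψ]; group
    have hρβ : ρ β ≤ lam x := by
      have h3 : β = (w⁻¹ * y * w)⁻¹ * y := by rw [hβ]; group
      rw [h3]
      refine hρ.mul_le' ?_ hy
      rw [hρ.inv_eq, ← hΨxw]
      exact hw5
    have hβB := hw6.2.1 hρβ
    have hβy := hw6.2.2 hρβ
    have hβ2 := hB2 _ β hβB
    have hβinv : β⁻¹ = β := inv_eq_of_mul_eq_one_left hβ2
    have hzβ : x * w * β = x * y⁻¹ * w * y := by rw [hβ]; group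
    have hΨz : Ψ (x * w) = y * β := by
      rw [hΨxw, ← hβinv, hβ]; group
    refine ⟨x * w, hw1, β, hβB, ?_, hw6.1, ?_, ?_, ?_, hΨz, ?_⟩
    · intro h1
      apply hwne
      have h3 : y * w * β = w * y := by rw [hβ]; group
      rw [h1, mul_one] at h3
      exact h3.symm
    · rw [hzβ]; exact hw2
    · exact le_antisymm hw3 (hxmin _ hw1)
    · rw [hzβ]
      exact le_antisymm hw4 (hxmin _ hw2)
    · have h3 : Ψ (x * w * β) = β⁻¹ * Ψ (x * w) * β := by simp only [Ψ]; group
      rw [h3, hΨz, hβinv]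
      calc β * (y * β) * β = β * y * (β * β) := by group
        _ = y * β := by rw [hβ2, mul_one, hβy]
  refine ⟨hOCall, ?_⟩
  by_contra hI
  have hI' : ∃ᶠ w in 𝓝 (1 : G), w * w ≠ 1 := by
    simpa [Filter.not_eventually] using hI
  obtain ⟨j, hj⟩ := inv_bdd hG hρ hOCall
  refine basis_trick hG B hBc hB2 (fun _ => j) (fun z => z * z) ?_
  intro U hU ⟨x, hxU⟩
  refine ⟨x, hxU, ?_⟩
  intro N hN
  have e1 : ∀ᶠ w in 𝓝 (1 : G), x * w ∈ U :=
    hcont (f := fun w : G => x * w) (a := x) (by fun_prop) (by simp) (hU.mem_nhds hxU)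
  have e2 : ∀ᶠ w in 𝓝 (1 : G), x * w * (w * w) ∈ U :=
    hcont (f := fun w : G => x * w * (w * w)) (a := x) (by fun_prop) (by simp)
      (hU.mem_nhds hxU)
  have e3 : ∀ᶠ w in 𝓝 (1 : G), w * w ∈ N ∧ (ρ (w * w) ≤ j → w * w ∈ B j) := by
    refine hcont (f := fun w : G => w * w) (a := 1) (by fun_prop) (by simp)
      (p := fun β => β ∈ N ∧ (ρ β ≤ j → β ∈ B j)) ?_
    filter_upwards [hN, hBn j] with β h1 h2
    exact ⟨h1, h2⟩
  obtain ⟨w, hwne, hw1, hw2, hw3, hw4, hw5⟩ :=
    (hI'.and_eventually (e1.and (e2.and (e3.and (hj.and (hOCall x)))))).exists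
  have hβB := hw3.2 hw4
  have hβ2 := hB2 _ _ hβB
  refine ⟨x * w, hw1, w * w, hβB, hwne, hw3.1, hw2, rfl, rfl, ?_, ?_⟩
  · show x * w * (x * w) = x * x * (w * w)
    calc x * w * (x * w) = x * (w * x) * w := by group
      _ = x * (x * w) * w := by rw [hw5]
      _ = x * x * (w * w) := by group
  · show x * w * (w * w) * (x * w * (w * w)) = x * x * (w * w)
    have hwx : Commute w x := hw5
    have h3 : Commute (w * w * w) x := (hwx.mul_left hwx).mul_left hwx
    calc x * w * (w * w) * (x * w * (w * w))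
        = x * (w * w * w * x) * (w * w * w) := by group
      _ = x * (x * (w * w * w)) * (w * w * w) := by rw [h3.eq]
      _ = x * x * (w * w * (w * w)) * (w * w) := by group
      _ = x * x * (w * w) := by rw [hβ2, mul_one]

end

end Pool.Agent.Irr008583
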