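import Pool.Agent.Lib.MP_008583_gt.Irr0

open Topology Filter Set

universe u

namespace Pool.Agent.Irr008583

section
variable {I : Type*} [DecidableEq I]

/-- finite form of the Delta system lemma for infinite families of `m`-sets -/
theorem t6_delta : ∀ (m : ℕ) (F : Set (Finset I)), F.Infinite → (∀ S ∈ F, S.card = m) →
    ∀ (T : Finset I) (N : ℕ), ∃ R : Finset I, ∃ l : List (Finset I), l.length = N ∧
      l.Pairwise (fun A B => Disjoint (A \ R) (B \ R)) ∧
      ∀ S ∈ l, S ∈ F ∧ R ⊆ S ∧ Disjoint (S \ R) T ∧ (S \ R).Nonempty := by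
  intro m
  induction m with
  | zero =>
    intro F hF hc
    exfalso
    apply hF
    apply (Set.finite_singleton (∅ : Finset I)).subset
    intro S hS
    exact Finset.card_eq_zero.1 (hc S hS)
  | succ m ih =>
    intro F hF hc T N
    by_cases h : ∃ a, {S ∈ F | a ∈ S}.Infinite
    · obtain ⟨a, ha⟩ := h
      have hinj : Set.InjOn (fun S : Finset I => S.erase a) {S ∈ F | a ∈ S} := by
        intro S hS S' hS' e
        have e' : S.erase a = S'.erase a := e
        rw [← Finset.insert_erase hS.2, ← Finset.insert_erase hS'.2, e']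
      obtain ⟨R, l, hl, hp, hm⟩ := ih ((fun S : Finset I => S.erase a) '' {S ∈ F | a ∈ S})
        (ha.image hinj) (by
          rintro _ ⟨S, hS, rfl⟩
          rw [Finset.card_erase_of_mem hS.2, hc S hS.1]
          rfl) T N
      have hm' : ∀ S ∈ l, a ∉ S ∧ insert a S ∈ F := by
        intro S hS
        obtain ⟨S', hS', e⟩ := (hm S hS).1
        have e' : S'.erase a = S := e
        refine ⟨?_, ?_⟩
        · rw [← e']; exact Finset.notMem_erase a S'
        · rw [← e', Finset.insert_erase hS'.2]; exact hS'.1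
      have hd : ∀ S ∈ l, insert a S \ insert a R = S \ R := by
        intro S hS
        ext x
        simp only [Finset.mem_sdiff, Finset.mem_insert, not_or]
        constructor
        · rintro ⟨h1 | h1, h2, h3⟩
          · exact absurd h1 h2
          · exact ⟨h1, h3⟩
        · rintro ⟨h1, h2⟩
          refine ⟨Or.inr h1, ?_, h2⟩
          rintro rfl
          exact (hm' S hS).1 h1
      refine ⟨insert a R, l.map (insert a), by simpa using hl, ?_, ?_⟩
      · rw [List.pairwise_map]
        refine hp.imp_of_mem ?_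
        intro A B hA hB hAB
        rw [hd A hA, hd B hB]
        exact hAB
      · intro S hS
        obtain ⟨S', hS', rfl⟩ := List.mem_map.1 hS
        rw [hd S' hS']
        exact ⟨(hm' S' hS').2, Finset.insert_subset_insert a (hm S' hS').2.1, (hm S' hS').2.2⟩
    · push Not at h
      refine ⟨∅, ?_⟩
      induction N with
      | zero => exact ⟨[], rfl, List.Pairwise.nil, by simp⟩
      | succ N ihN =>
        obtain ⟨l, hl, hp, hm⟩ := ihN
        have hfin : {S ∈ F | ¬ Disjoint S (T ∪ l.toFinset.biUnion id)}.Finite := by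
          apply ((T ∪ l.toFinset.biUnion id).finite_toSet.biUnion
            (t := fun a => {S ∈ F | a ∈ S}) (fun a _ => h a)).subset
          rintro S ⟨hS, hS'⟩
          rw [Finset.not_disjoint_iff] at hS'
          obtain ⟨a, ha, ha'⟩ := hS'
          simp only [Set.mem_iUnion]
          exact ⟨a, Finset.mem_coe.2 ha', hS, ha⟩
        obtain ⟨S, hS, hS'⟩ := (hF.sdiff hfin).nonempty
        have hdis : Disjoint S (T ∪ l.toFinset.biUnion id) := by
          by_contra hcon
          exact hS' ⟨hS, hcon⟩
        rw [Finset.disjoint_union_right] at hdis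
        refine ⟨S :: l, by simp [hl], List.pairwise_cons.2 ⟨?_, hp⟩, ?_⟩
        · intro A hA
          simp only [Finset.sdiff_empty]
          have := hdis.2
          rw [Finset.disjoint_biUnion_right] at this
          exact this A (List.mem_toFinset.2 hA)
        · intro A hA
          rcases List.mem_cons.1 hA with rfl | hA
          · refine ⟨hS, Finset.empty_subset _, ?_, ?_⟩
            · simpa using hdis.1
            · rw [Finset.sdiff_empty, ← Finset.card_pos, hc _ hS]
              omega
          · exact hm A hA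

/-- the arithmetic of the colouring -/
theorem t6_log (s n : ℕ) (hn : 1 ≤ n) (b : Bool) :
    ∃ t ≤ 8 * (s + 1), decide (Nat.log 2 (s + t * n) % 2 = 0) = b := by
  have hM : (max s n) ≠ 0 := by
    have := le_max_right s n
    omega
  set L := Nat.log 2 (max s n) with hL
  have h1 : 2 ^ L ≤ max s n := Nat.pow_log_le_self 2 hM
  have h2 : max s n < 2 ^ (L + 1) := Nat.lt_pow_succ_log_self (by norm_num) _
  have hs := le_max_left s n
  have hn' := le_max_right s n
  have hms : max s n ≤ s + n := max_le (by omega) (by omega)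
  have gen : ∀ e : ℕ, e = L + 1 ∨ e = L + 2 → ∃ t ≤ 8 * (s + 1), Nat.log 2 (s + t * n) = e := by
    intro e he
    have hpe : 2 ^ (L + 1) ≤ 2 ^ e := Nat.pow_le_pow_right (by norm_num) (by omega)
    have hpe2 : 2 ^ e ≤ 4 * max s n := by
      have : 2 ^ e ≤ 2 ^ (L + 2) := Nat.pow_le_pow_right (by norm_num) (by omega)
      have h3 : 2 ^ (L + 2) = 4 * 2 ^ L := by ring
      omega
    refine ⟨(2 ^ e - s + n - 1) / n, ?_, ?_⟩
    · rw [Nat.div_le_iff_le_mul_add_pred (by omega)]
      have : 2 ^ e - s + n - 1 ≤ 4 * (s + n) + n := by omega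
      have h4 : 4 * (s + n) + n ≤ n * (8 * (s + 1)) := by nlinarith
      omega
    · rw [Nat.log_eq_iff (Or.inr ⟨by norm_num, by
        have : 0 < (2 ^ e - s + n - 1) / n := Nat.div_pos (by omega) (by omega)
        have : 0 < (2 ^ e - s + n - 1) / n * n := Nat.mul_pos this (by omega)
        omega⟩)]
      have h5 : n * ((2 ^ e - s + n - 1) / n) + (2 ^ e - s + n - 1) % n = 2 ^ e - s + n - 1 :=
        Nat.div_add_mod _ _
      have h6 : (2 ^ e - s + n - 1) % n < n := Nat.mod_lt _ (by omega)
      have h7 : n * ((2 ^ e - s + n - 1) / n) = (2 ^ e - s + n - 1) / n * n := mul_comm _ _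
      have h8 : 2 ^ (e + 1) = 2 * 2 ^ e := by ring
      constructor
      · omega
      · omega
  rcases gen (L + 1) (Or.inl rfl) with ⟨t, ht, e⟩
  rcases gen (L + 2) (Or.inr rfl) with ⟨t', ht', e'⟩
  cases b with
  | false =>
    rcases Nat.mod_two_eq_zero_or_one L with h | h
    · exact ⟨t, ht, by rw [e]; simp; omega⟩
    · exact ⟨t', ht', by rw [e']; simp; omega⟩
  | true =>
    rcases Nat.mod_two_eq_zero_or_one L with h | h
    · exact ⟨t', ht', by rw [e']; simp; omega⟩
    · exact ⟨t, ht, by rw [e]; simp; omega⟩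

end

section
variable {G : Type u} [Group G]

/-- coordinates: a Boolean group embeds in the finite subsets of a set -/
theorem t6_supp (h2 : ∀ g : G, g * g = 1) : ∃ (I : Type u) (supp : G → Finset I),
    Function.Injective supp ∧ ∀ g h i, i ∈ supp (g * h) ↔
      ((i ∈ supp g ∧ i ∉ supp h) ∨ (i ∈ supp h ∧ i ∉ supp g)) := by
  have hinv : ∀ g : G, g⁻¹ = g := fun g => inv_eq_of_mul_eq_one_left (h2 g)
  have hcomm : ∀ a b : G, a * b = b * a := by
    intro a b
    rw [← hinv (a * b), mul_inv_rev, hinv, hinv]
  let cg : CommGroup G := { (inferInstance : Group G) with mul_comm := hcomm }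
  let _ : Module (ZMod 2) (Additive G) := AddCommGroup.zmodModule (n := 2) (by
    intro x
    rw [two_nsmul]
    exact h2 (Additive.toMul x))
  let b := Module.Basis.ofVectorSpace (ZMod 2) (Additive G)
  refine ⟨_, fun g => (b.repr (Additive.ofMul g)).support, ?_, ?_⟩
  · intro g h e
    have e' : (b.repr (Additive.ofMul g)).support = (b.repr (Additive.ofMul h)).support := e
    have : b.repr (Additive.ofMul g) = b.repr (Additive.ofMul h) := by
      ext i
      have hi : (b.repr (Additive.ofMul g)) i ≠ 0 ↔ (b.repr (Additive.ofMul h)) i ≠ 0 := by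
        rw [← Finsupp.mem_support_iff, ← Finsupp.mem_support_iff, e']
      have aux : ∀ x y : ZMod 2, (x ≠ 0 ↔ y ≠ 0) → x = y := by decide
      rw [aux _ _ hi]
    exact Additive.ofMul.injective (b.repr.injective this)
  · intro g h i
    have e1 : b.repr (Additive.ofMul (g * h)) = b.repr (Additive.ofMul g) +
        b.repr (Additive.ofMul h) := by
      rw [← map_add]
      rfl
    rw [Finsupp.mem_support_iff, Finsupp.mem_support_iff,
      Finsupp.mem_support_iff, e1, Finsupp.add_apply]
    have aux : ∀ x y : ZMod 2, x + y ≠ 0 ↔ ((x ≠ 0 ∧ ¬ y ≠ 0) ∨ (y ≠ 0 ∧ ¬ x ≠ 0)) := by decide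
    exact aux _ _

end

section
variable {G : Type u} [Group G] [TopologicalSpace G] [IsTopologicalGroup G]

theorem t6_split (K : ℕ) : ∀ V ∈ 𝓝 (1 : G), ∃ V' ∈ 𝓝 (1 : G), ∀ l : List G, l.length ≤ K →
    (∀ u ∈ l, u ∈ V') → l.prod ∈ V := by
  induction K with
  | zero =>
    intro V hV
    refine ⟨univ, univ_mem, ?_⟩
    intro l hl _
    have : l = [] := List.eq_nil_of_length_eq_zero (by omega)
    rw [this, List.prod_nil]
    exact mem_of_mem_nhds hV
  | succ K ih =>
    intro V hV
    obtain ⟨V1, hV1, hV1m⟩ := exists_nhds_one_split hV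
    obtain ⟨V2, hV2, hV2m⟩ := ih V1 hV1
    refine ⟨V1 ∩ V2, Filter.inter_mem hV1 hV2, ?_⟩
    intro l hl hm
    cases l with
    | nil => rw [List.prod_nil]; exact mem_of_mem_nhds hV
    | cons a l =>
      rw [List.prod_cons]
      apply hV1m
      · exact (hm a List.mem_cons_self).1
      · apply hV2m l
        · simp only [List.length_cons] at hl; omega
        · intro u hu
          exact (hm u (List.mem_cons_of_mem _ hu)).2

omit [TopologicalSpace G] [IsTopologicalGroup G] in
open scoped Classical in
/-- pairing up the members of a Delta system -/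
theorem t6_pair {I : Type*} (supp : G → Finset I)
    (hadd : ∀ g h, supp (g * h) = symmDiff (supp g) (supp h)) (V V' : Set G)
    (hV : ∀ v ∈ V', ∀ w ∈ V', v * w ∈ V) (R T : Finset I) (n : ℕ) :
    ∀ (K : ℕ) (l : List (Finset I)), l.length = 2 * K →
      l.Pairwise (fun A B => Disjoint (A \ R) (B \ R)) →
      (∀ S ∈ l, (∃ w ∈ V', supp w = S) ∧ R ⊆ S ∧ Disjoint (S \ R) T ∧ (S \ R).card = n) →
      ∃ l2 : List G, l2.length = K ∧ l2.Pairwise (fun u v => Disjoint (supp u) (supp v)) ∧
        ∀ u ∈ l2, u ∈ V ∧ (supp u).card = 2 * n ∧ Disjoint (supp u) T ∧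
          ∀ i ∈ supp u, ∃ S ∈ l, i ∈ S \ R := by
  intro K
  induction K with
  | zero =>
    intro l _ _ _
    exact ⟨[], rfl, List.Pairwise.nil, by simp⟩
  | succ K ih =>
    intro l hl hp hm
    match l, hl, hp, hm with
    | A :: B :: l, hl, hp, hm =>
      rw [List.pairwise_cons, List.pairwise_cons] at hp
      obtain ⟨hA, hB, hp⟩ := hp
      obtain ⟨l2, hl2, hp2, hm2⟩ := ih l (by simp at hl; omega) hp
        (fun S hS => hm S (List.mem_cons_of_mem _ (List.mem_cons_of_mem _ hS)))
      obtain ⟨⟨a, ha, haA⟩, hRA, hTA, hcA⟩ := hm A List.mem_cons_self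
      obtain ⟨⟨b, hb, hbB⟩, hRB, hTB, hcB⟩ := hm B (List.mem_cons_of_mem _ List.mem_cons_self)
      have hAB : Disjoint (A \ R) (B \ R) := hA B List.mem_cons_self
      have hab : supp (a * b) = (A \ R) ∪ (B \ R) := by
        rw [hadd, haA, hbB]
        ext i
        rw [Finset.mem_symmDiff, Finset.mem_union, Finset.mem_sdiff, Finset.mem_sdiff]
        have h1 := @hRA i
        have h2 := @hRB i
        have h3 : i ∈ A \ R → i ∉ B \ R := fun h => Finset.disjoint_left.1 hAB h
        rw [Finset.mem_sdiff, Finset.mem_sdiff] at h3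
        tauto
      refine ⟨(a * b) :: l2, by simp [hl2], ?_, ?_⟩
      · rw [List.pairwise_cons]
        refine ⟨?_, hp2⟩
        intro u hu
        rw [hab, Finset.disjoint_left]
        intro i hi hiu
        obtain ⟨S, hS, hiS⟩ := (hm2 u hu).2.2.2 i hiu
        rcases Finset.mem_union.1 hi with hi | hi
        · exact Finset.disjoint_left.1 (hA S (List.mem_cons_of_mem _ hS)) hi hiS
        · exact Finset.disjoint_left.1 (hB S hS) hi hiS
      · intro u hu
        rcases List.mem_cons.1 hu with rfl | hu
        · refine ⟨hV a ha b hb, ?_, ?_, ?_⟩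
          · rw [hab, Finset.card_union_of_disjoint hAB, hcA, hcB]; ring
          · rw [hab, Finset.disjoint_union_left]; exact ⟨hTA, hTB⟩
          · intro i hi
            rw [hab] at hi
            rcases Finset.mem_union.1 hi with hi | hi
            · exact ⟨A, List.mem_cons_self, hi⟩
            · exact ⟨B, List.mem_cons_of_mem _ List.mem_cons_self, hi⟩
        · obtain ⟨h1, h2, h3, h4⟩ := hm2 u hu
          refine ⟨h1, h2, h3, fun i hi => ?_⟩
          obtain ⟨S, hS, hiS⟩ := h4 i hi
          exact ⟨S, List.mem_cons_of_mem _ (List.mem_cons_of_mem _ hS), hiS⟩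

omit [TopologicalSpace G] [IsTopologicalGroup G] in
open scoped Classical in
theorem t6_card_prod {I : Type*} (supp : G → Finset I)
    (hadd : ∀ g h, supp (g * h) = symmDiff (supp g) (supp h)) (n : ℕ) :
    ∀ (l : List G) (x : G), l.Pairwise (fun u v => Disjoint (supp u) (supp v)) →
      (∀ u ∈ l, (supp u).card = n ∧ Disjoint (supp x) (supp u)) →
      (supp (x * l.prod)).card = (supp x).card + l.length * n := by
  intro l
  induction l with
  | nil => intro x _ _; simp
  | cons a l ih =>
    intro x hp hm
    rw [List.pairwise_cons] at hp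
    obtain ⟨ha, hxa⟩ := hm a List.mem_cons_self
    have hxa' : supp (x * a) = supp x ∪ supp a := by
      rw [hadd, symmDiff_eq_sup_sdiff_inf]
      rw [show supp x ⊓ supp a = (∅ : Finset I) from Finset.disjoint_iff_inter_eq_empty.1 hxa]
      simp
    rw [List.prod_cons, ← mul_assoc, ih (x * a) hp.2]
    · rw [hxa', Finset.card_union_of_disjoint hxa, ha, List.length_cons]
      ring
    · intro u hu
      refine ⟨(hm u (List.mem_cons_of_mem _ hu)).1, ?_⟩
      rw [hxa', Finset.disjoint_union_left]
      exact ⟨(hm u (List.mem_cons_of_mem _ hu)).2, hp.1 u hu⟩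

/-- T6 (uncountable Boolean groups) -/
theorem boolean_countable (hG : ¬ Res G) (h2 : ∀ g : G, g * g = 1) :
    ∃ V ∈ 𝓝 (1 : G), V.Countable := by
  classical
  by_contra hcon
  push Not at hcon
  apply hG
  obtain ⟨I, supp, hinj, hadd'⟩ := t6_supp h2
  have hadd : ∀ g h, supp (g * h) = symmDiff (supp g) (supp h) := by
    intro g h
    ext i
    rw [Finset.mem_symmDiff]
    exact hadd' g h i
  have key : ∀ (b : Bool) (U : Set G), IsOpen U → U.Nonempty →
      ∃ y ∈ U, decide (Nat.log 2 (supp y).card % 2 = 0) = b := by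
    intro b U hU ⟨x, hx⟩
    set s := (supp x).card with hs
    have hV : {w : G | x * w ∈ U} ∈ 𝓝 (1 : G) := by
      have hcont : Continuous (fun w : G => x * w) := by fun_prop
      apply hcont.continuousAt.preimage_mem_nhds
      rw [mul_one]
      exact hU.mem_nhds hx
    obtain ⟨V', hV', hV'm⟩ := t6_split (8 * (s + 1)) _ hV
    obtain ⟨V'', hV'', hV''m⟩ := exists_nhds_one_split hV'
    have hunc := hcon V'' hV''
    -- infinitely many elements with the same size of support
    obtain ⟨m, hm⟩ : ∃ m : ℕ, {w ∈ V'' | (supp w).card = m}.Infinite := by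
      by_contra hfin
      push Not at hfin
      apply hunc
      have : V'' = ⋃ m : ℕ, {w ∈ V'' | (supp w).card = m} := by
        ext w
        simp
      rw [this]
      exact Set.countable_iUnion fun m => (hfin m).countable
    obtain ⟨R, l, hl, hp, hml⟩ := t6_delta m (supp '' {w ∈ V'' | (supp w).card = m})
      (hm.image hinj.injOn) (by rintro _ ⟨w, hw, rfl⟩; exact hw.2) (supp x)
      (2 * (8 * (s + 1)))
    have hlpos : 0 < l.length := by omega
    obtain ⟨S0, hS0⟩ := List.exists_mem_of_length_pos hlpos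
    have hcard : ∀ S ∈ l, (S \ R).card = m - R.card := by
      intro S hS
      obtain ⟨⟨w, hw, e⟩, hRS, _, _⟩ := hml S hS
      rw [Finset.card_sdiff_of_subset hRS, ← e, hw.2]
    have hn : 1 ≤ m - R.card := by
      rw [← hcard S0 hS0, Nat.one_le_iff_ne_zero, Finset.card_ne_zero]
      exact (hml S0 hS0).2.2.2
    obtain ⟨l2, hl2, hp2, hm2⟩ := t6_pair supp hadd V' V'' hV''m R (supp x) (m - R.card)
      (8 * (s + 1)) l hl hp (by
        intro S hS
        obtain ⟨⟨w, hw, e⟩, h1, h2, h3⟩ := hml S hS
        exact ⟨⟨w, hw.1, e⟩, h1, h2, hcard S hS⟩)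
    obtain ⟨t, ht, htb⟩ := t6_log s (2 * (m - R.card)) (by omega) b
    refine ⟨x * (l2.take t).prod, ?_, ?_⟩
    · apply hV'm
      · rw [List.length_take]; omega
      · intro u hu
        exact (hm2 u (List.mem_of_mem_take hu)).1
    · rw [t6_card_prod supp hadd (2 * (m - R.card)) (l2.take t) x
        (hp2.sublist (List.take_sublist t l2))]
      · rw [List.length_take, hl2, min_eq_left ht]
        exact htb
      · intro u hu
        have := hm2 u (List.mem_of_mem_take hu)
        exact ⟨this.2.1, this.2.2.1.symm⟩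
  refine ⟨{y | decide (Nat.log 2 (supp y).card % 2 = 0) = true}, ?_, ?_⟩
  · rw [dense_iff_inter_open]
    intro U hU hne
    obtain ⟨y, hy, e⟩ := key true U hU hne
    exact ⟨y, hy, e⟩
  · rw [dense_iff_inter_open]
    intro U hU hne
    obtain ⟨y, hy, e⟩ := key false U hU hne
    refine ⟨y, hy, ?_⟩
    intro h
    have h' : decide (Nat.log 2 (supp y).card % 2 = 0) = true := h
    rw [e] at h'
    exact Bool.noConfusion h'

end

end Pool.Agent.Irr008583
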