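import Pool.Agent.Lib.MP_008583_gt.Irr0

open Topology Filter Set

universe u

namespace Pool.Agent.Irr008583

section
variable {G : Type u} [Group G]

open scoped Pointwise Classical in
/-- the conjugates of `w` by elements of `S ^ r` -/
noncomputable def t8_ball (S : Finset G) (w : G) (r : ℕ) : Finset G :=
  (S ^ r).image (fun g => g * w * g⁻¹)

open scoped Pointwise Classical in
theorem t8_mem {S : Finset G} {w z : G} {r : ℕ} :
    z ∈ t8_ball S w r ↔ ∃ g ∈ S ^ r, g * w * g⁻¹ = z := by
  simp [t8_ball]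

open scoped Pointwise Classical in
theorem t8_pow_inv {S : Finset G} (hS : ∀ s ∈ S, s⁻¹ ∈ S) (n : ℕ) (g : G) (hg : g ∈ S ^ n) :
    g⁻¹ ∈ S ^ n := by
  have h1 : S⁻¹ = S := by
    ext x
    rw [Finset.mem_inv']
    constructor
    · intro h; simpa using hS _ h
    · intro h; exact hS _ h
  have h2 : (S ^ n)⁻¹ = S ^ n := by rw [← inv_pow, h1]
  rw [← h2, Finset.mem_inv', inv_inv]
  exact hg

open scoped Pointwise Classical in
theorem t8_pow_mono {S : Finset G} (h1 : (1 : G) ∈ S) {m n : ℕ} (hmn : m ≤ n) :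
    S ^ m ⊆ S ^ n := Finset.pow_subset_pow_right h1 hmn

open scoped Pointwise Classical in
theorem t8_pow_one {S : Finset G} {s : G} (hs : s ∈ S) : s ∈ S ^ 1 := by
  rw [pow_one]; exact hs

theorem t8_self {S : Finset G} (h1 : (1 : G) ∈ S) (w : G) (r : ℕ) : w ∈ t8_ball S w r := by
  classical
  rw [t8_mem]
  refine ⟨1, ?_, by simp⟩
  open scoped Pointwise in
  have := t8_pow_mono h1 (Nat.zero_le r)
  exact this (by simp)

theorem t8_mono {S : Finset G} (h1 : (1 : G) ∈ S) (w : G) {m n : ℕ} (hmn : m ≤ n) :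
    t8_ball S w m ⊆ t8_ball S w n := by
  intro z hz
  rw [t8_mem] at hz ⊢
  obtain ⟨g, hg, e⟩ := hz
  exact ⟨g, t8_pow_mono h1 hmn hg, e⟩

theorem t8_symm {S : Finset G} (hS : ∀ s ∈ S, s⁻¹ ∈ S) {w z : G} {r : ℕ}
    (h : z ∈ t8_ball S w r) : w ∈ t8_ball S z r := by
  rw [t8_mem] at h ⊢
  obtain ⟨g, hg, e⟩ := h
  refine ⟨g⁻¹, t8_pow_inv hS _ _ hg, ?_⟩
  rw [← e]; group

open scoped Pointwise Classical in
theorem t8_trans {S : Finset G} {w z y : G} {m n : ℕ}
    (h : z ∈ t8_ball S w m) (h' : y ∈ t8_ball S z n) : y ∈ t8_ball S w (n + m) := by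
  rw [t8_mem] at h h' ⊢
  obtain ⟨g, hg, e⟩ := h
  obtain ⟨g', hg', e'⟩ := h'
  refine ⟨g' * g, ?_, ?_⟩
  · rw [pow_add]; exact Finset.mul_mem_mul hg' hg
  · rw [← e', ← e]; group

theorem t8_closed {S : Finset G} (hS : ∀ s ∈ S, s⁻¹ ∈ S) (hgen : Subgroup.closure (S : Set G) = ⊤)
    (B : Set G) (hB : ∀ s ∈ S, ∀ z ∈ B, s * z * s⁻¹ ∈ B) (g z : G) (hz : z ∈ B) :
    g * z * g⁻¹ ∈ B := by
  have key : ∀ g : G, (∀ z ∈ B, g * z * g⁻¹ ∈ B ∧ g⁻¹ * z * g ∈ B) := by
    intro g
    have hg : g ∈ Subgroup.closure (S : Set G) := by rw [hgen]; trivial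
    induction hg using Subgroup.closure_induction with
    | mem x hx =>
      intro z hz
      refine ⟨hB x hx z hz, ?_⟩
      have := hB x⁻¹ (hS x hx) z hz
      simpa using this
    | one => intro z hz; simpa using hz
    | mul x y _ _ ihx ihy =>
      intro z hz
      constructor
      · have := (ihx _ ((ihy z hz).1)).1
        convert this using 1
        group
      · have := (ihy _ ((ihx z hz).2)).2
        convert this using 1
        group
    | inv x _ ih =>
      intro z hz
      refine ⟨?_, ?_⟩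
      · simpa using (ih z hz).2
      · simpa using (ih z hz).1
  exact (key g z hz).1

theorem t8_card {S : Finset G} (h1 : (1 : G) ∈ S) (hS : ∀ s ∈ S, s⁻¹ ∈ S)
    (hgen : Subgroup.closure (S : Set G) = ⊤) (w : G) (hw : ¬ (conjugatesOf w).Finite) (n : ℕ) :
    n + 1 ≤ (t8_ball S w n).card := by
  induction n with
  | zero =>
    rw [zero_add, Nat.one_le_iff_ne_zero, Finset.card_ne_zero]
    exact ⟨w, t8_self h1 w 0⟩
  | succ n ih =>
    have hsub : t8_ball S w n ⊆ t8_ball S w (n + 1) := t8_mono h1 w (Nat.le_succ n)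
    have hne : t8_ball S w n ≠ t8_ball S w (n + 1) := by
      intro heq
      apply hw
      apply (t8_ball S w n).finite_toSet.subset
      intro z hz
      have hz' : IsConj w z := hz
      rw [isConj_iff] at hz'
      obtain ⟨g, rfl⟩ := hz'
      apply t8_closed hS hgen (t8_ball S w n : Set G) _ g w (t8_self h1 w n)
      intro s hs z hz
      have h2 : s * z * s⁻¹ ∈ t8_ball S w (1 + n) := by
        refine t8_trans (Finset.mem_coe.1 hz) ?_
        rw [t8_mem]
        exact ⟨s, t8_pow_one hs, rfl⟩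
      rw [add_comm, ← heq] at h2
      exact h2
    have := Finset.card_lt_card (Finset.ssubset_iff_subset_ne.2 ⟨hsub, hne⟩)
    omega

/-- maximal separated sets -/
theorem t8_sep {S : Finset G} (h1 : (1 : G) ∈ S) (hS : ∀ s ∈ S, s⁻¹ ∈ S) (Y : Set G) (n : ℕ) :
    ∃ C : Set G, C ⊆ Y ∧ (∀ c ∈ C, ∀ c' ∈ C, c ≠ c' → Disjoint (t8_ball S c n) (t8_ball S c' n)) ∧
      ∀ w ∈ Y, ∃ c ∈ C, t8_ball S c n ⊆ t8_ball S w (3 * n) := by
  obtain ⟨C, hC⟩ := zorn_subset {C : Set G | C ⊆ Y ∧ ∀ c ∈ C, ∀ c' ∈ C, c ≠ c' →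
      c' ∉ t8_ball S c (2 * n)} (by
    intro K hK hchain
    refine ⟨⋃₀ K, ⟨?_, ?_⟩, fun s hs => subset_sUnion_of_mem hs⟩
    · exact sUnion_subset fun s hs => (hK hs).1
    · intro c hc c' hc' hne
      obtain ⟨s, hs, hcs⟩ := mem_sUnion.1 hc
      obtain ⟨t, ht, hct⟩ := mem_sUnion.1 hc'
      rcases hchain.total hs ht with h | h
      · exact (hK ht).2 c (h hcs) c' hct hne
      · exact (hK hs).2 c hcs c' (h hct) hne)
  have hCm := hC.prop
  refine ⟨C, hCm.1, ?_, ?_⟩
  · intro c hc c' hc' hne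
    rw [Finset.disjoint_left]
    intro z hz hz'
    apply hCm.2 c hc c' hc' hne
    have := t8_trans hz (t8_symm hS hz')
    rwa [← two_mul] at this
  · intro w hw
    by_cases hwC : w ∈ C
    · exact ⟨w, hwC, t8_mono h1 w (by omega)⟩
    · have : ∃ c ∈ C, c ∈ t8_ball S w (2 * n) := by
        by_contra hcon
        push Not at hcon
        apply hwC
        have hins : insert w C ∈ {C : Set G | C ⊆ Y ∧ ∀ c ∈ C, ∀ c' ∈ C, c ≠ c' →
            c' ∉ t8_ball S c (2 * n)} := by
          refine ⟨insert_subset hw hCm.1, ?_⟩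
          intro c hc c' hc' hne
          rcases mem_insert_iff.1 hc with e1 | hc1
          · rcases mem_insert_iff.1 hc' with e2 | hc2
            · exact absurd (e1.trans e2.symm) hne
            · rw [e1]; exact hcon c' hc2
          · rcases mem_insert_iff.1 hc' with e2 | hc2
            · intro h
              rw [e2] at h
              exact hcon c hc1 (t8_symm hS h)
            · exact hCm.2 c hc1 c' hc2 hne
        have := hC.le_of_ge hins (subset_insert w C)
        exact this (mem_insert w C)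
      obtain ⟨c, hc, hcw⟩ := this
      refine ⟨c, hc, ?_⟩
      intro z hz
      have := t8_trans hcw hz
      rwa [show n + 2 * n = 3 * n by ring] at this

end

section
variable {G : Type u} [Group G]

/-- the Hall condition -/
theorem t8_hall {S : Finset G} (h1 : (1 : G) ∈ S) (hS : ∀ s ∈ S, s⁻¹ ∈ S)
    (hgen : Subgroup.closure (S : Set G) = ⊤) (x : ℕ → G) (C : ℕ → Set G)
    (hCY : ∀ i, ∀ c ∈ C i, ¬ (conjugatesOf c).Finite)
    (hC : ∀ i, ∀ c ∈ C i, ∀ c' ∈ C i, c ≠ c' →
      Disjoint (t8_ball S c (2 ^ (i + 2))) (t8_ball S c' (2 ^ (i + 2)))) :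
    ∃ f : (Σ i, C i × Bool) → G, Function.Injective f ∧
      ∀ p, ∃ z ∈ t8_ball S (p.2.1 : G) (2 ^ (p.1 + 2)), x p.1 * z = f p := by
  classical
  let t : (Σ i, C i × Bool) → Finset G := fun p =>
    (t8_ball S (p.2.1 : G) (2 ^ (p.1 + 2))).image (fun z => x p.1 * z)
  have hall : ∀ s : Finset (Σ i, C i × Bool), s.card ≤ (s.biUnion t).card := by
    intro s
    -- per level
    have hlev : ∀ i, ((s.filter (fun p => p.1 = i)).card : ℝ) ≤
        ((s.biUnion t).card : ℝ) * (1 / 2) ^ (i + 1) := by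
      intro i
      let D : Finset G := (s.filter (fun p => p.1 = i)).image (fun p => (p.2.1 : G))
      have hD1 : (s.filter (fun p => p.1 = i)).card ≤ 2 * D.card := by
        have : (s.filter (fun p => p.1 = i)).card ≤
            (D ×ˢ (Finset.univ : Finset Bool)).card := by
          apply Finset.card_le_card_of_injOn (fun p => ((p.2.1 : G), p.2.2))
          · intro p hp
            simp only [Finset.coe_product, Set.mem_prod, Finset.mem_coe, Finset.mem_univ, and_true]
            exact Finset.mem_image_of_mem (fun p : (Σ i, C i × Bool) => (p.2.1 : G))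
              (Finset.mem_coe.1 hp)
          · rintro ⟨i1, c1, b1⟩ hp ⟨i2, c2, b2⟩ hq h
            simp only [Finset.coe_filter, Set.mem_ofPred_eq] at hp hq
            obtain ⟨_, rfl⟩ := hp
            obtain ⟨_, rfl⟩ := hq
            simp only [Prod.mk.injEq] at h
            obtain ⟨h1, rfl⟩ := h
            have : c1 = c2 := Subtype.ext h1
            rw [this]
        rw [Finset.card_product, Finset.card_univ, Fintype.card_bool] at this
        omega
      have hDC : ∀ c ∈ D, c ∈ C i := by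
        intro c hc
        simp only [D, Finset.mem_image, Finset.mem_filter] at hc
        obtain ⟨p, ⟨_, rfl⟩, rfl⟩ := hc
        exact p.2.1.2
      have hD2 : D.card * 2 ^ (i + 2) ≤ (s.biUnion t).card := by
        have hsub : (D.biUnion (fun c => t8_ball S c (2 ^ (i + 2)))).image (fun z => x i * z) ⊆
            s.biUnion t := by
          intro y hy
          simp only [Finset.mem_image, Finset.mem_biUnion] at hy
          obtain ⟨z, ⟨c, hc, hz⟩, rfl⟩ := hy
          simp only [D, Finset.mem_image, Finset.mem_filter] at hc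
          obtain ⟨p, ⟨hp, rfl⟩, rfl⟩ := hc
          rw [Finset.mem_biUnion]
          exact ⟨p, hp, Finset.mem_image_of_mem _ hz⟩
        have hcard := Finset.card_le_card hsub
        rw [Finset.card_image_of_injective _ (mul_right_injective (x i)),
          Finset.card_biUnion] at hcard
        · refine le_trans ?_ hcard
          rw [← smul_eq_mul]
          apply Finset.card_nsmul_le_sum
          intro c hc
          have := t8_card h1 hS hgen c (hCY i c (hDC c hc)) (2 ^ (i + 2))
          omega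
        · intro c hc c' hc' hne
          exact hC i c (hDC c hc) c' (hDC c' hc') hne
      have h3 : (s.filter (fun p => p.1 = i)).card * 2 ^ (i + 1) ≤ (s.biUnion t).card := by
        calc (s.filter (fun p => p.1 = i)).card * 2 ^ (i + 1) ≤ (2 * D.card) * 2 ^ (i + 1) :=
              Nat.mul_le_mul_right _ hD1
          _ = D.card * 2 ^ (i + 2) := by ring
          _ ≤ _ := hD2
      have h4 : ((s.filter (fun p => p.1 = i)).card : ℝ) * 2 ^ (i + 1) ≤
          ((s.biUnion t).card : ℝ) := by exact_mod_cast h3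
      rw [one_div, inv_pow, ← div_eq_mul_inv, le_div_iff₀ (by positivity)]
      exact h4
    obtain ⟨M, hM⟩ : ∃ M : ℕ, ∀ p ∈ s, p.1 < M := by
      refine ⟨(s.image (fun p => p.1)).sup id + 1, fun p hp => ?_⟩
      have : p.1 ≤ (s.image (fun p => p.1)).sup id :=
        Finset.le_sup (f := id) (Finset.mem_image_of_mem _ hp)
      omega
    have hsum : (s.card : ℝ) = ∑ i ∈ Finset.range M, ((s.filter (fun p => p.1 = i)).card : ℝ) := by
      rw [Finset.card_eq_sum_card_fiberwise (f := fun p => p.1) (t := Finset.range M)]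
      · push_cast
        rfl
      · intro p hp
        simpa using hM p hp
    have hgeo : ∑ i ∈ Finset.range M, ((1 : ℝ) / 2) ^ (i + 1) ≤ 1 := by
      have : ∑ i ∈ Finset.range M, ((1 : ℝ) / 2) ^ (i + 1) = 1 - (1 / 2) ^ M := by
        clear hsum hM
        induction M with
        | zero => simp
        | succ M ih => rw [Finset.sum_range_succ, ih]; ring
      rw [this]
      have : (0 : ℝ) ≤ (1 / 2) ^ M := by positivity
      linarith
    have : (s.card : ℝ) ≤ ((s.biUnion t).card : ℝ) := by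
      rw [hsum]
      calc ∑ i ∈ Finset.range M, ((s.filter (fun p => p.1 = i)).card : ℝ)
          ≤ ∑ i ∈ Finset.range M, ((s.biUnion t).card : ℝ) * (1 / 2) ^ (i + 1) :=
            Finset.sum_le_sum fun i _ => hlev i
        _ = ((s.biUnion t).card : ℝ) * ∑ i ∈ Finset.range M, ((1 : ℝ) / 2) ^ (i + 1) := by
            rw [Finset.mul_sum]
        _ ≤ ((s.biUnion t).card : ℝ) * 1 := by
            apply mul_le_mul_of_nonneg_left hgeo (by positivity)
        _ = _ := mul_one _
    exact_mod_cast this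
  obtain ⟨f, hf, hft⟩ := (Finset.all_card_le_biUnion_card_iff_exists_injective t).1 hall
  refine ⟨f, hf, fun p => ?_⟩
  have := hft p
  simp only [t, Finset.mem_image] at this
  exact this

end

section
variable {G : Type u} [Group G] [TopologicalSpace G] [IsTopologicalGroup G]

/-- T8 (Hall colouring) -/
theorem finite_conj (hG : ¬ Res G) (hfg : Group.FG G) :
    ∀ᶠ w in 𝓝 (1 : G), (conjugatesOf w).Finite := by
  classical
  by_contra hcon
  apply hG
  have hfreq : ∃ᶠ w in 𝓝 (1 : G), ¬ (conjugatesOf w).Finite := Filter.not_eventually.1 hcon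
  -- generating set
  obtain ⟨_, S0, _, hS0⟩ := (Group.fg_iff').1 hfg
  let S : Finset G := insert 1 (S0 ∪ S0.image (fun g => g⁻¹))
  have h1 : (1 : G) ∈ S := Finset.mem_insert_self _ _
  have hS : ∀ s ∈ S, s⁻¹ ∈ S := by
    intro s hs
    simp only [S, Finset.mem_insert, Finset.mem_union, Finset.mem_image] at hs ⊢
    rcases hs with rfl | hs | ⟨a, ha, rfl⟩
    · left; simp
    · right; right; exact ⟨s, hs, rfl⟩
    · right; left; simpa using ha
  have hgen : Subgroup.closure (S : Set G) = ⊤ := by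
    rw [eq_top_iff, ← hS0]
    apply Subgroup.closure_mono
    intro s hs
    simp only [S, Finset.coe_insert, Finset.coe_union, Set.mem_insert_iff, Set.mem_union]
    right; left; exact hs
  have hcount : Countable G := by
    obtain ⟨S', hS', φ, hφ⟩ := Group.fg_iff_exists_freeGroup_hom_surjective.1 hfg
    have : Countable S' := hS'.countable.to_subtype
    exact hφ.countable
  obtain ⟨x, hx⟩ := exists_surjective_nat G
  choose C hCY hC1 hC2 using fun i : ℕ =>
    t8_sep h1 hS {w : G | ¬ (conjugatesOf w).Finite} (2 ^ (i + 2))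
  obtain ⟨f, hf, hfx⟩ := t8_hall h1 hS hgen x C (fun i c hc => hCY i hc) hC1
  have key : ∀ U : Set G, IsOpen U → U.Nonempty → ∃ (i : ℕ) (c : C i), ∀ b, f ⟨i, c, b⟩ ∈ U := by
    intro U hU ⟨y, hy⟩
    obtain ⟨i, rfl⟩ := hx y
    have hev : ∀ᶠ w in 𝓝 (1 : G), ∀ g ∈ (show Finset G from by
        open scoped Pointwise in exact S ^ (3 * 2 ^ (i + 2))), x i * (g * w * g⁻¹) ∈ U := by
      rw [Filter.eventually_all_finset]
      intro g _
      have hcont : Continuous (fun w : G => x i * (g * w * g⁻¹)) := by fun_prop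
      have h0 : x i * (g * 1 * g⁻¹) ∈ U := by simpa using hy
      exact hcont.continuousAt.preimage_mem_nhds (hU.mem_nhds h0)
    obtain ⟨w, hw, hwU⟩ := (hfreq.and_eventually hev).exists
    obtain ⟨c, hc, hcw⟩ := hC2 i w hw
    refine ⟨i, ⟨c, hc⟩, fun b => ?_⟩
    obtain ⟨z, hz, e⟩ := hfx ⟨i, ⟨c, hc⟩, b⟩
    rw [← e]
    obtain ⟨g, hg, rfl⟩ := t8_mem.1 (hcw hz)
    exact hwU g hg
  refine ⟨Set.range (fun p : (Σ i, C i) => f ⟨p.1, p.2, true⟩), ?_, ?_⟩
  · rw [dense_iff_inter_open]
    intro U hU hne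
    obtain ⟨i, c, h⟩ := key U hU hne
    exact ⟨_, h true, ⟨⟨i, c⟩, rfl⟩⟩
  · rw [dense_iff_inter_open]
    intro U hU hne
    obtain ⟨i, c, h⟩ := key U hU hne
    refine ⟨_, h false, ?_⟩
    rintro ⟨⟨j, c'⟩, e⟩
    have e2 : (⟨j, c', true⟩ : Σ i, C i × Bool) = ⟨i, c, false⟩ := hf e
    have e3 : (⟨j, c', true⟩ : Σ i, C i × Bool).2.2 = (⟨i, c, false⟩ : Σ i, C i × Bool).2.2 := by
      rw [e2]
    exact Bool.noConfusion e3

end

end Pool.Agent.Irr008583
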