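import Pool.Agent.Lib.MP_008583_gt.Irr3

open Topology Filter Set

universe u

namespace Pool.Agent.Irr008583

/-- T7 (f.g. abelian) -/
theorem fg_comm_discrete {A : Type u} [CommGroup A] [TopologicalSpace A] [IsTopologicalGroup A]
    [T2Space A] (hA : ¬ Res A) (hfg : Group.FG A) : ∀ᶠ w in 𝓝 (1 : A), w = 1 := by
  classical
  obtain ⟨κ, ι, _, _, p, hp, e, ⟨Φ⟩⟩ := CommGroup.equiv_free_prod_prod_multiplicative_zmod A
  have hZ : ∀ i, NeZero (p i ^ e i) := fun i => ⟨pow_ne_zero _ (hp i).ne_zero⟩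
  let f : A → ι → ℤ := fun z i => Multiplicative.toAdd ((Φ z).1 i)
  have fmul : ∀ z w i, f (z * w) i = f z i + f w i := by
    intro z w i
    change Multiplicative.toAdd ((Φ (z * w)).1 i) = _
    rw [map_mul]; rfl
  have finv : ∀ z i, f z⁻¹ i = - f z i := by
    intro z i
    change Multiplicative.toAdd ((Φ z⁻¹).1 i) = _
    rw [map_inv]; rfl
  obtain ⟨U, hU, ⟨x, hx⟩, hc⟩ := exists_open_const hA (fun z (i : ι) => decide (0 < f z i))
  have hn1 : ∀ᶠ w in 𝓝 (1 : A), x * w ∈ U := by
    have hcont : ContinuousAt (fun w : A => x * w) 1 := by fun_prop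
    exact hcont.preimage_mem_nhds (by simpa using hU.mem_nhds hx)
  have hn2 : ∀ᶠ w in 𝓝 (1 : A), x * w⁻¹ ∈ U := by
    have hcont : ContinuousAt (fun w : A => x * w⁻¹) 1 := by fun_prop
    exact hcont.preimage_mem_nhds (by simpa using hU.mem_nhds hx)
  have hbd : ∀ w, x * w ∈ U → x * w⁻¹ ∈ U → ∀ i, |f w i| ≤ |f x i| := by
    intro w h1 h2 i
    have h3 := congrFun (hc _ h1 _ h2) i
    simp only [fmul, finv, decide_eq_decide] at h3
    by_contra hcon
    push Not at hcon
    rcases abs_cases (f w i) with ⟨h4, h5⟩ | ⟨h4, h5⟩ <;> rcases abs_cases (f x i) with ⟨h6, h7⟩ | ⟨h6, h7⟩ <;> omega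
  have hfin : {w : A | x * w ∈ U ∧ x * w⁻¹ ∈ U}.Finite := by
    let S : Set ((ι → Multiplicative ℤ) × ((i : κ) → Multiplicative (ZMod (p i ^ e i)))) :=
      {y | y.1 ∈ Set.pi Set.univ (fun i => {m : Multiplicative ℤ | Multiplicative.toAdd m ∈ Set.Icc (-|f x i|) (|f x i|)})}
    have hS : S.Finite := by
      have h1 : (Set.pi Set.univ (fun i => {m : Multiplicative ℤ | Multiplicative.toAdd m ∈ Set.Icc (-|f x i|) (|f x i|)}) : Set (ι → Multiplicative ℤ)).Finite := by
        apply Set.Finite.pi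
        intro i
        exact (Set.finite_Icc (-|f x i|) (|f x i|)).preimage (Multiplicative.toAdd.injective.injOn)
      have h2 : (Set.univ : Set ((i : κ) → Multiplicative (ZMod (p i ^ e i)))).Finite := by
        have : ∀ i, Finite (Multiplicative (ZMod (p i ^ e i))) := fun i => by
          have := hZ i
          exact inferInstanceAs (Finite (ZMod (p i ^ e i)))
        exact Set.finite_univ
      exact (h1.prod h2).subset (fun y hy => ⟨hy, Set.mem_univ _⟩)
    refine (hS.preimage (Φ.injective.injOn (s := Φ ⁻¹' S))).subset ?_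
    rintro w ⟨h1, h2⟩
    change (Φ w).1 ∈ Set.pi Set.univ _
    intro i _
    have := hbd w h1 h2 i
    exact abs_le.mp this
  have h3 : ({w : A | x * w ∈ U ∧ x * w⁻¹ ∈ U} \ {1}).Finite := hfin.subset Set.sdiff_subset
  have h4 : ({w : A | x * w ∈ U ∧ x * w⁻¹ ∈ U} \ {1})ᶜ ∈ 𝓝 (1 : A) :=
    h3.isClosed.isOpen_compl.mem_nhds (by simp)
  filter_upwards [hn1, hn2, h4] with w h5 h6 h7
  by_contra h8
  exact h7 ⟨⟨h5, h6⟩, h8⟩

section T9

theorem t9_sub {G : Type u} [Group G] [TopologicalSpace G] (H : Subgroup G) (P : H → Prop)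
    (h : ∀ᶠ w in 𝓝 (1 : H), P w) : ∀ᶠ w in 𝓝 (1 : G), ∀ hw : w ∈ H, P ⟨w, hw⟩ := by
  rw [nhds_subtype_eq_comap, Filter.eventually_comap] at h
  filter_upwards [h] with w hw hwH
  exact hw ⟨w, hwH⟩ rfl

/-- the FC-centre -/
def t9_F (G : Type u) [Group G] : Subgroup G where
  carrier := {g | (conjugatesOf g).Finite}
  one_mem' := by
    refine (Set.finite_singleton (1 : G)).subset ?_
    intro x hx
    obtain ⟨c, hc⟩ := isConj_iff.1 (show IsConj (1 : G) x from hx)
    simpa using hc.symm
  mul_mem' := by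
    intro a b ha hb
    refine (Set.Finite.mul (show (conjugatesOf a).Finite from ha)
      (show (conjugatesOf b).Finite from hb)).subset ?_
    intro x hx
    obtain ⟨c, hc⟩ := isConj_iff.1 (show IsConj (a * b) x from hx)
    refine ⟨c * a * c⁻¹, isConj_iff.2 ⟨c, rfl⟩, c * b * c⁻¹, isConj_iff.2 ⟨c, rfl⟩, ?_⟩
    rw [← hc]
    group
  inv_mem' := by
    intro a ha
    refine (Set.Finite.inv (show (conjugatesOf a).Finite from ha)).subset ?_
    intro x hx
    obtain ⟨c, hc⟩ := isConj_iff.1 (show IsConj (a⁻¹) x from hx)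
    rw [Set.mem_inv]
    refine isConj_iff.2 ⟨c, ?_⟩
    rw [← hc]
    group

theorem t9_mem_F {G : Type u} [Group G] (g : G) : g ∈ t9_F G ↔ (conjugatesOf g).Finite := Iff.rfl

instance t9_F_normal (G : Type u) [Group G] : (t9_F G).Normal := by
  constructor
  intro n hn g
  rw [t9_mem_F] at hn ⊢
  have : conjugatesOf (g * n * g⁻¹) = conjugatesOf n := by
    have h : IsConj n (g * n * g⁻¹) := isConj_iff.2 ⟨g, rfl⟩
    exact h.conjugatesOf_eq.symm
  rwa [this]

theorem t9_finiteIndex {G : Type u} [Group G] (g : G) (h : (conjugatesOf g).Finite) :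
    (Subgroup.centralizer {g}).FiniteIndex := by
  have : Finite (conjugatesOf g) := h
  let f : G ⧸ Subgroup.centralizer {g} → conjugatesOf g :=
    fun q => ⟨q.out * g * q.out⁻¹, isConj_iff.2 ⟨q.out, rfl⟩⟩
  have hf : Function.Injective f := by
    intro q q' hqq
    have h1 : q.out * g * q.out⁻¹ = q'.out * g * q'.out⁻¹ := congrArg Subtype.val hqq
    have e1 : ((q.out : G) : G ⧸ Subgroup.centralizer {g}) = q := q.out_eq'
    have e2 : ((q'.out : G) : G ⧸ Subgroup.centralizer {g}) = q' := q'.out_eq'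
    rw [← e1, ← e2, QuotientGroup.eq, Subgroup.mem_centralizer_iff]
    rintro y rfl
    have h2 : q'.out * y = q.out * y * q.out⁻¹ * q'.out := by
      rw [h1]; group
    have h3 : q.out⁻¹ * q'.out * y = q.out⁻¹ * (q'.out * y) := by group
    rw [h3, h2]
    group
  have : Finite (G ⧸ Subgroup.centralizer {g}) := Finite.of_injective f hf
  exact Subgroup.finiteIndex_of_finite_quotient

theorem t9_centralizer {G : Type u} [Group G] (S : Set G) (hS : S.Finite)
    (h : ∀ g ∈ S, (conjugatesOf g).Finite) : (Subgroup.centralizer S).FiniteIndex := by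
  classical
  induction S, hS using Set.Finite.induction_on with
  | empty =>
    have : Subgroup.centralizer (∅ : Set G) = ⊤ := by
      ext x
      simp [Subgroup.mem_centralizer_iff]
    rw [this]
    infer_instance
  | @insert a s ha hs ih =>
    have h1 := t9_finiteIndex a (h a (Set.mem_insert _ _))
    have h2 := ih (fun g hg => h g (Set.mem_insert_of_mem _ hg))
    have h3 : Subgroup.centralizer {a} ⊓ Subgroup.centralizer s ≤ Subgroup.centralizer (insert a s) := by
      rintro x ⟨hx1, hx2⟩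
      rw [Subgroup.mem_centralizer_iff]
      rintro y (rfl | hy)
      · exact Subgroup.mem_centralizer_iff.1 hx1 y rfl
      · exact Subgroup.mem_centralizer_iff.1 hx2 y hy
    exact Subgroup.finiteIndex_of_le h3

variable {G : Type u} [Group G] [TopologicalSpace G] [IsTopologicalGroup G] [T2Space G]

theorem t9_discrete (hG : ¬ Res G) (s : Set G) (hs : s.Finite)
    (h : ∀ g ∈ s, (conjugatesOf g).Finite) :
    ∀ᶠ w in 𝓝 (1 : G), w ∈ Subgroup.closure s → w = 1 := by
  have hC := t9_centralizer s hs h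
  set C := Subgroup.centralizer s with hCdef
  set H := Subgroup.closure s with hHdef
  have hHfg : Group.FG H := by
    rw [Group.fg_iff_subgroup_fg, Subgroup.fg_iff]
    exact ⟨s, rfl, hs⟩
  let Z : Subgroup H := C.subgroupOf H
  have hZi : Z.FiniteIndex := inferInstance
  have hZfg : Group.FG Z := by
    exact Subgroup.fg_of_index_ne_zero Z
  have hcomm : ∀ a b : Z, a * b = b * a := by
    rintro ⟨⟨a, haH⟩, haC⟩ ⟨⟨b, hbH⟩, hbC⟩
    have h1 : a ∈ C := haC
    have h2 : b ∈ Subgroup.closure s := hbH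
    have h3 : Subgroup.closure s ≤ Subgroup.centralizer (C : Set G) :=
      Subgroup.closure_le_centralizer_centralizer s
    have h4 := Subgroup.mem_centralizer_iff.1 (h3 h2) a h1
    exact Subtype.ext (Subtype.ext h4)
  let iZ : CommGroup Z := { (inferInstance : Group Z) with mul_comm := hcomm }
  have hZ : ¬ Res Z := fun hr => hG (res_of_subgroup H (res_of_subgroup Z hr))
  have h1 := fg_comm_discrete (A := Z) hZ hZfg
  have h2 := t9_sub (G := H) Z _ h1
  have h3 := t9_sub H _ h2
  have h4 : ∀ᶠ w in 𝓝 (1 : G), w ∈ C := (finiteIndex_open hG C hC).mem_nhds C.one_mem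
  filter_upwards [h3, h4] with w h5 h6 h7
  have h8 := h5 h7 h6
  exact congrArg (fun z : Z => (z : G)) h8

end T9

section
variable {G : Type u} [Group G] [TopologicalSpace G] [IsTopologicalGroup G] [T2Space G]

/-- T9 (f.g. groups) -/
theorem fg_case (hG : ¬ Res G) (hfg : Group.FG G) :
    (∀ k : G, ∀ᶠ w in 𝓝 (1 : G), w * k = k * w) ∧ ∀ᶠ w in 𝓝 (1 : G), w * w = 1 := by
  classical
  have hcount : Countable G := by
    obtain ⟨α, hα, φ, hφ⟩ := Group.fg_iff_exists_freeGroup_hom_surjective_finite.1 hfg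
    have : Countable (FreeGroup α) := inferInstanceAs (Countable (Quot _))
    exact hφ.countable
  set F := t9_F G with hF
  obtain ⟨f, hf⟩ := exists_surjective_nat F
  let S : ℕ → Set G := fun n => Group.conjugatesOfSet ((fun i => (f i : G)) '' (Set.Iic n))
  have hSfin : ∀ n, (S n).Finite := by
    intro n
    have : S n = ⋃ a ∈ ((fun i => (f i : G)) '' (Set.Iic n)), conjugatesOf a := rfl
    rw [this]
    refine Set.Finite.biUnion ((Set.finite_Iic n).image _) ?_
    rintro _ ⟨i, _, rfl⟩
    exact (f i).2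
  have hSF : ∀ n, ∀ g ∈ S n, (conjugatesOf g).Finite := by
    intro n g hg
    obtain ⟨_, ⟨i, _, rfl⟩, h2⟩ := Group.mem_conjugatesOfSet_iff.1 hg
    have : conjugatesOf g = conjugatesOf (f i : G) := (h2.conjugatesOf_eq).symm
    rw [this]
    exact (f i).2
  let N : ℕ → Subgroup G := fun n => Subgroup.closure (S n)
  have hNn : ∀ n, (N n).Normal := fun n => by
    change (Subgroup.normalClosure ((fun i => (f i : G)) '' (Set.Iic n))).Normal
    infer_instance
  have hNmono : ∀ m n, m ≤ n → N m ≤ N n := by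
    intro m n hmn
    exact Subgroup.closure_mono (Group.conjugatesOfSet_mono (Set.image_mono (Set.Iic_subset_Iic.2 hmn)))
  have hNF : ∀ z : F, ∃ n, (z : G) ∈ N n := by
    intro z
    obtain ⟨n, rfl⟩ := hf z
    exact ⟨n, Subgroup.subset_closure (Group.subset_conjugatesOfSet ⟨n, Set.mem_Iic.2 le_rfl, rfl⟩)⟩
  let ρ : F → ℕ := fun z => Nat.find (hNF z)
  have hρle : ∀ z n, ρ z ≤ n ↔ (z : G) ∈ N n := by
    intro z n
    constructor
    · intro h
      exact hNmono _ _ h (Nat.find_spec (hNF z))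
    · intro h
      exact Nat.find_le h
  have hρ : IsRank ρ := by
    constructor
    · intro g h
      rw [hρle]
      exact (N _).mul_mem (hNmono _ _ (le_max_left _ _) ((hρle g _).1 le_rfl))
        (hNmono _ _ (le_max_right _ _) ((hρle h _).1 le_rfl))
    · intro g
      rw [hρle]
      exact (N _).inv_mem ((hρle g _).1 le_rfl)
  have hFr : ¬ Res F := fun h => hG (res_of_subgroup F h)
  have hdisc : ∀ n, ∀ᶠ w in 𝓝 (1 : F), ρ w ≤ n → w = 1 := by
    intro n
    have h1 := t9_discrete hG (S n) (hSfin n) (hSF n)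
    have h2 : Tendsto (fun w : F => (w : G)) (𝓝 1) (𝓝 1) := continuous_subtype_val.tendsto' _ _ rfl
    filter_upwards [h2.eventually h1] with w hw hw2
    exact Subtype.ext (hw ((hρle w n).1 hw2))
  have hFnhds : ∀ᶠ w in 𝓝 (1 : G), w ∈ F := finite_conj hG hfg
  have hOCF : ∀ k : G, ∀ᶠ w : F in 𝓝 (1 : F), ((w : F) : G) * k = k * ((w : F) : G) := by
    intro k
    let T : F ≃* F := MulAut.conjNormal k
    have hTv : ∀ z : F, ((T z : F) : G) = k * z * k⁻¹ := fun z => MulAut.conjNormal_apply k z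
    have hT : Continuous T := by
      refine continuous_induced_rng.2 ?_
      have : (Subtype.val ∘ T : F → G) = fun z : F => k * (z : G) * k⁻¹ := by
        ext z; exact hTv z
      rw [this]
      fun_prop
    have hTρ : ∀ z, ρ (T z) = ρ z := by
      intro z
      have : ∀ n, ρ (T z) ≤ n ↔ ρ z ≤ n := by
        intro n
        rw [hρle, hρle, hTv]
        rw [(hNn n).mem_comm_iff, inv_mul_cancel_left]
      exact le_antisymm ((this _).2 le_rfl) ((this _).1 le_rfl)
    obtain ⟨j, hj⟩ := cap hFr hρ T hT 0 (fun j _ z => by rw [hTρ])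
    have h2 : Tendsto (fun w : F => T w * w⁻¹) (𝓝 1) (𝓝 1) := by
      have : Continuous (fun w : F => T w * w⁻¹) := by fun_prop
      exact this.tendsto' _ _ (by simp)
    filter_upwards [hj, h2.eventually (hdisc j)] with w h3 h4
    have h5 := h4 h3
    have h6 : k * (w : G) * k⁻¹ * (w : G)⁻¹ = 1 := by
      rw [← hTv]
      exact congrArg Subtype.val h5
    have h7 := mul_inv_eq_one.1 h6
    have h8 := mul_inv_eq_iff_eq_mul.1 h7
    exact h8.symm
  refine ⟨?_, ?_⟩
  · intro k
    have h1 := t9_sub F _ (hOCF k)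
    filter_upwards [h1, hFnhds] with w h2 h3
    exact h2 h3
  · obtain ⟨j, hj⟩ := inv_bdd hFr hρ (fun k => by
      filter_upwards [hOCF k] with w hw
      exact Subtype.ext hw)
    have h2 : Tendsto (fun w : F => w * w) (𝓝 1) (𝓝 1) := by
      have : Continuous (fun w : F => w * w) := by fun_prop
      exact this.tendsto' _ _ (by simp)
    have h3 : ∀ᶠ w in 𝓝 (1 : F), w * w = 1 := by
      filter_upwards [hj, h2.eventually (hdisc j)] with w h3 h4
      exact h4 h3
    filter_upwards [t9_sub F _ h3, hFnhds] with w h4 h5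
    exact congrArg Subtype.val (h4 h5)

end

end Pool.Agent.Irr008583
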