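import Pool.Agent.Lib.MP_008583_gt.Irr1
import Pool.Agent.Lib.MP_008583_gt.Irr2
import Pool.Agent.Lib.MP_008583_gt.Irr4

open Topology Filter Set

universe u

namespace Pool.Agent.Irr008583

section
variable {G : Type u} [Group G] [TopologicalSpace G] [IsTopologicalGroup G] [T2Space G]

/-- auxiliary notion for T10 -/
def T10Good (H : Type u) [Group H] [TopologicalSpace H] : Prop :=
  (∀ k : H, ∀ᶠ w in 𝓝 (1 : H), w * k = k * w) ∧ (∀ᶠ w in 𝓝 (1 : H), w * w = 1) ∧
    ∃ V ∈ 𝓝 (1 : H), V.Countable

omit [T2Space G] in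
theorem t10_boolean (h : ∀ᶠ w in 𝓝 (1 : G), w * w = 1) :
    ∃ V ∈ 𝓝 (1 : G), ∀ g ∈ Subgroup.closure V, g * g = 1 := by
  obtain ⟨V, hVo, hV1, hV⟩ := exists_open_nhds_one_mul_subset (show {w : G | w * w = 1} ∈ 𝓝 1 from h)
  have hsq : ∀ v ∈ V, v * v = 1 := by
    intro v hv
    have := hV (Set.mul_mem_mul hv hV1)
    simpa using this
  have hcomm : ∀ x ∈ V, ∀ y ∈ V, x * y = y * x := by
    intro x hx y hy
    have h1 : (x * y) * (x * y) = 1 := hV (Set.mul_mem_mul hx hy)
    have h2 : (x * y)⁻¹ = x * y := inv_eq_of_mul_eq_one_left h1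
    have hx' : x⁻¹ = x := inv_eq_of_mul_eq_one_left (hsq x hx)
    have hy' : y⁻¹ = y := inv_eq_of_mul_eq_one_left (hsq y hy)
    rw [mul_inv_rev, hx', hy'] at h2
    exact h2.symm
  have hmc := Subgroup.isMulCommutative_closure hcomm
  have hc : ∀ a ∈ Subgroup.closure V, ∀ b ∈ Subgroup.closure V, a * b = b * a := by
    intro a ha b hb
    exact setLike_mul_comm ha hb
  refine ⟨V, hVo.mem_nhds hV1, fun g hg => ?_⟩
  induction hg using Subgroup.closure_induction with
  | mem x hx => exact hsq x hx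
  | one => simp
  | mul x y hx hy ihx ihy =>
    have := hc x hx y hy
    calc x * y * (x * y) = x * (y * x) * y := by group
      _ = x * (x * y) * y := by rw [this]
      _ = (x * x) * (y * y) := by group
      _ = 1 := by rw [ihx, ihy, one_mul]
  | inv x _ ih =>
    rw [← mul_inv_rev, ih, inv_one]

omit [T2Space G] in
theorem t10_countable_of_inv (hG : ¬ Res G) (h : ∀ᶠ w in 𝓝 (1 : G), w * w = 1) :
    ∃ V ∈ 𝓝 (1 : G), V.Countable := by
  obtain ⟨V, hV, hH⟩ := t10_boolean h
  have hHo : IsOpen (Subgroup.closure V : Set G) :=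
    Subgroup.isOpen_of_mem_nhds _ (mem_of_superset hV Subgroup.subset_closure)
  have hHres : ¬ Res (Subgroup.closure V) := fun hr => hG (res_of_subgroup _ hr)
  obtain ⟨V', hV', hc⟩ := boolean_countable hHres (by
    rintro ⟨g, hg⟩
    ext
    simpa using hH g hg)
  exact ⟨Subtype.val '' V', hHo.isOpenMap_subtype_val.image_mem_nhds hV', hc.image _⟩

omit [T2Space G] in
theorem t10_glue (hG : ¬ Res G) {J : Type*} [LinearOrder J] [WellFoundedLT J]
    (L : J → Subgroup G) (hmono : Monotone L) (hcov : ∀ g, ∃ j, g ∈ L j)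
    (hgood : ∀ j, T10Good (L j)) : T10Good G := by
  classical
  let ρ : G → J := fun g => WellFounded.min (wellFounded_lt (α := J)) {j | g ∈ L j} (hcov g)
  have hρ : ∀ g j, ρ g ≤ j ↔ g ∈ L j := by
    intro g j
    constructor
    · intro h
      exact hmono h (WellFounded.min_mem (wellFounded_lt (α := J)) {j | g ∈ L j} (hcov g))
    · intro h
      exact WellFounded.min_le (wellFounded_lt (α := J)) h
  have hrank : IsRank ρ := by
    refine ⟨fun g h => ?_, fun g => ?_⟩
    · rw [hρ]
      exact mul_mem (hmono (le_max_left _ _) ((hρ g _).1 le_rfl))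
        (hmono (le_max_right _ _) ((hρ h _).1 le_rfl))
    · rw [hρ]
      exact inv_mem ((hρ g _).1 le_rfl)
  have hsub : ∀ j (p : G → Prop), (∀ᶠ w : L j in 𝓝 (1 : L j), p w) →
      ∀ᶠ w in 𝓝 (1 : G), w ∈ L j → p w := by
    intro j p h
    have h2 := (eventually_nhds_subtype_iff (L j : Set G) (1 : L j) p).1 h
    exact eventually_nhdsWithin_iff.1 h2
  have hst := step hG hrank
    (fun j => by
      filter_upwards [hsub j (fun w => w * w = 1) (by
        filter_upwards [(hgood j).2.1] with w hw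
        exact_mod_cast congrArg (Subtype.val) hw)] with w hw hr
      exact hw ((hρ _ _).1 hr))
    (fun j => by
      obtain ⟨V, hV, hVc⟩ := (hgood j).2.2
      have h2 := hsub j (fun w => w ∈ (Subtype.val '' V : Set G)) (by
        filter_upwards [hV] with w hw
        exact ⟨w, hw, rfl⟩)
      refine ⟨_, h2, (hVc.image Subtype.val).mono ?_⟩
      rintro w ⟨hw, hr⟩
      exact hw ((hρ _ _).1 hr))
    (fun j k hk => by
      have hk' : k ∈ L j := (hρ _ _).1 hk
      filter_upwards [hsub j (fun w => w * k = k * w) (by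
        filter_upwards [(hgood j).1 ⟨k, hk'⟩] with w hw
        have h3 := congrArg (Subtype.val) hw
        exact h3)] with w hw hr
      exact hw ((hρ _ _).1 hr))
  exact ⟨hst.1, hst.2, t10_countable_of_inv hG hst.2⟩

theorem t10_mk_closure {G : Type u} [Group G] (s : Set G) (c : Cardinal.{u})
    (hc : Cardinal.aleph0 < c) (hs : Cardinal.mk s < c) :
    Cardinal.mk (Subgroup.closure s) < c := by
  have h1 : Cardinal.mk (Subgroup.closure s) ≤ Cardinal.mk (FreeGroup s) := by
    rw [FreeGroup.closure_eq_range]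
    exact Cardinal.mk_le_of_surjective
      (f := (FreeGroup.lift ((↑) : s → G)).rangeRestrict) (MonoidHom.rangeRestrict_surjective _)
  refine h1.trans_lt ?_
  rcases isEmpty_or_nonempty s with he | he
  · have : Cardinal.mk (FreeGroup s) ≤ Cardinal.aleph0 := by
      have : Finite (FreeGroup s) := by
        have : Subsingleton (FreeGroup s) := inferInstance
        exact Finite.of_subsingleton
      exact Cardinal.mk_le_aleph0
    exact this.trans_lt hc
  · rw [Cardinal.mk_freeGroup]
    exact max_lt hs hc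

theorem t10_main : ∀ (c : Cardinal.{u}) (G : Type u) [Group G] [TopologicalSpace G]
    [IsTopologicalGroup G] [T2Space G], Cardinal.mk G = c → ¬ Res G → T10Good G := by
  intro c
  induction c using WellFoundedLT.induction with
  | ind c ih =>
  intro G _ _ _ _ hcard hG
  by_cases hcount : Countable G
  · obtain ⟨e, he⟩ := exists_surjective_nat G
    refine t10_glue hG (fun j : ℕ => Subgroup.closure (e '' Set.Iic j)) ?_ ?_ ?_
    · intro i j hij
      exact Subgroup.closure_mono (Set.image_mono (Set.Iic_subset_Iic.2 hij))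
    · intro g
      obtain ⟨j, rfl⟩ := he g
      exact ⟨j, Subgroup.subset_closure ⟨j, by simp, rfl⟩⟩
    · intro j
      have hfg : Group.FG (Subgroup.closure (e '' Set.Iic j)) := by
        rw [Group.fg_iff_subgroup_fg]
        exact (Subgroup.fg_iff _).2 ⟨_, rfl, (Set.finite_Iic j).image e⟩
      have h1 := fg_case (G := Subgroup.closure (e '' Set.Iic j))
        (fun hr => hG (res_of_subgroup _ hr)) hfg
      exact ⟨h1.1, h1.2, univ, univ_mem, Set.countable_univ⟩
  · have hc : Cardinal.aleph0 < c := by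
      rw [← hcard]
      by_contra hle
      exact hcount (Cardinal.mk_le_aleph0_iff.1 (not_lt.1 hle))
    have hcardJ : Cardinal.mk c.ord.ToType = Cardinal.mk G := by
      rw [Cardinal.mk_ord_toType, hcard]
    obtain ⟨e⟩ := Cardinal.eq.1 hcardJ
    refine t10_glue hG (fun j : c.ord.ToType => Subgroup.closure (e '' Set.Iic j)) ?_ ?_ ?_
    · intro i j hij
      exact Subgroup.closure_mono (Set.image_mono (Set.Iic_subset_Iic.2 hij))
    · intro g
      exact ⟨e.symm g, Subgroup.subset_closure ⟨e.symm g, by simp, by simp⟩⟩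
    · intro j
      have hlt : Cardinal.mk (Subgroup.closure (e '' Set.Iic j)) < c := by
        apply t10_mk_closure _ _ hc
        refine (Cardinal.mk_image_le).trans_lt ?_
        rw [← Set.Iio_insert]
        refine (Cardinal.mk_insert_le).trans_lt ?_
        exact Cardinal.add_lt_of_lt hc.le (by simpa using Cardinal.mk_Iio_lt j (by simp))
          (Cardinal.one_lt_aleph0.trans hc)
      exact ih _ hlt (Subgroup.closure (e '' Set.Iic j)) rfl (fun hr => hG (res_of_subgroup _ hr))

/-- T10 (main structure theorem) -/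
theorem main_struct (hG : ¬ Res G) :
    (∀ k : G, ∀ᶠ w in 𝓝 (1 : G), w * k = k * w) ∧ (∀ᶠ w in 𝓝 (1 : G), w * w = 1) ∧
      ∃ V ∈ 𝓝 (1 : G), V.Countable :=
  t10_main _ G rfl hG

/-- T11 (Q1) -/
theorem Q1 (hC : ∀ H : Subgroup G, IsOpen (H : Set G) → ¬ (Countable H ∧ ∀ x ∈ H, x ^ 2 = 1)) :
    ∃ A B : Set G, Dense A ∧ Dense B ∧ Disjoint A B ∧ A ∪ B = univ := by
  by_cases hG : Res G
  · obtain ⟨A, hA, hA'⟩ := hG
    exact ⟨A, Aᶜ, hA, hA', disjoint_compl_right, union_compl_self A⟩
  · exfalso
    obtain ⟨_, hinv, V, hV, hVc⟩ := main_struct hG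
    obtain ⟨W, hW, hWb⟩ := t10_boolean hinv
    have hmem : W ∩ V ∈ 𝓝 (1 : G) := inter_mem hW hV
    refine hC (Subgroup.closure (W ∩ V))
      (Subgroup.isOpen_of_mem_nhds _ (mem_of_superset hmem Subgroup.subset_closure)) ⟨?_, ?_⟩
    · have hcV : Countable (W ∩ V : Set G) := (hVc.mono inter_subset_right).to_subtype
      rw [← Cardinal.mk_le_aleph0_iff]
      have h1 : Cardinal.mk (Subgroup.closure (W ∩ V)) < Order.succ Cardinal.aleph0 :=
        t10_mk_closure _ _ (Order.lt_succ _) (Order.lt_succ_iff.2 Cardinal.mk_le_aleph0)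
      exact Order.lt_succ_iff.1 h1
    · intro x hx
      rw [pow_two]
      exact hWb x (Subgroup.closure_mono inter_subset_left hx)


end

end Pool.Agent.Irr008583
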