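import Pool.Agent.Lib.MP_008583_gt.Small

/-!
A filtration of a group of regular uncountable cardinality by small subgroups, written as a
level function.
-/

universe u

open Cardinal Set

namespace Pool.Agent.Resolv

/-- `lev` is a level function on the group `G`: the sets `{x | lev x ≤ a}` are small subgroups,
and only `1` has level `⊥`. -/
structure IsLev {G L : Type u} [Group G] [LinearOrder L] [OrderBot L] (lev : G → L) : Prop where
  eq_bot : ∀ x, lev x = ⊥ ↔ x = 1
  mul : ∀ x y, lev (x * y) ≤ max (lev x) (lev y)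
  inv : ∀ x, lev x⁻¹ = lev x
  small : ∀ a, Sm {x | lev x ≤ a}

lemma mk_closure_lt {G : Type u} [Group G] {c : Cardinal.{u}} (hc : ℵ₀ < c) {S : Set G}
    (hS : #S < c) : #(Subgroup.closure S : Set G) < c := by
  rcases S.eq_empty_or_nonempty with rfl | hne
  · have h1 : (Subgroup.closure (∅ : Set G) : Set G) = {1} := by simp
    rw [h1, mk_singleton]
    exact one_lt_aleph0.trans hc
  · have : Nonempty S := hne.to_subtype
    have h1 : (Subgroup.closure S : Set G)
        = Set.range (FreeGroup.lift ((↑) : S → G)) := by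
      rw [FreeGroup.closure_eq_range]
      rfl
    rw [h1]
    refine lt_of_le_of_lt mk_range_le ?_
    rw [mk_freeGroup]
    exact max_lt hS hc

lemma mk_Iic_lt_of_le {c : Cardinal.{u}} (hc : ℵ₀ ≤ c) (a : c.ord.ToType) :
    #{b : c.ord.ToType | b ≤ a} < c := by
  have := Cardinal.noMaxOrder hc
  obtain ⟨b, hb⟩ := exists_gt a
  have h1 : {b : c.ord.ToType | b ≤ a} ⊆ Iio b := fun x hx => lt_of_le_of_lt hx hb
  have h2 : #(Iio b) < #(c.ord.ToType) := mk_Iio_lt b (by simp)
  rw [mk_ord_toType] at h2
  exact lt_of_le_of_lt (mk_le_mk_of_subset h1) h2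

theorem exists_lev (G : Type u) [Group G] (hG : (#G).IsRegular) (hG' : ℵ₀ < #G) :
    ∃ lev : G → WithBot (#G).ord.ToType, IsLev lev := by
  classical
  obtain ⟨e⟩ : Nonempty (G ≃ (#G).ord.ToType) := Cardinal.eq.1 (mk_ord_toType _).symm
  let H : (#G).ord.ToType → Subgroup G := fun a => Subgroup.closure {y | e y ≤ a}
  have hHmono : Monotone H := by
    intro a b hab
    apply Subgroup.closure_mono
    intro y hy
    exact le_trans hy hab
  have hHsmall : ∀ a, #(H a : Set G) < #G := by
    intro a
    apply mk_closure_lt hG'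
    have h1 : #({y | e y ≤ a} : Set G) = #{b : (#G).ord.ToType | b ≤ a} := by
      apply Cardinal.mk_congr
      exact e.subtypeEquiv (fun y => Iff.rfl)
    rw [h1]
    exact mk_Iic_lt_of_le hG.aleph0_le a
  have hex : ∀ x, ∃ a, x ∈ H a := fun x => ⟨e x, Subgroup.subset_closure (le_refl (e x))⟩
  let wf : WellFounded ((· < ·) : (#G).ord.ToType → (#G).ord.ToType → Prop) := wellFounded_lt
  let lev : G → WithBot (#G).ord.ToType := fun x =>
    if x = 1 then ⊥ else ((wf.min {a | x ∈ H a} (hex x) : (#G).ord.ToType) : WithBot _)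
  have hlev : ∀ x (a : (#G).ord.ToType), lev x ≤ (a : WithBot _) ↔ x ∈ H a := by
    intro x a
    by_cases hx : x = 1
    · simp only [lev, hx, if_true, bot_le, true_iff]
      exact one_mem _
    · simp only [lev, hx, if_false, WithBot.coe_le_coe]
      constructor
      · intro h
        exact hHmono h (wf.min_mem {a | x ∈ H a} (hex x))
      · intro h
        exact not_lt.1 (wf.not_lt_min {a | x ∈ H a} h)
  have hbot : ∀ x, lev x = ⊥ ↔ x = 1 := by
    intro x
    by_cases hx : x = 1
    · simp [lev, hx]
    · simp [lev, hx]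
  have hinv : ∀ x, lev x⁻¹ ≤ lev x := by
    intro x
    rcases h : lev x with _ | a
    · have h0 : lev x = ⊥ := h
      rw [hbot] at h0
      have : lev x⁻¹ = ⊥ := by
        rw [hbot, h0, inv_one]
      rw [this]
      exact bot_le
    · have h1 : lev x ≤ (a : WithBot _) := le_of_eq h
      rw [hlev] at h1
      exact (hlev _ _).2 (inv_mem h1)
  refine ⟨lev, hbot, ?_, ?_, ?_⟩
  · intro x y
    rcases h : max (lev x) (lev y) with _ | a
    · have h0 : max (lev x) (lev y) = ⊥ := h
      rw [max_eq_bot] at h0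
      obtain ⟨h1, h2⟩ := h0
      rw [hbot] at h1 h2
      have : lev (x * y) = ⊥ := by
        rw [hbot, h1, h2, mul_one]
      rw [this]
      exact bot_le
    · have h1 : max (lev x) (lev y) ≤ (a : WithBot _) := le_of_eq h
      rw [max_le_iff, hlev, hlev] at h1
      exact (hlev _ _).2 (mul_mem h1.1 h1.2)
  · intro x
    refine le_antisymm (hinv x) ?_
    have := hinv x⁻¹
    rwa [inv_inv] at this
  · intro a
    rcases a with _ | a
    · refine (sm_singleton hG (1 : G)).mono ?_
      intro x hx
      have h0 : lev x = ⊥ := le_bot_iff.1 hx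
      rw [hbot] at h0
      exact h0
    · have h1 : {x | lev x ≤ (a : WithBot _)} = (H a : Set G) := by
        ext x
        exact hlev x a
      have h2 : Sm (H a : Set G) := hHsmall a
      rw [← h1] at h2
      exact h2

section

variable {G L : Type u} [Group G] [LinearOrder L] [OrderBot L] {lev : G → L}

lemma IsLev.one (h : IsLev lev) : lev 1 = ⊥ := (h.eq_bot 1).2 rfl

lemma IsLev.mul_of_lt (h : IsLev lev) {x y : G} (hxy : lev x < lev y) :
    lev (x * y) = lev y := by
  apply le_antisymm
  · exact (h.mul x y).trans (max_le hxy.le le_rfl)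
  · by_contra hcon
    rw [not_le] at hcon
    have h1 : lev y ≤ max (lev x⁻¹) (lev (x * y)) := by
      have := h.mul x⁻¹ (x * y)
      rwa [inv_mul_cancel_left] at this
    rw [h.inv] at h1
    exact absurd h1 (not_le.2 (max_lt hxy hcon))

lemma IsLev.mul_of_lt' (h : IsLev lev) {x y : G} (hxy : lev y < lev x) :
    lev (x * y) = lev x := by
  rw [← h.inv (x * y), mul_inv_rev, ← h.inv x]
  apply h.mul_of_lt
  rw [h.inv, h.inv]
  exact hxy

lemma IsLev.ne_one_of_lt (h : IsLev lev) {x y : G} (hxy : lev x < lev y) : y ≠ 1 := by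
  rintro rfl
  rw [h.one] at hxy
  exact not_lt_bot hxy

end

end Pool.Agent.Resolv
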