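import Pool.Agent.Lib.MP_008583_gt.Stage

/-!
The main combinatorial theorem: a colouring of the group with countably many colours such that
every left translate of a suitable power of every big set contains every colour.
-/

universe u

open Cardinal Set
open scoped Pointwise

namespace Pool.Agent.Resolv

variable {G L Ξ : Type u} [Group G] [LinearOrder L] [OrderBot L] [WellFoundedLT L]
  [LinearOrder Ξ] [WellFoundedLT Ξ] {lev : G → L} {R : G → Ξ → Bool}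

/-- The number of first differences of `R x` with the orbit of `x`, where `R x` has value
`true`. -/
noncomputable def Nn (lev : G → L) (R : G → Ξ → Bool) (x : G) : ℕ :=
  {ξ | ξ ∈ Dv lev R x (R x) ∧ R x ξ = true}.ncard

/-- The inductive claim in the proof of the main theorem. -/
def Claim (lev : G → L) (R : G → Ξ → Bool) (V Yf : Set G) (g : G) (l : ℕ → G) (F : ℕ → Set Ξ)
    (M : ℕ) (ξs : Ξ) (q k : ℕ) : Prop :=
  ∃ p ∈ V ^ q, ∃ Z ⊆ Yf, Bg Z ∧ ∃ E : Set Ξ, E.Finite ∧ (∀ ξ ∈ E, ξs < ξ) ∧ ∀ z ∈ Z,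
    Dv lev R (g * p * l (M + 1 - q)) (R z) = Dv lev R (g * l (M + 1)) (R z) ∪
      {ξ | ∃ j, M + 1 - q ≤ j ∧ j < M + 1 ∧ ξ ∈ F j} ∪ E ∧
    {δ ∈ E | R z δ = true}.ncard = k

omit [WellFoundedLT L] in
lemma claim_step (hG : (#G).IsRegular) (h : IsLev lev) (hR : IsR lev R)
    {V Yf : Set G} (hYV : Yf ⊆ V) {g : G} {l : ℕ → G} {n : ℕ → ℕ} {F : ℕ → Set Ξ} {M : ℕ}
    (hst : ∀ j < M + 1, Stage lev R Yf (l j) (n j) (l (j + 1)) (F j)) {ξs : Ξ}
    (hξs : ∀ j < M + 1, ∀ ξ ∈ F j, ξ ≤ ξs) {q k : ℕ} (hq : q + 1 ≤ M)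
    (hc : Claim lev R V Yf g l F M ξs q k) (b : Bool) :
    Claim lev R V Yf g l F M ξs (q + 1) (k + b.toNat) := by
  classical
  obtain ⟨p, hp, Z, hZ, hbZ, E, hE, hEξ, hz⟩ := hc
  have : Nonempty Ξ := ⟨ξs⟩
  obtain ⟨ξ₁, hξ₁⟩ := (hE.insert ξs).bddAbove
  have hξs₁ : ξs ≤ ξ₁ := hξ₁ (mem_insert _ _)
  have hEξ₁ : ∀ ξ ∈ E, ξ ≤ ξ₁ := fun ξ hξ => hξ₁ (mem_insert_of_mem _ hξ)
  obtain ⟨s₁, hb₁⟩ := hR.T1 Z ξ₁ hbZ
  obtain ⟨δ, s, hb⟩ := hR.T2 _ hb₁
  have hδ : ξ₁ < δ := by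
    by_contra hcon
    rw [not_lt] at hcon
    obtain ⟨z₀, hz₀⟩ := (hb false).nonempty hG
    obtain ⟨z₁, hz₁⟩ := (hb true).nonempty hG
    have e0 := hz₀.1.2 δ hcon
    have e1 := hz₁.1.2 δ hcon
    rw [hz₀.2.2] at e0
    rw [hz₁.2.2] at e1
    rw [← e0] at e1
    exact Bool.noConfusion e1
  -- the stage to use
  set j := M - q with hj
  have hj1 : M + 1 - q = j + 1 := by omega
  have hj2 : M + 1 - (q + 1) = j := by omega
  have hjM : j < M + 1 := by omega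
  have hs := hst j hjM
  have hbad : Sm ({y ∈ Yf | ∃ i < n j, lev ((Dop lev)^[i] (y * l j)) ≤ lev (g * p)} ∪
      ({y | lev y ≤ lev (l j)} ∪
      {y ∈ Yf | ∃ ξ' ≤ δ, ξ' ∉ F j ∧ ξ' ∈ DvB lev R (y * l j) (n j) (R y)})) :=
    sm_union hG (hs.high _) (sm_union hG (h.small _) (hs.thin _))
  obtain ⟨y, ⟨hyZ₁, hylt, hyδ⟩, hybad⟩ := ((hb (!b)).diff hG hbad).nonempty hG
  have hyZ : y ∈ Z := hyZ₁.1
  have hyYf : y ∈ Yf := hZ hyZ
  have hy1 : ∀ i < n j, lev (g * p) < lev ((Dop lev)^[i] (y * l j)) := by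
    intro i hi
    by_contra hcon
    rw [not_lt] at hcon
    exact hybad (Or.inl ⟨hyYf, i, hi, hcon⟩)
  have hy2 : lev (l j) < lev y := by
    by_contra hcon
    rw [not_lt] at hcon
    exact hybad (Or.inr (Or.inl hcon))
  have hy3 : ∀ ξ, ξ ≤ δ → ξ ∉ F j → ξ ∉ DvB lev R (y * l j) (n j) (R y) := by
    intro ξ h1 h2 h3
    exact hybad (Or.inr (Or.inr ⟨hyYf, ξ, h1, h2, h3⟩))
  refine ⟨p * y, ?_, {z | (z ∈ Z ∧ ∀ η ≤ ξ₁, R z η = s₁ η) ∧ (∀ η < δ, R z η = s η) ∧ R z δ = b},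
    fun z hz' => hZ hz'.1.1, hb b, insert δ E, hE.insert _, ?_, ?_⟩
  · rw [pow_succ]
    exact Set.mul_mem_mul hp (hYV hyYf)
  · intro ξ hξ
    rcases hξ with rfl | hξ
    · exact lt_of_le_of_lt hξs₁ hδ
    · exact hEξ ξ hξ
  · rintro z ⟨⟨hzZ, hz1⟩, hzlt, hzδ⟩
    obtain ⟨hDv, hcard⟩ := hz z hzZ
    have hFD : FD (R y) (R z) δ := by
      refine ⟨fun η hη => (hylt η hη).trans (hzlt η hη).symm, ?_⟩
      rw [hyδ, hzδ]
      cases b <;> simp
    have hFδ : ∀ ξ ∈ F j, ξ < δ := fun ξ hξ =>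
      lt_of_le_of_lt ((hξs j hjM ξ hξ).trans hξs₁) hδ
    have hDvB := hs.dvB_eq hR h hyYf hy2 hFD hFδ hy3
    constructor
    · rw [hj2]
      have hmul : g * (p * y) * l j = (g * p) * (y * l j) := by simp only [mul_assoc]
      rw [hmul, Dv_mul h hR.dep hy1 (hs.iter y hyYf), hDvB]
      rw [hj1] at hDv
      rw [hDv]
      ext ξ
      simp only [mem_union, mem_insert_iff, mem_ofPred_eq]
      constructor
      · rintro ((rfl | h1) | ((h1 | ⟨i, hi1, hi2, hi3⟩) | h1))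
        · exact Or.inr (Or.inl rfl)
        · exact Or.inl (Or.inr ⟨j, le_rfl, hjM, h1⟩)
        · exact Or.inl (Or.inl h1)
        · exact Or.inl (Or.inr ⟨i, by omega, hi2, hi3⟩)
        · exact Or.inr (Or.inr h1)
      · rintro ((h1 | ⟨i, hi1, hi2, hi3⟩) | (rfl | h1))
        · exact Or.inr (Or.inl (Or.inl h1))
        · by_cases hij : i = j
          · subst hij
            exact Or.inl (Or.inr hi3)
          · exact Or.inr (Or.inl (Or.inr ⟨i, by omega, hi2, hi3⟩))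
        · exact Or.inl (Or.inl rfl)
        · exact Or.inr (Or.inr h1)
    · have hδE : δ ∉ E := fun hmem => absurd (hEξ₁ δ hmem) (not_le.2 hδ)
      cases b with
      | false =>
        have : {δ' ∈ insert δ E | R z δ' = true} = {δ ∈ E | R z δ = true} := by
          ext ξ
          simp only [mem_insert_iff, mem_ofPred_eq]
          constructor
          · rintro ⟨rfl | h1, h2⟩
            · rw [hzδ] at h2
              exact absurd h2 (by simp)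
            · exact ⟨h1, h2⟩
          · rintro ⟨h1, h2⟩
            exact ⟨Or.inr h1, h2⟩
        rw [this, hcard]
        rfl
      | true =>
        have : {δ' ∈ insert δ E | R z δ' = true} = insert δ {δ ∈ E | R z δ = true} := by
          ext ξ
          simp only [mem_insert_iff, mem_ofPred_eq]
          constructor
          · rintro ⟨rfl | h1, h2⟩
            · exact Or.inl rfl
            · exact Or.inr ⟨h1, h2⟩
          · rintro (rfl | ⟨h1, h2⟩)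
            · exact ⟨Or.inl rfl, hzδ⟩
            · exact ⟨Or.inr h1, h2⟩
        rw [this, Set.ncard_insert_of_notMem (fun hmem => hδE hmem.1)
          (hE.subset (fun x hx => hx.1)), hcard]
        rfl

omit [WellFoundedLT L] in
lemma claim_all (hG : (#G).IsRegular) (h : IsLev lev) (hR : IsR lev R)
    {V Yf : Set G} (hYV : Yf ⊆ V) (hbig : Bg Yf) {g : G} {l : ℕ → G} {n : ℕ → ℕ}
    {F : ℕ → Set Ξ} {M : ℕ}
    (hst : ∀ j < M + 1, Stage lev R Yf (l j) (n j) (l (j + 1)) (F j)) {ξs : Ξ}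
    (hξs : ∀ j < M + 1, ∀ ξ ∈ F j, ξ ≤ ξs) :
    ∀ q ≤ M, ∀ k ≤ q, Claim lev R V Yf g l F M ξs q k := by
  intro q
  induction q with
  | zero =>
    intro _ k hk
    have hk0 : k = 0 := by omega
    subst hk0
    refine ⟨1, by simp, Yf, Subset.rfl, hbig, ∅, Set.finite_empty, by simp, ?_⟩
    intro z _
    constructor
    · rw [mul_one, Nat.sub_zero]
      have : {ξ | ∃ j, M + 1 ≤ j ∧ j < M + 1 ∧ ξ ∈ F j} = (∅ : Set Ξ) := by
        ext ξ
        simp only [mem_ofPred_eq, mem_empty_iff_false, iff_false]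
        rintro ⟨j, h1, h2, -⟩
        omega
      rw [this, union_empty, union_empty]
    · simp
  | succ q ih =>
    intro hq k hk
    rcases Nat.eq_zero_or_pos k with h0 | hpos
    · subst h0
      exact claim_step hG h hR hYV hst hξs hq (ih (by omega) 0 (Nat.zero_le _)) false
    · obtain ⟨k', rfl⟩ : ∃ k', k = k' + 1 := ⟨k - 1, by omega⟩
      exact claim_step hG h hR hYV hst hξs hq (ih (by omega) k' (by omega)) true

/-- The counting lemma. -/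
theorem exists_count (hG : (#G).IsRegular) (hG' : ℵ₀ < #G) (h : IsLev lev) (hR : IsR lev R)
    (g : G) {V : Set G} (hV : Bg V) (M : ℕ) :
    ∃ C : ℕ, ∀ k ≤ M, ∃ v ∈ V ^ (M + 1), Nn lev R (g * v) = C + k := by
  classical
  obtain ⟨Y, hYV, hbY, l, n, F, hl, hst⟩ := exists_stages hG hG' h hR hV (M + 1)
  let W : G → Set Ξ := fun y => DvB lev R (y * l 0) (n 0) (R y) ∪ Dv lev R (g * l (M + 1)) (R y)
  have hW : ∀ y, (W y).Finite := fun y => (DvB_finite _ _ _).union (Dv_finite h _ _)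
  obtain ⟨Y', hY', hbY', F', hF', hsub', hthin'⟩ := exists_thin hG hG' hR.small hbY W hW
  have hne : Nonempty Ξ := by
    obtain ⟨δ, -, -⟩ := hR.T2 _ hbY'
    exact ⟨δ⟩
  -- an upper bound of all the roots
  have hfinF : (⋃ j ∈ Iio (M + 1), F j).Finite :=
    (Set.finite_Iio _).biUnion (fun j hj => (hst j hj).fin)
  obtain ⟨ξs, hξs⟩ := (hF'.union hfinF).bddAbove
  have hξF : ∀ j < M + 1, ∀ ξ ∈ F j, ξ ≤ ξs := by
    intro j hj ξ hξ
    exact hξs (Or.inr (mem_biUnion (x := j) hj hξ))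
  have hξF' : ∀ ξ ∈ F', ξ ≤ ξs := fun ξ hξ => hξs (Or.inl hξ)
  obtain ⟨s, hbs⟩ := hR.T1 Y' ξs hbY'
  obtain ⟨C₂, hb₂⟩ := pig_nat hG hG' hbs (fun y => {ξ ∈ W y \ F' | R y ξ = true}.ncard)
  set Yf := {y ∈ {y ∈ Y' | ∀ η ≤ ξs, R y η = s η} | {ξ ∈ W y \ F' | R y ξ = true}.ncard = C₂}
    with hYf
  have hYfY' : Yf ⊆ Y' := fun y hy => hy.1.1
  have hYfY : Yf ⊆ Y := hYfY'.trans hY'
  have hst' : ∀ j < M + 1, Stage lev R Yf (l j) (n j) (l (j + 1)) (F j) :=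
    fun j hj => (hst j hj).mono hYfY
  let A : Set Ξ := F' ∪ {ξ | ∃ j, 1 ≤ j ∧ j < M + 1 ∧ ξ ∈ F j}
  have hAfin : A.Finite := by
    refine hF'.union (hfinF.subset ?_)
    rintro ξ ⟨j, -, hj, hξ⟩
    exact mem_biUnion (x := j) hj hξ
  have hAξ : ∀ ξ ∈ A, ξ ≤ ξs := by
    rintro ξ (hξ | ⟨j, -, hj, hξ⟩)
    · exact hξF' ξ hξ
    · exact hξF j hj ξ hξ
  refine ⟨{ξ ∈ A | s ξ = true}.ncard + C₂, ?_⟩
  intro k hk
  obtain ⟨p, hp, Z, hZ, hbZ, E, hE, hEξ, hz⟩ :=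
    claim_all (V := V) (g := g) hG h hR (hYfY.trans hYV) hb₂ hst' hξF M le_rfl k hk
  obtain ⟨ξ₁, hξ₁⟩ := (hE.insert ξs).bddAbove
  have hξs₁ : ξs ≤ ξ₁ := hξ₁ (mem_insert _ _)
  have hEξ₁ : ∀ ξ ∈ E, ξ ≤ ξ₁ := fun ξ hξ => hξ₁ (mem_insert_of_mem _ hξ)
  have hs0 := hst' 0 (Nat.succ_pos M)
  have hbad : Sm ({y ∈ Yf | ∃ i < n 0, lev ((Dop lev)^[i] (y * l 0)) ≤ lev (g * p)} ∪
      {y ∈ Y' | ∃ ξ' ≤ ξ₁, ξ' ∉ F' ∧ ξ' ∈ W y}) :=
    sm_union hG (hs0.high _) (hthin' _)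
  obtain ⟨z, hzZ, hzbad⟩ := (hbZ.diff hG hbad).nonempty hG
  have hzYf : z ∈ Yf := hZ hzZ
  have hz1 : ∀ i < n 0, lev (g * p) < lev ((Dop lev)^[i] (z * l 0)) := by
    intro i hi
    by_contra hcon
    rw [not_lt] at hcon
    exact hzbad (Or.inl ⟨hzYf, i, hi, hcon⟩)
  have hz2 : ∀ ξ, ξ ∉ F' → ξ ∈ W z → ξ₁ < ξ := by
    intro ξ h2 h3
    by_contra hcon
    rw [not_lt] at hcon
    exact hzbad (Or.inr ⟨hYfY' hzYf, ξ, hcon, h2, h3⟩)
  have hlevz : lev (g * p) < lev z := by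
    have := hz1 0 hs0.npos
    rwa [Function.iterate_zero, id, hl, mul_one] at this
  have hRz : R (g * (p * z)) = R z := by
    rw [← mul_assoc]
    exact hR.dep _ _ (h.mul_of_lt hlevz)
  refine ⟨p * z, ?_, ?_⟩
  · rw [pow_succ]
    exact Set.mul_mem_mul hp (hYV (hYfY hzYf))
  · obtain ⟨hDv, hcard⟩ := hz z hzZ
    have hMM : M + 1 - M = 0 + 1 := by omega
    rw [hMM] at hDv
    have hDv2 : Dv lev R (g * (p * z)) (R z) = W z ∪
        {ξ | ∃ j, 1 ≤ j ∧ j < M + 1 ∧ ξ ∈ F j} ∪ E := by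
      have hmul : g * (p * z) = (g * p) * (z * l 0) := by
        rw [hl, mul_one, mul_assoc]
      rw [hmul, Dv_mul h hR.dep hz1 (hs0.iter z hzYf), hDv]
      ext ξ
      simp only [W, mem_union, mem_ofPred_eq, Nat.zero_add]
      constructor
      · rintro (h1 | (h1 | h1) | h1)
        · exact Or.inl (Or.inl (Or.inl h1))
        · exact Or.inl (Or.inl (Or.inr h1))
        · exact Or.inl (Or.inr h1)
        · exact Or.inr h1
      · rintro (((h1 | h1) | h1) | h1)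
        · exact Or.inl h1
        · exact Or.inr (Or.inl (Or.inl h1))
        · exact Or.inr (Or.inl (Or.inr h1))
        · exact Or.inr (Or.inr h1)
    have hset : {ξ | ξ ∈ Dv lev R (g * (p * z)) (R (g * (p * z))) ∧
          R (g * (p * z)) ξ = true} =
        ({ξ ∈ A | s ξ = true} ∪ {ξ ∈ W z \ F' | R z ξ = true}) ∪ {δ ∈ E | R z δ = true} := by
      rw [hRz, hDv2]
      ext ξ
      simp only [A, mem_union, mem_ofPred_eq, mem_sdiff]
      have hsξ : ∀ ξ ≤ ξs, R z ξ = s ξ := hzYf.1.2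
      constructor
      · rintro ⟨(h1 | h1) | h1, h2⟩
        · by_cases h3 : ξ ∈ F'
          · refine Or.inl (Or.inl ⟨Or.inl h3, ?_⟩)
            rw [← hsξ ξ (hξF' ξ h3)]
            exact h2
          · exact Or.inl (Or.inr ⟨⟨h1, h3⟩, h2⟩)
        · refine Or.inl (Or.inl ⟨Or.inr h1, ?_⟩)
          rw [← hsξ ξ (hAξ ξ (Or.inr h1))]
          exact h2
        · exact Or.inr ⟨h1, h2⟩
      · rintro ((⟨h1, h2⟩ | ⟨⟨h1, h3⟩, h2⟩) | ⟨h1, h2⟩)
        · rw [← hsξ ξ (hAξ ξ h1)] at h2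
          refine ⟨Or.inl ?_, h2⟩
          rcases h1 with h1 | h1
          · exact Or.inl (hsub' z (hYfY' hzYf) h1)
          · exact Or.inr h1
        · exact ⟨Or.inl (Or.inl h1), h2⟩
        · exact ⟨Or.inr h1, h2⟩
    have hfin1 : {ξ ∈ A | s ξ = true}.Finite := by
      refine hAfin.subset ?_
      rintro x ⟨hx, -⟩
      exact hx
    have hfin2 : {ξ ∈ W z \ F' | R z ξ = true}.Finite := by
      refine (hW z).subset ?_
      rintro x ⟨⟨hx, -⟩, -⟩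
      exact hx
    have hfin3 : {δ ∈ E | R z δ = true}.Finite := by
      refine hE.subset ?_
      rintro x ⟨hx, -⟩
      exact hx
    have hdis1 : Disjoint {ξ ∈ A | s ξ = true} {ξ ∈ W z \ F' | R z ξ = true} := by
      rw [Set.disjoint_left]
      rintro ξ ⟨h1, -⟩ ⟨⟨h2, h3⟩, -⟩
      exact absurd (hAξ ξ h1) (not_le.2 (lt_of_le_of_lt hξs₁ (hz2 ξ h3 h2)))
    have hdis2 : Disjoint ({ξ ∈ A | s ξ = true} ∪ {ξ ∈ W z \ F' | R z ξ = true})
        {δ ∈ E | R z δ = true} := by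
      rw [Set.disjoint_left]
      rintro ξ (⟨h1, -⟩ | ⟨⟨h2, h3⟩, -⟩) ⟨h4, -⟩
      · exact absurd (hAξ ξ h1) (not_le.2 (hEξ ξ h4))
      · exact absurd (hEξ₁ ξ h4) (not_le.2 (hz2 ξ h3 h2))
    have hC₂ : {ξ ∈ W z \ F' | R z ξ = true}.ncard = C₂ := hzYf.2
    unfold Nn
    rw [hset, Set.ncard_union_eq hdis2 (hfin1.union hfin2) hfin3,
      Set.ncard_union_eq hdis1 hfin1 hfin2, hcard, hC₂]

lemma exists_residue (C γ : ℕ) : ∃ k ≤ 2 ^ (γ + 1), ∃ t, C + k = 2 ^ γ * (2 * t + 1) := by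
  classical
  have hex : ∃ t, C ≤ 2 ^ γ * (2 * t + 1) := by
    refine ⟨C, ?_⟩
    have : 1 ≤ 2 ^ γ := Nat.one_le_two_pow
    nlinarith
  have hspec := Nat.find_spec hex
  have hmin := fun m hm => Nat.find_min hex (m := m) hm
  generalize Nat.find hex = t at hspec hmin
  refine ⟨2 ^ γ * (2 * t + 1) - C, ?_, t, by omega⟩
  rcases Nat.eq_zero_or_pos t with h0 | hpos
  · subst h0
    rw [pow_succ]
    omega
  · obtain ⟨t', rfl⟩ : ∃ t', t = t' + 1 := ⟨t - 1, by omega⟩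
    have h1 := hmin t' (by omega)
    rw [not_le] at h1
    have h2 : 2 ^ γ * (2 * (t' + 1) + 1) = 2 ^ γ * (2 * t' + 1) + 2 ^ (γ + 1) := by
      rw [pow_succ]
      ring
    rw [h2]
    omega

lemma padicValNat_two_pow_mul_odd (γ t : ℕ) : padicValNat 2 (2 ^ γ * (2 * t + 1)) = γ := by
  have : Fact (Nat.Prime 2) := ⟨Nat.prime_two⟩
  rw [padicValNat.mul (by positivity) (by omega), padicValNat.prime_pow,
    padicValNat.eq_zero_of_not_dvd (by omega), add_zero]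

/-- The main combinatorial theorem, in terms of a level function and sequences. -/
theorem exists_colouring (hG : (#G).IsRegular) (hG' : ℵ₀ < #G) (h : IsLev lev)
    (hR : IsR lev R) :
    ∃ c : G → ℕ, ∀ γ : ℕ, ∃ m : ℕ, ∀ (g : G) (V : Set G), Bg V → ∃ v ∈ V ^ m, c (g * v) = γ := by
  refine ⟨fun x => padicValNat 2 (Nn lev R x), fun γ => ⟨2 ^ (γ + 1) + 1, ?_⟩⟩
  intro g V hV
  obtain ⟨C, hC⟩ := exists_count hG hG' h hR g hV (2 ^ (γ + 1))
  obtain ⟨k, hk, t, ht⟩ := exists_residue C γ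
  obtain ⟨v, hv, hN⟩ := hC k hk
  refine ⟨v, hv, ?_⟩
  simp only [hN, ht]
  exact padicValNat_two_pow_mul_odd γ t

end Pool.Agent.Resolv
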