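import Pool.Agent.Lib.MP_008583_gt.Main

/-!
Construction of the sequences `R` from a level function, when the cardinality of the group is
regular, uncountable and not weakly compact.
-/

universe u

open Cardinal Set
open scoped Pointwise

namespace Pool.Agent.Resolv

/-- The partition relation `κ → (κ)²₂`: every symmetric colouring of the pairs of elements of a
set of cardinality `κ` with two colours has a homogeneous set of cardinality `κ`. -/
def Arrow (κ : Cardinal.{u}) : Prop :=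
  ∀ (α : Type u) (c : α → α → Bool), #α = κ → (∀ a b, c a b = c b a) →
    ∃ (H : Set α) (i : Bool), #H = κ ∧ ∀ a ∈ H, ∀ b ∈ H, a ≠ b → c a b = i

section

variable {G Ξ : Type u} [LinearOrder Ξ] {R : G → Ξ → Bool}

lemma T1_of_pow_lt (hG : (#G).IsRegular) (hpow : ∀ ξ : Ξ, (2 : Cardinal.{u}) ^ #(Iic ξ) < #G)
    (Y : Set G) (ξ : Ξ) (hY : Bg Y) :
    ∃ s : Ξ → Bool, Bg {y ∈ Y | ∀ η ≤ ξ, R y η = s η} := by
  classical
  obtain ⟨a, -, ha⟩ := pig hG hY (T := (Set.univ : Set (Iic ξ → Bool))) (by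
    rw [mk_univ]
    have : #(Iic ξ → Bool) = 2 ^ #(Iic ξ) := by simp
    rw [this]
    exact hpow ξ) (fun y => fun η : Iic ξ => R y η) (fun y _ => mem_univ _)
  refine ⟨fun η => if h : η ≤ ξ then a ⟨η, h⟩ else false, ha.mono ?_⟩
  rintro y ⟨hy, h1⟩
  refine ⟨hy, ?_⟩
  intro η hη
  simp only [hη, dif_pos]
  rw [← h1]

/-- If the second splitting property fails for `Y` then there is a branch which almost all
sequences follow. -/
lemma exists_branch [WellFoundedLT Ξ] (hG : (#G).IsRegular)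
    (hT1 : ∀ (Y : Set G) (ξ : Ξ), Bg Y → ∃ s : Ξ → Bool, Bg {y ∈ Y | ∀ η ≤ ξ, R y η = s η})
    {Y : Set G} (hY : Bg Y)
    (hT2 : ¬ ∃ (δ : Ξ) (s : Ξ → Bool), ∀ b, Bg {y ∈ Y | (∀ η < δ, R y η = s η) ∧ R y δ = b}) :
    ∃ s : Ξ → Bool, ∀ ξ, Sm {y ∈ Y | ¬ ∀ η ≤ ξ, R y η = s η} := by
  classical
  -- uniqueness of big branches
  have huniq : ∀ (ξ : Ξ) (t t' : Ξ → Bool), Bg {y ∈ Y | ∀ η ≤ ξ, R y η = t η} →
      Bg {y ∈ Y | ∀ η ≤ ξ, R y η = t' η} → ∀ η ≤ ξ, t η = t' η := by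
    intro ξ t t' ht ht'
    by_contra hcon
    push Not at hcon
    obtain ⟨η, hη, hne⟩ := hcon
    have hne' : t ≠ t' := fun h0 => hne (by rw [h0])
    obtain ⟨δ, hδlt, hδne⟩ := exists_FD hne'
    have hδη : δ ≤ η := by
      by_contra hcon
      rw [not_le] at hcon
      exact hne (hδlt η hcon)
    have hδξ := hδη.trans hη
    apply hT2
    refine ⟨δ, t, ?_⟩
    intro b
    by_cases hb : b = t δ
    · refine ht.mono ?_
      rintro y ⟨hy, h1⟩
      refine ⟨hy, fun η hη => h1 η (hη.le.trans hδξ), ?_⟩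
      rw [h1 δ hδξ, hb]
    · refine ht'.mono ?_
      rintro y ⟨hy, h1⟩
      refine ⟨hy, fun η hη => ?_, ?_⟩
      · rw [h1 η (hη.le.trans hδξ), hδlt η hη]
      · rw [h1 δ hδξ]
        revert hb hδne
        cases b <;> cases t δ <;> cases t' δ <;> simp
  choose sx hsx using fun ξ => hT1 Y ξ hY
  let s : Ξ → Bool := fun ξ => sx ξ ξ
  have hcoh : ∀ ξ, ∀ η ≤ ξ, sx ξ η = s η := by
    intro ξ η hη
    refine huniq η (sx ξ) (sx η) ((hsx ξ).mono ?_) (hsx η) η le_rfl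
    rintro y ⟨hy, h1⟩
    exact ⟨hy, fun η' hη' => h1 η' (hη'.trans hη)⟩
  refine ⟨s, ?_⟩
  intro ξ
  by_contra hcon
  obtain ⟨t, ht⟩ := hT1 _ ξ hcon
  have h1 : ∀ η ≤ ξ, t η = sx ξ η := by
    refine huniq ξ t (sx ξ) (ht.mono ?_) (hsx ξ)
    rintro y ⟨⟨hy, -⟩, h1⟩
    exact ⟨hy, h1⟩
  obtain ⟨y, ⟨-, hy2⟩, hy3⟩ := ht.nonempty hG
  apply hy2
  intro η hη
  rw [hy3 η hη, h1 η hη, hcoh ξ η hη]

end

lemma mk_withBot_ord (c : Cardinal.{u}) (hc : ℵ₀ ≤ c) : #(WithBot c.ord.ToType) = c := by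
  have h1 : #(WithBot c.ord.ToType) = #(Option c.ord.ToType) := rfl
  rw [h1, mk_option, mk_ord_toType]
  exact add_one_eq hc

lemma mk_Iic_withBot_lt {c : Cardinal.{u}} (hc : ℵ₀ ≤ c) (a : WithBot c.ord.ToType) :
    #(Iic a) < c := by
  rcases a with _ | a
  · have : (Iic (⊥ : WithBot c.ord.ToType)) = {⊥} := by simp
    change #(Iic (⊥ : WithBot c.ord.ToType)) < c
    rw [this, mk_singleton]
    exact one_lt_aleph0.trans_le hc
  · have h1 : Iic (a : WithBot c.ord.ToType) ⊆ insert ⊥ ((↑) '' {b : c.ord.ToType | b ≤ a}) := by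
      intro x hx
      rcases x with _ | x
      · exact Or.inl rfl
      · exact Or.inr ⟨x, WithBot.coe_le_coe.1 hx, rfl⟩
    change #(Iic (a : WithBot c.ord.ToType)) < c
    refine (mk_le_mk_of_subset h1).trans_lt ?_
    refine mk_insert_le.trans_lt ?_
    exact add_lt_of_lt hc (mk_image_le.trans_lt (mk_Iic_lt_of_le hc a)) (one_lt_aleph0.trans_le hc)

section

variable {G : Type u} [Group G]

/-- Case A: `#G ≤ 2 ^ μ` for some `μ < #G`. -/
theorem exists_seq_A (hG : (#G).IsRegular) (hG' : ℵ₀ < #G)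
    {lev : G → WithBot (#G).ord.ToType} (h : IsLev lev)
    (hμ : ∃ μ < #G, #G ≤ 2 ^ μ) :
    ∃ (Ξ : Type u) (_ : LinearOrder Ξ) (_ : WellFoundedLT Ξ) (R : G → Ξ → Bool), IsR lev R := by
  classical
  -- take `μ` minimal
  have hex : ∃ μ : Cardinal.{u}, #G ≤ 2 ^ μ := ⟨_, hμ.choose_spec.2⟩
  let wf : WellFounded ((· < ·) : Cardinal.{u} → Cardinal.{u} → Prop) := wellFounded_lt
  set μ := wf.min {μ | #G ≤ 2 ^ μ} hex with hμdef
  have hμ1 : #G ≤ 2 ^ μ := wf.min_mem {μ | #G ≤ 2 ^ μ} hex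
  have hμ2 : ∀ ν < μ, 2 ^ ν < #G := by
    intro ν hν
    by_contra hcon
    rw [not_lt] at hcon
    exact wf.not_lt_min {μ | #G ≤ 2 ^ μ} hcon hν
  have hμ3 : μ < #G := by
    obtain ⟨ν, hν1, hν2⟩ := hμ
    refine lt_of_le_of_lt ?_ hν1
    exact not_lt.1 (wf.not_lt_min {μ | #G ≤ 2 ^ μ} hν2)
  have hμ4 : ℵ₀ ≤ μ := by
    by_contra hcon
    rw [not_le] at hcon
    have : (2 : Cardinal.{u}) ^ μ < ℵ₀ := power_lt_aleph0 (natCast_lt_aleph0) hcon
    exact absurd (hG'.trans_le hμ1) (not_lt.2 this.le)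
  have hcard : #(WithBot (#G).ord.ToType) ≤ #(μ.ord.ToType → Bool) := by
    rw [mk_withBot_ord _ hG.aleph0_le]
    have : #(μ.ord.ToType → Bool) = 2 ^ μ := by simp
    rw [this]
    exact hμ1
  obtain ⟨r⟩ := hcard
  have hT1 := T1_of_pow_lt (R := fun x => r (lev x)) hG
    (fun ξ : μ.ord.ToType => hμ2 _ (mk_Iic_lt_of_le hμ4 ξ))
  refine ⟨μ.ord.ToType, inferInstance, inferInstance, fun x => r (lev x), ?_, ?_, hT1, ?_⟩
  · intro x y hxy
    simp only [hxy]
  · intro ξ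
    exact (mk_Iic_lt_of_le hμ4 ξ).trans hμ3
  · intro Y hY
    by_contra hcon
    obtain ⟨s, hs⟩ := exists_branch hG hT1 hY hcon
    have hsm : Sm (⋃ ξ, {y ∈ Y | ¬ ∀ η ≤ ξ, r (lev y) η = s η}) := by
      apply sm_iUnion hG _ hs
      rw [mk_ord_toType]
      exact hμ3
    have hbig := hY.diff hG hsm
    obtain ⟨y₀, hy₀, hy₀'⟩ := hbig.nonempty hG
    apply hbig
    refine (h.small (lev y₀)).mono ?_
    rintro y ⟨hy, hy'⟩
    have key : ∀ y ∈ Y, y ∉ (⋃ ξ, {y ∈ Y | ¬ ∀ η ≤ ξ, r (lev y) η = s η}) → r (lev y) = s := by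
      intro y hy hy'
      funext η
      by_contra hne
      apply hy'
      rw [mem_iUnion]
      exact ⟨η, hy, fun h0 => hne (h0 η le_rfl)⟩
    have h1 : r (lev y) = r (lev y₀) := (key y hy hy').trans (key y₀ hy₀ hy₀').symm
    exact le_of_eq (r.injective h1)

/-- Case B: `#G` is a strong limit cardinal and the partition relation `#G → (#G)²₂` fails. -/
theorem exists_seq_B (hG : (#G).IsRegular) (hG' : ℵ₀ < #G)
    {lev : G → WithBot (#G).ord.ToType} (h : IsLev lev)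
    (hlim : ∀ μ < #G, 2 ^ μ < #G) (harr : ¬ Arrow (#G)) :
    ∃ (Ξ : Type u) (_ : LinearOrder Ξ) (_ : WellFoundedLT Ξ) (R : G → Ξ → Bool), IsR lev R := by
  classical
  unfold Arrow at harr
  push Not at harr
  obtain ⟨α, c₀, hα, hc₀, hhom₀⟩ := harr
  obtain ⟨e⟩ : Nonempty (WithBot (#G).ord.ToType ≃ α) :=
    Cardinal.eq.1 ((mk_withBot_ord _ hG.aleph0_le).trans hα.symm)
  let c : WithBot (#G).ord.ToType → WithBot (#G).ord.ToType → Bool := fun a b => c₀ (e a) (e b)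
  have hc : ∀ a b, c a b = c b a := fun a b => hc₀ _ _
  have hhom : ∀ (H : Set (WithBot (#G).ord.ToType)) (i : Bool), #H = #G →
      ¬ ∀ a ∈ H, ∀ b ∈ H, a ≠ b → c a b = i := by
    intro H i hH hcon
    obtain ⟨a, ha, b, hb, hab, hne⟩ := hhom₀ (e '' H) i (by
      rw [mk_image_eq e.injective, hH])
    obtain ⟨a, ha, rfl⟩ := ha
    obtain ⟨b, hb, rfl⟩ := hb
    exact hne (hcon a ha b hb (fun h0 => hab (by rw [h0])))
  have hT1 := T1_of_pow_lt (R := fun x ξ => c ξ (lev x)) hG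
    (fun ξ : WithBot (#G).ord.ToType => hlim _ (mk_Iic_withBot_lt hG.aleph0_le ξ))
  refine ⟨WithBot (#G).ord.ToType, inferInstance, inferInstance, fun x ξ => c ξ (lev x),
    ?_, ?_, hT1, ?_⟩
  · intro x y hxy
    simp only [hxy]
  · intro ξ
    exact mk_Iic_withBot_lt hG.aleph0_le ξ
  · intro Y hY
    by_contra hcon
    obtain ⟨s, hs⟩ := exists_branch hG hT1 hY hcon
    -- a maximal end-homogeneous set
    let r : G → G → Prop := fun y z =>
      lev y ≠ lev z ∧ (lev y < lev z → c (lev y) (lev z) = s (lev y))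
    obtain ⟨B, hBmax⟩ : ∃ B, Maximal (fun B : Set G => B ⊆ Y ∧ B.Pairwise r) B := by
      apply zorn_subset
      intro C hC hchain
      refine ⟨⋃₀ C, ⟨?_, ?_⟩, fun s hs => subset_sUnion_of_mem hs⟩
      · intro x hx
        obtain ⟨t, ht, hxt⟩ := hx
        exact (hC ht).1 hxt
      · rw [Set.pairwise_sUnion hchain.directedOn]
        intro t ht
        exact (hC ht).2
    have hBig : Bg B := by
      intro hsmB
      have hsm : Sm (⋃ y ∈ B, ({z ∈ Y | ¬ ∀ η ≤ lev y, c η (lev z) = s η} ∪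
          {z | lev z ≤ lev y})) := by
        apply sm_biUnion hG hsmB
        intro y _
        exact sm_union hG (hs (lev y)) (h.small _)
      obtain ⟨z, hz, hz'⟩ := (hY.diff hG hsm).nonempty hG
      have hz1 : ∀ y ∈ B, lev y < lev z ∧ c (lev y) (lev z) = s (lev y) := by
        intro y hy
        constructor
        · by_contra hcon
          rw [not_lt] at hcon
          exact hz' (mem_biUnion hy (Or.inr hcon))
        · by_contra hcon
          exact hz' (mem_biUnion hy (Or.inl ⟨hz, fun h0 => hcon (h0 _ le_rfl)⟩))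
      have hzB : z ∉ B := fun h0 => lt_irrefl _ (hz1 z h0).1
      have hins : insert z B ⊆ Y ∧ (insert z B).Pairwise r := by
        constructor
        · rw [insert_subset_iff]
          exact ⟨hz, hBmax.prop.1⟩
        · rw [Set.pairwise_insert]
          refine ⟨hBmax.prop.2, ?_⟩
          intro y hy _
          obtain ⟨h1, h2⟩ := hz1 y hy
          exact ⟨⟨h1.ne', fun h0 => absurd h0 (not_lt.2 h1.le)⟩, h1.ne, fun _ => h2⟩
      exact hzB (hBmax.le_of_ge hins (subset_insert z B) (mem_insert z B))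
    obtain ⟨i, -, hi⟩ := pig hG hBig (T := (Set.univ : Set (ULift.{u} Bool))) (by
      rw [mk_univ]
      have : #(ULift.{u} Bool) < ℵ₀ := by
        rw [lt_aleph0_iff_finite]
        infer_instance
      exact this.trans hG') (fun y => ULift.up (s (lev y))) (fun y _ => mem_univ _)
    apply hhom (lev '' {y ∈ B | ULift.up (s (lev y)) = i}) i.down
    · rw [mk_image_eq_of_injOn]
      · exact hi.mk_eq
      · rintro y ⟨hy, -⟩ z ⟨hz, -⟩ hyz
        by_contra hne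
        exact (hBmax.prop.2 hy hz hne).1 hyz
    · rintro _ ⟨y, ⟨hy, hy'⟩, rfl⟩ _ ⟨z, ⟨hz, hz'⟩, rfl⟩ hne
      have hyz : y ≠ z := fun h0 => hne (by rw [h0])
      rcases lt_or_gt_of_ne hne with hlt | hlt
      · rw [(hBmax.prop.2 hy hz hyz).2 hlt, ← hy']
      · rw [hc, (hBmax.prop.2 hz hy hyz.symm).2 hlt, ← hz']

/-- The combinatorial theorem for groups of regular uncountable cardinality which is not weakly
compact. -/
theorem exists_colouring' (hG : (#G).IsRegular) (hG' : ℵ₀ < #G)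
    (hwc : (∃ μ < #G, #G ≤ 2 ^ μ) ∨ ¬ Arrow (#G)) :
    ∃ c : G → ℕ, ∀ γ : ℕ, ∃ m : ℕ, ∀ (g : G) (V : Set G), #V = #G →
      ∃ v ∈ V ^ m, c (g * v) = γ := by
  obtain ⟨lev, h⟩ := exists_lev G hG hG'
  have key : ∃ (Ξ : Type u) (_ : LinearOrder Ξ) (_ : WellFoundedLT Ξ) (R : G → Ξ → Bool),
      IsR lev R := by
    by_cases hμ : ∃ μ < #G, #G ≤ 2 ^ μ
    · exact exists_seq_A hG hG' h hμ
    · have harr := hwc.resolve_left hμ
      push Not at hμ
      exact exists_seq_B hG hG' h hμ harr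
  obtain ⟨Ξ, _, _, R, hR⟩ := key
  obtain ⟨c, hc⟩ := exists_colouring hG hG' h hR
  refine ⟨c, fun γ => ?_⟩
  obtain ⟨m, hm⟩ := hc γ
  exact ⟨m, fun g V hV => hm g V (bg_of_mk_eq hV)⟩

end

end Pool.Agent.Resolv
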