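import Mathlib

/-!
Small and big subsets of a type `G` whose cardinality is regular and uncountable.
-/

universe u

open Cardinal Set

namespace Pool.Agent.Resolv

/-- `S` is small: it has fewer elements than `G`. -/
def Sm {G : Type u} (S : Set G) : Prop := #S < #G

/-- `S` is big: it is not small. -/
def Bg {G : Type u} (S : Set G) : Prop := ¬ Sm S

variable {G : Type u}

lemma Sm.mono {S T : Set G} (h : S ⊆ T) (hT : Sm T) : Sm S :=
  lt_of_le_of_lt (mk_le_mk_of_subset h) hT

lemma Bg.mono {S T : Set G} (h : S ⊆ T) (hS : Bg S) : Bg T := fun hT => hS (hT.mono h)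

lemma bg_of_mk_eq {S : Set G} (h : #S = #G) : Bg S := by
  intro hS
  unfold Sm at hS
  rw [h] at hS
  exact lt_irrefl _ hS

lemma Bg.mk_eq {S : Set G} (h : Bg S) : #S = #G :=
  le_antisymm (mk_set_le S) (not_lt.mp h)

lemma sm_empty (hG : (#G).IsRegular) : Sm (∅ : Set G) := by
  unfold Sm
  rw [mk_eq_zero]
  exact hG.pos

lemma Bg.nonempty (hG : (#G).IsRegular) {S : Set G} (h : Bg S) : S.Nonempty := by
  rw [nonempty_iff_ne_empty]
  rintro rfl
  exact h (sm_empty hG)

lemma sm_iUnion (hG : (#G).IsRegular) {α : Type u} (hα : #α < #G) {t : α → Set G}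
    (h : ∀ a, Sm (t a)) : Sm (⋃ a, t a) :=
  (card_iUnion_lt_iff_forall_of_isRegular hG hα).2 h

lemma sm_biUnion (hG : (#G).IsRegular) {α : Type u} {T : Set α} (hT : #T < #G) {t : α → Set G}
    (h : ∀ a ∈ T, Sm (t a)) : Sm (⋃ a ∈ T, t a) := by
  rw [biUnion_eq_iUnion]
  exact sm_iUnion hG hT (fun a => h a a.2)

lemma sm_union (hG : (#G).IsRegular) {S T : Set G} (hS : Sm S) (hT : Sm T) : Sm (S ∪ T) := by
  have : S ∪ T = ⋃ b : ULift.{u} Bool, (if b.down then S else T) := by
    ext x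
    simp only [mem_union, mem_iUnion, ULift.exists, Bool.exists_bool]
    simp [or_comm]
  rw [this]
  apply sm_iUnion hG
  · have : #(ULift.{u} Bool) < ℵ₀ := by
      rw [lt_aleph0_iff_finite]
      infer_instance
    exact this.trans_le hG.aleph0_le
  · rintro ⟨b⟩
    cases b
    · simpa using hT
    · simpa using hS

lemma Bg.diff (hG : (#G).IsRegular) {S T : Set G} (hS : Bg S) (hT : Sm T) : Bg (S \ T) := by
  intro h
  apply hS
  refine (sm_union hG h hT).mono ?_
  intro x hx
  by_cases hxT : x ∈ T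
  · exact Or.inr hxT
  · exact Or.inl ⟨hx, hxT⟩

/-- The pigeonhole principle: a function with fewer than `#G` values on a big set is constant on
a big subset. -/
lemma pig (hG : (#G).IsRegular) {α : Type u} {Y : Set G} (hY : Bg Y) {T : Set α} (hT : #T < #G)
    (f : G → α) (hf : ∀ y ∈ Y, f y ∈ T) : ∃ a ∈ T, Bg {y ∈ Y | f y = a} := by
  by_contra hcon
  push Not at hcon
  apply hY
  have h1 : Sm (⋃ a ∈ T, {y ∈ Y | f y = a}) := by
    apply sm_biUnion hG hT
    intro a ha
    exact not_not.mp (hcon a ha)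
  refine h1.mono ?_
  intro y hy
  rw [mem_iUnion₂]
  exact ⟨f y, hf y hy, hy, rfl⟩

/-- Countable version of the pigeonhole principle. -/
lemma pig_nat (hG : (#G).IsRegular) (hG' : ℵ₀ < #G) {Y : Set G} (hY : Bg Y) (f : G → ℕ) :
    ∃ a, Bg {y ∈ Y | f y = a} := by
  obtain ⟨a, -, ha⟩ := pig hG hY (T := (Set.univ : Set (ULift.{u} ℕ))) (by
    rw [mk_univ]
    simpa using hG') (fun y => ULift.up (f y)) (fun y _ => mem_univ _)
  refine ⟨a.down, ?_⟩
  refine ha.mono ?_
  rintro y ⟨hy, h⟩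
  refine ⟨hy, ?_⟩
  rw [← h]

lemma sm_singleton (hG : (#G).IsRegular) (x : G) : Sm ({x} : Set G) := by
  unfold Sm
  rw [mk_singleton]
  exact lt_of_lt_of_le one_lt_aleph0 hG.aleph0_le

lemma sm_subsingleton (hG : (#G).IsRegular) {S : Set G} (h : S.Subsingleton) : Sm S := by
  rcases h.eq_empty_or_singleton with rfl | ⟨x, rfl⟩
  · exact sm_empty hG
  · exact sm_singleton hG x

end Pool.Agent.Resolv
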