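import Pool.Agent.Lib.MP_008583_gt.Dop

/-!
Stages: big sets of elements whose `D`-orbits behave uniformly.
-/

universe u

open Cardinal Set

namespace Pool.Agent.Resolv

section

variable {G L Ξ : Type u} [Group G] [LinearOrder L] [OrderBot L] [LinearOrder Ξ]

/-- The sequences `R x` depend on the level of `x` only, initial segments of `Ξ` are small, and
two splitting properties hold. -/
structure IsR (lev : G → L) (R : G → Ξ → Bool) : Prop where
  dep : ∀ x y, lev x = lev y → R x = R y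
  small : ∀ ξ : Ξ, #(Iic ξ) < #G
  T1 : ∀ (Y : Set G) (ξ : Ξ), Bg Y → ∃ s : Ξ → Bool, Bg {y ∈ Y | ∀ η ≤ ξ, R y η = s η}
  T2 : ∀ Y : Set G, Bg Y → ∃ (δ : Ξ) (s : Ξ → Bool),
    ∀ b, Bg {y ∈ Y | (∀ η < δ, R y η = s η) ∧ R y δ = b}

/-- Uniform behaviour of the first `n` elements of the orbits of `y * l`, for `y` in `Y`. -/
structure Stage (lev : G → L) (R : G → Ξ → Bool) (Y : Set G) (l : G) (n : ℕ) (l' : G)
    (F : Set Ξ) : Prop where
  npos : 0 < n
  fin : F.Finite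
  iter : ∀ y ∈ Y, (Dop lev)^[n] (y * l) = l'
  high : ∀ a, Sm {y ∈ Y | ∃ i < n, lev ((Dop lev)^[i] (y * l)) ≤ a}
  sub : ∀ y ∈ Y, F ⊆ DvB lev R (y * l) n (R y)
  thin : ∀ ξ, Sm {y ∈ Y | ∃ ξ' ≤ ξ, ξ' ∉ F ∧ ξ' ∈ DvB lev R (y * l) n (R y)}

variable {lev : G → L} {R : G → Ξ → Bool}

lemma Stage.mono {Y Y' : Set G} {l : G} {n : ℕ} {l' : G} {F : Set Ξ}
    (h : Stage lev R Y l n l' F) (hY : Y' ⊆ Y) : Stage lev R Y' l n l' F where
  npos := h.npos
  fin := h.fin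
  iter := fun y hy => h.iter y (hY hy)
  high := by
    intro a
    refine (h.high a).mono ?_
    rintro y ⟨hy, h1⟩
    exact ⟨hY hy, h1⟩
  sub := fun y hy => h.sub y (hY hy)
  thin := by
    intro ξ
    refine (h.thin ξ).mono ?_
    rintro y ⟨hy, h1⟩
    exact ⟨hY hy, h1⟩

end

section

variable {G Ξ : Type u} [LinearOrder Ξ]

/-- The thinning lemma: a big family of finite sets has a big subfamily which is a kind of
Delta-system, with root `F`. -/
lemma exists_thin (hG : (#G).IsRegular) (hG' : ℵ₀ < #G)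
    (hsmall : ∀ ξ : Ξ, #(Iic ξ) < #G) {Y : Set G} (hY : Bg Y) (W : G → Set Ξ)
    (hW : ∀ y, (W y).Finite) :
    ∃ Y' ⊆ Y, Bg Y' ∧ ∃ F : Set Ξ, F.Finite ∧ (∀ y ∈ Y', F ⊆ W y) ∧
      ∀ ξ, Sm {y ∈ Y' | ∃ ξ' ≤ ξ, ξ' ∉ F ∧ ξ' ∈ W y} := by
  classical
  obtain ⟨w, hw⟩ := pig_nat hG hG' hY (fun y => (W y).ncard)
  set Y₁ := {y ∈ Y | (W y).ncard = w} with hY₁
  -- the possible sizes of a set `F` contained in `W y` for a big set of `y`
  let P : ℕ → Prop := fun k => ∃ F : Set Ξ, F.Finite ∧ F.ncard = k ∧ Bg {y ∈ Y₁ | F ⊆ W y}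
  have hP0 : P 0 := by
    refine ⟨∅, Set.finite_empty, Set.ncard_empty _, ?_⟩
    have : {y ∈ Y₁ | ∅ ⊆ W y} = Y₁ := by
      ext y
      simp
    rw [this]
    exact hw
  have hPle : ∀ k, P k → k ≤ w := by
    rintro k ⟨F, hF, hFk, hb⟩
    obtain ⟨y, hy, hFy⟩ := hb.nonempty hG
    rw [← hFk, ← hy.2]
    exact Set.ncard_le_ncard hFy (hW y)
  have hmax : P (Nat.findGreatest P w) := Nat.findGreatest_spec (P := P) (Nat.zero_le w) hP0
  obtain ⟨F, hF, hFk, hb⟩ := hmax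
  refine ⟨{y ∈ Y₁ | F ⊆ W y}, fun y hy => hy.1.1, hb, F, hF, fun y hy => hy.2, ?_⟩
  intro ξ
  by_contra hcon
  have hcon' : Bg {y ∈ {y ∈ Y₁ | F ⊆ W y} | ∃ ξ' ≤ ξ, ξ' ∉ F ∧ ξ' ∈ W y} := hcon
  have hch : ∀ y, ∃ ξ', (∃ ξ'' ≤ ξ, ξ'' ∉ F ∧ ξ'' ∈ W y) → (ξ' ≤ ξ ∧ ξ' ∉ F ∧ ξ' ∈ W y) := by
    intro y
    by_cases h : ∃ ξ'' ≤ ξ, ξ'' ∉ F ∧ ξ'' ∈ W y
    · obtain ⟨ξ'', h1⟩ := h
      exact ⟨ξ'', fun _ => h1⟩
    · exact ⟨ξ, fun h' => absurd h' h⟩
  choose p hp using hch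
  obtain ⟨ξ', hξ', hbig⟩ := pig hG hcon' (T := Iic ξ) (hsmall ξ) p (by
    rintro y ⟨-, hy⟩
    exact (hp y hy).1)
  have hnot : ξ' ∉ F := by
    obtain ⟨y, ⟨-, hy⟩, rfl⟩ := hbig.nonempty hG
    exact (hp y hy).2.1
  have hP' : P (F.ncard + 1) := by
    refine ⟨insert ξ' F, hF.insert _, Set.ncard_insert_of_notMem hnot hF, ?_⟩
    refine hbig.mono ?_
    rintro y ⟨⟨⟨hy1, hy2⟩, hy⟩, rfl⟩
    refine ⟨hy1, ?_⟩
    rw [insert_subset_iff]
    exact ⟨(hp y hy).2.2, hy2⟩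
  have h1 := hPle _ hP'
  have h2 := Nat.le_findGreatest (P := P) h1 hP'
  omega

end

section

variable {G L Ξ : Type u} [Group G] [LinearOrder L] [OrderBot L] [WellFoundedLT L]
  [LinearOrder Ξ] {lev : G → L} {R : G → Ξ → Bool}

omit [WellFoundedLT L] in
lemma small_mul_right (h : IsLev lev) (l : G) (a : L) :
    Sm {y | lev (y * l) ≤ a} := by
  refine (h.small (max a (lev l))).mono ?_
  intro y hy
  have h1 : lev y ≤ max (lev (y * l)) (lev l⁻¹) := by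
    have := h.mul (y * l) l⁻¹
    rwa [mul_inv_cancel_right] at this
  rw [h.inv] at h1
  exact h1.trans (max_le_max hy le_rfl)

omit [Group G] in
lemma sm_fin_union (hG : (#G).IsRegular) (n : ℕ) (S : ℕ → Set G) (h : ∀ i < n, Sm (S i)) :
    Sm {y | ∃ i < n, y ∈ S i} := by
  induction n with
  | zero =>
    refine (sm_empty hG).mono ?_
    rintro y ⟨i, hi, -⟩
    exact absurd hi (Nat.not_lt_zero i)
  | succ n ih =>
    refine (sm_union hG (ih (fun i hi => h i (by omega))) (h n (by omega))).mono ?_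
    rintro y ⟨i, hi, hy⟩
    rcases Nat.lt_succ_iff_lt_or_eq.1 hi with h1 | h1
    · exact Or.inl ⟨i, h1, hy⟩
    · subst h1
      exact Or.inr hy

theorem exists_stage (hG : (#G).IsRegular) (hG' : ℵ₀ < #G) (h : IsLev lev) (hR : IsR lev R)
    {Y : Set G} (hY : Bg Y) (l : G) :
    ∃ Y' ⊆ Y, Bg Y' ∧ ∃ (n : ℕ) (l' : G) (F : Set Ξ), Stage lev R Y' l n l' F := by
  classical
  let P : ℕ → Prop := fun i => ∃ a, Bg {y ∈ Y | lev ((Dop lev)^[i] (y * l)) ≤ a}
  have hex : ∃ i, P i := by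
    choose N hN using fun y : G => exists_Dop_iter_eq_one h (y * l)
    obtain ⟨n, hn⟩ := pig_nat hG hG' hY N
    refine ⟨n, ⊥, hn.mono ?_⟩
    rintro y ⟨hy, rfl⟩
    refine ⟨hy, ?_⟩
    rw [hN y, h.one]
  set n := Nat.find hex with hn
  have hPn : P n := Nat.find_spec hex
  have hPlt : ∀ i < n, ¬ P i := fun i hi => Nat.find_min hex hi
  have hnpos : 0 < n := by
    rw [Nat.pos_iff_ne_zero]
    intro h0
    rw [h0] at hPn
    obtain ⟨a, ha⟩ := hPn
    apply ha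
    refine (small_mul_right h l a).mono ?_
    rintro y ⟨-, hy⟩
    exact hy
  obtain ⟨a, ha⟩ := hPn
  obtain ⟨l', -, hl'⟩ := pig hG ha (T := {x | lev x ≤ a}) (h.small a)
    (fun y => (Dop lev)^[n] (y * l)) (fun y hy => hy.2)
  obtain ⟨Y', hY', hbY', F, hF, hsub, hthin⟩ := exists_thin hG hG' hR.small hl'
    (fun y => DvB lev R (y * l) n (R y)) (fun y => DvB_finite _ _ _)
  refine ⟨Y', fun y hy => (hY' hy).1.1, hbY', n, l', F, ?_⟩
  refine ⟨hnpos, hF, fun y hy => (hY' hy).2, ?_, hsub, hthin⟩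
  intro b
  have h1 : Sm {y | ∃ i < n, y ∈ {y ∈ Y | lev ((Dop lev)^[i] (y * l)) ≤ b}} := by
    apply sm_fin_union hG
    intro i hi
    by_contra hcon
    exact hPlt i hi ⟨b, hcon⟩
  refine h1.mono ?_
  rintro y ⟨hy, i, hi, hle⟩
  exact ⟨i, hi, (hY' hy).1.1, hle⟩

/-- Iterated stages. -/
theorem exists_stages (hG : (#G).IsRegular) (hG' : ℵ₀ < #G) (h : IsLev lev) (hR : IsR lev R)
    {Y : Set G} (hY : Bg Y) (m : ℕ) :
    ∃ Y' ⊆ Y, Bg Y' ∧ ∃ (l : ℕ → G) (n : ℕ → ℕ) (F : ℕ → Set Ξ), l 0 = 1 ∧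
      ∀ j < m, Stage lev R Y' (l j) (n j) (l (j + 1)) (F j) := by
  induction m with
  | zero =>
    exact ⟨Y, Subset.rfl, hY, fun _ => 1, fun _ => 0, fun _ => ∅, rfl,
      fun j hj => absurd hj (Nat.not_lt_zero j)⟩
  | succ m ih =>
    obtain ⟨Y₁, hY₁, hb₁, l, n, F, hl, hst⟩ := ih
    obtain ⟨Y₂, hY₂, hb₂, n', l', F', hst'⟩ := exists_stage hG hG' h hR hb₁ (l m)
    refine ⟨Y₂, hY₂.trans hY₁, hb₂, Function.update l (m + 1) l', Function.update n m n',
      Function.update F m F', ?_, ?_⟩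
    · rw [Function.update_of_ne (by omega)]
      exact hl
    · intro j hj
      rcases Nat.lt_succ_iff_lt_or_eq.1 hj with h1 | h1
      · rw [Function.update_of_ne (by omega), Function.update_of_ne (by omega),
          Function.update_of_ne (by omega), Function.update_of_ne (by omega)]
        exact (hst j h1).mono hY₂
      · subst h1
        rw [Function.update_of_ne (by omega), Function.update_self, Function.update_self,
          Function.update_self]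
        exact hst'

omit [WellFoundedLT L] in
/-- How a stage is used: the first differences of `f` with the sequences of the first elements
of the orbit of `y * l`, if `f` splits from `R y` at `δ`. -/
lemma Stage.dvB_eq {Y : Set G} {l : G} {n : ℕ} {l' : G} {F : Set Ξ} (hR : IsR lev R)
    (h : IsLev lev) (hs : Stage lev R Y l n l' F) {y : G} (hy : y ∈ Y) (hly : lev l < lev y)
    {f : Ξ → Bool} {δ : Ξ} (hFD : FD (R y) f δ) (hF : ∀ ξ ∈ F, ξ < δ)
    (hthin : ∀ ξ, ξ ≤ δ → ξ ∉ F → ξ ∉ DvB lev R (y * l) n (R y)) [WellFoundedLT Ξ] :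
    DvB lev R (y * l) n f = insert δ F := by
  have hRy : R (y * l) = R y := hR.dep _ _ (h.mul_of_lt' hly)
  ext ξ
  rw [mem_insert_iff]
  constructor
  · rintro ⟨i, hi, hξ⟩
    by_cases heq : R ((Dop lev)^[i] (y * l)) = R y
    · left
      rw [heq] at hξ
      exact hξ.unique hFD
    · obtain ⟨ξ', hξ'⟩ := exists_FD heq
      have hmem : ξ' ∈ DvB lev R (y * l) n (R y) := ⟨i, hi, hξ'⟩
      by_cases hle : ξ' ≤ δ
      · have hF' : ξ' ∈ F := by
          by_contra hcon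
          exact hthin ξ' hle hcon hmem
        have hlt := hF ξ' hF'
        right
        rw [hξ.unique (hFD.trans_lt hξ' hlt)]
        exact hF'
      · left
        rw [not_le] at hle
        exact hξ.unique (hFD.trans_gt hξ' hle)
  · rintro (rfl | hξF)
    · refine ⟨0, hs.npos, ?_⟩
      rw [Function.iterate_zero, id, hRy]
      exact hFD
    · obtain ⟨i, hi, hξ'⟩ := hs.sub y hy hξF
      exact ⟨i, hi, hFD.trans_lt hξ' (hF ξ hξF)⟩

end

end Pool.Agent.Resolv
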