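import Pool.Agent.Lib.MP_008583_gt.Seq

/-!
From colourings of groups to dense sets in topological groups.
-/

universe u

open Cardinal Set Topology
open scoped Pointwise

namespace Pool.Agent.Resolv

section

variable {G : Type u} [Group G] [TopologicalSpace G] [IsTopologicalGroup G]

/-- A colouring of a subgroup with dense fibres can be spread over the cosets of the subgroup. -/
lemma spread (K : Subgroup G) (f : K → ℕ) (hf : ∀ n, Dense (f ⁻¹' {n})) :
    ∃ f' : G → ℕ, ∀ n, Dense (f' ⁻¹' {n}) := by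
  classical
  let s : G → G := fun x => Quotient.out (x : G ⧸ K)
  have hs : ∀ x, ((s x : G) : G ⧸ K) = (x : G ⧸ K) := fun x => Quotient.out_eq _
  have hsK : ∀ x, (s x)⁻¹ * x ∈ K := fun x => QuotientGroup.eq.1 (hs x)
  refine ⟨fun x => f ⟨(s x)⁻¹ * x, hsK x⟩, ?_⟩
  intro n
  rw [dense_iff_inter_open]
  rintro U hU ⟨x, hx⟩
  let V : Set K := {k | s x * (k : G) ∈ U}
  have hV : IsOpen V := hU.preimage (by fun_prop)
  have hVne : V.Nonempty := by
    refine ⟨⟨(s x)⁻¹ * x, hsK x⟩, ?_⟩
    change s x * ((s x)⁻¹ * x) ∈ U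
    rw [mul_inv_cancel_left]
    exact hx
  obtain ⟨k, hkV, hkn⟩ := (hf n).inter_open_nonempty V hV hVne
  refine ⟨s x * k, hkV, ?_⟩
  have h1 : s (s x * (k : G)) = s x := by
    have h2 : ((s x * (k : G) : G) : G ⧸ K) = (x : G ⧸ K) := by
      rw [← hs x, eq_comm, QuotientGroup.eq, inv_mul_cancel_left]
      exact k.2
    change Quotient.out ((s x * (k : G) : G) : G ⧸ K) = Quotient.out (x : G ⧸ K)
    rw [h2]
  have h3 : f k = n := hkn
  change f ⟨(s (s x * (k : G)))⁻¹ * (s x * k), _⟩ = n
  rw [← h3]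
  congr 1
  apply Subtype.ext
  change (s (s x * (k : G)))⁻¹ * (s x * k) = k
  rw [h1, inv_mul_cancel_left]

lemma exists_nhds_pow_subset (m : ℕ) {U : Set G} (hU : U ∈ 𝓝 (1 : G)) :
    ∃ V ∈ 𝓝 (1 : G), V ^ m ⊆ U := by
  induction m generalizing U with
  | zero =>
    refine ⟨univ, Filter.univ_mem, ?_⟩
    rw [pow_zero]
    rintro x rfl
    exact mem_of_mem_nhds hU
  | succ m ih =>
    obtain ⟨W, hWopen, hW1, hWU⟩ := exists_open_nhds_one_mul_subset hU
    obtain ⟨V, hV, hVW⟩ := ih (hWopen.mem_nhds hW1)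
    refine ⟨V ∩ W, Filter.inter_mem hV (hWopen.mem_nhds hW1), ?_⟩
    rw [pow_succ]
    refine Subset.trans ?_ hWU
    apply Set.mul_subset_mul
    · exact (Set.pow_subset_pow_left inter_subset_left).trans hVW
    · exact inter_subset_right

/-- A group topology in which all nonempty open sets have the cardinality of the group, if this
cardinality is regular, uncountable and not weakly compact. -/
theorem resolvable_of_card (hG : (#G).IsRegular) (hG' : ℵ₀ < #G)
    (hwc : (∃ μ < #G, #G ≤ 2 ^ μ) ∨ ¬ Arrow (#G))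
    (hop : ∀ U : Set G, IsOpen U → U.Nonempty → #G ≤ #U) :
    ∃ f : G → ℕ, ∀ n, Dense (f ⁻¹' {n}) := by
  obtain ⟨c, hc⟩ := exists_colouring' hG hG' hwc
  refine ⟨c, fun n => ?_⟩
  obtain ⟨m, hm⟩ := hc n
  rw [dense_iff_inter_open]
  rintro U hU ⟨g, hg⟩
  have h1 : {x | g * x ∈ U} ∈ 𝓝 (1 : G) := by
    apply (hU.preimage (by fun_prop : Continuous fun x => g * x)).mem_nhds
    change g * 1 ∈ U
    rwa [mul_one]
  obtain ⟨V, hV, hVU⟩ := exists_nhds_pow_subset m h1
  obtain ⟨W, hWV, hWopen, hW1⟩ := mem_nhds_iff.1 hV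
  have h2 : #V = #G :=
    le_antisymm (mk_set_le V) ((hop W hWopen ⟨1, hW1⟩).trans (mk_le_mk_of_subset hWV))
  obtain ⟨v, hv, hcv⟩ := hm g V h2
  exact ⟨g * v, hVU hv, hcv⟩

end

/-- The dispersion character of a topological space: the least cardinality of a nonempty open
set. -/
noncomputable def dispersionCharacter (X : Type u) [TopologicalSpace X] : Cardinal.{u} :=
  sInf {c | ∃ U : Set X, IsOpen U ∧ U.Nonempty ∧ #U = c}

lemma dispersionCharacter_le {X : Type u} [TopologicalSpace X] {U : Set X} (hU : IsOpen U)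
    (hne : U.Nonempty) : dispersionCharacter X ≤ #U :=
  csInf_le' ⟨U, hU, hne, rfl⟩

lemma exists_dispersionCharacter (X : Type u) [TopologicalSpace X] [Nonempty X] :
    ∃ U : Set X, IsOpen U ∧ U.Nonempty ∧ #U = dispersionCharacter X :=
  csInf_mem (s := {c | ∃ U : Set X, IsOpen U ∧ U.Nonempty ∧ #U = c})
    ⟨_, univ, isOpen_univ, univ_nonempty, rfl⟩

theorem resolvable_of_dispersionCharacter (G : Type u) [Group G] [TopologicalSpace G]
    [IsTopologicalGroup G] (hreg : (dispersionCharacter G).IsRegular)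
    (hunc : ℵ₀ < dispersionCharacter G)
    (hwc : (∃ μ < dispersionCharacter G, dispersionCharacter G ≤ 2 ^ μ) ∨
      ¬ Arrow (dispersionCharacter G)) :
    ∃ f : G → ℕ, ∀ n, Dense (f ⁻¹' {n}) := by
  obtain ⟨U, hU, ⟨u, hu⟩, hcard⟩ := exists_dispersionCharacter G
  set κ := dispersionCharacter G with hκ
  -- translate `U` to the identity
  let U' : Set G := {x | u * x ∈ U}
  have hU' : IsOpen U' := hU.preimage (by fun_prop)
  have h1U' : (1 : G) ∈ U' := by
    change u * 1 ∈ U
    rwa [mul_one]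
  have hcardU' : #U' ≤ κ := by
    rw [← hcard]
    refine Cardinal.mk_le_of_injective (f := fun x : U' => (⟨u * x, x.2⟩ : U)) ?_
    intro x y hxy
    simp only [Subtype.mk.injEq, mul_right_inj] at hxy
    exact Subtype.ext hxy
  let H : Subgroup G := Subgroup.closure U'
  have hHopen : IsOpen (H : Set G) := by
    apply Subgroup.isOpen_of_mem_nhds (g := 1)
    exact Filter.mem_of_superset (hU'.mem_nhds h1U') Subgroup.subset_closure
  have hHcard : #H = κ := by
    apply le_antisymm
    · have h1 : #(Subgroup.closure U' : Set G) < Order.succ κ := by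
        apply mk_closure_lt
        · exact hunc.trans (Order.lt_succ κ)
        · exact lt_of_le_of_lt hcardU' (Order.lt_succ κ)
      exact Order.lt_succ_iff.1 h1
    · exact dispersionCharacter_le hHopen ⟨1, H.one_mem⟩
  obtain ⟨f, hf⟩ := resolvable_of_card (G := H) (by rw [hHcard]; exact hreg)
    (by rw [hHcard]; exact hunc) (by rw [hHcard]; exact hwc) (by
      rintro W hW ⟨w, hw⟩
      rw [hHcard]
      have h1 : IsOpen ((↑) '' W : Set G) := hHopen.isOpenMap_subtype_val W hW
      have h2 := dispersionCharacter_le h1 ⟨_, w, hw, rfl⟩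
      rw [mk_image_eq Subtype.val_injective] at h2
      exact h2)
  exact spread H f hf

/-- The same with the dispersion character of a subgroup. -/
theorem resolvable_of_subgroup (G : Type u) [Group G] [TopologicalSpace G]
    [IsTopologicalGroup G] (K : Subgroup G) (hreg : (dispersionCharacter K).IsRegular)
    (hunc : ℵ₀ < dispersionCharacter K)
    (hwc : (∃ μ < dispersionCharacter K, dispersionCharacter K ≤ 2 ^ μ) ∨
      ¬ Arrow (dispersionCharacter K)) :
    ∃ f : G → ℕ, ∀ n, Dense (f ⁻¹' {n}) := by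
  obtain ⟨f, hf⟩ := resolvable_of_dispersionCharacter K hreg hunc hwc
  exact spread K f hf

end Pool.Agent.Resolv
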